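import Pool.Agent.RTL.Targets

set_option autoImplicit false

/-!
# Target ADIC: finite modules over a complete Noetherian ring are complete
-/

namespace Pool.Agent.RTL

universe u

open Matrix

theorem p_ADIC : T_ADIC.{u} := by
  intro O _ _ I _ M _ _ _
  rw [← AdicCompletion.of_bijective_iff]
  have h1 := AdicCompletion.ofTensorProduct_bijective_of_finite_of_isNoetherian I M
  have h2 : Function.Bijective (fun x : M =>
      (TensorProduct.tmul O (AdicCompletion.of I O 1) x :
        TensorProduct O (AdicCompletion I O) M)) := by
    have h3 := ((TensorProduct.lid O M).symm.trans (TensorProduct.congr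
      (LinearEquiv.ofBijective (AdicCompletion.of I O) (AdicCompletion.of_bijective I O))
      (LinearEquiv.refl O M))).bijective
    have h6 : (fun x : M => (TensorProduct.tmul O (AdicCompletion.of I O 1) x :
        TensorProduct O (AdicCompletion I O) M)) = ((TensorProduct.lid O M).symm.trans
        (TensorProduct.congr
        (LinearEquiv.ofBijective (AdicCompletion.of I O) (AdicCompletion.of_bijective I O))
        (LinearEquiv.refl O M))) := by
      funext x
      simp
    rw [h6]
    exact h3
  have h4 : (AdicCompletion.of I M : M → AdicCompletion I M) =
      (AdicCompletion.ofTensorProduct I M) ∘ (fun x : M =>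
      (TensorProduct.tmul O (AdicCompletion.of I O 1) x :
        TensorProduct O (AdicCompletion I O) M)) := by
    funext x
    rw [Function.comp_apply, AdicCompletion.ofTensorProduct_tmul]
    have h5 : AdicCompletion.of I O 1 = 1 := rfl
    rw [h5, one_smul]
  rw [h4]
  exact h1.comp h2

end Pool.Agent.RTL
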