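import Pool.Agent.RTL.Targets

set_option autoImplicit false

namespace Pool.Agent.RTL

universe u v

open Matrix

namespace CLS_

section

variable {O : Type u} [CommRing O] {ϖ : O} {m : ℕ} {L ι : Type}
variable {T : Subalgebra O (L → O)} {π : T →ₐ[O] Quo ϖ m} {A : ι → ι → Submodule O (L → O)}

/-- `f (t x) = π t * f x` -/
lemma smulT {i j : ι} (f : A i j →ₗ[O] Quo ϖ m)
    (hf : ∀ w : A i j, (w : L → O) ∈ Wp π A i j → f w = 0) (t : T) (x : A i j)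
    (h : (t : L → O) * (x : L → O) ∈ A i j) : f ⟨(t : L → O) * (x : L → O), h⟩ = π t * f x := by
  obtain ⟨a, ha⟩ := Ideal.Quotient.mk_surjective (π t)
  have h0 : π (t - algebraMap O T a) = 0 := by
    rw [map_sub, AlgHom.commutes, ← ha]
    exact sub_self _
  have hmem : ((t - algebraMap O T a : T) : L → O) * (x : L → O) ∈ A i j := by
    have h1 : ((t - algebraMap O T a : T) : L → O) * (x : L → O) =
        (t : L → O) * (x : L → O) - a • (x : L → O) := by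
      have h2 : ((t - algebraMap O T a : T) : L → O) = (t : L → O) - algebraMap O (L → O) a := rfl
      rw [h2, sub_mul, Algebra.smul_def]
    rw [h1]
    exact Submodule.sub_mem _ h (Submodule.smul_mem _ _ x.2)
  have h1 : f ⟨((t - algebraMap O T a : T) : L → O) * (x : L → O), hmem⟩ = 0 := by
    apply hf
    exact Submodule.subset_span (Or.inr ⟨_, h0, (x : L → O), x.2, rfl⟩)
  have h2 : (⟨(t : L → O) * (x : L → O), h⟩ : A i j) =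
      ⟨((t - algebraMap O T a : T) : L → O) * (x : L → O), hmem⟩ + a • x := by
    apply Subtype.ext
    change (t : L → O) * (x : L → O) =
      ((t : L → O) - algebraMap O (L → O) a) * (x : L → O) + a • (x : L → O)
    rw [sub_mul, Algebra.smul_def]
    ring
  rw [h2, map_add, h1, zero_add, map_smul, ← ha, Algebra.smul_def]
  rfl

end

section

variable {O : Type u} [CommRing O] {G : Type v} [Group G] {L ι : Type} [Fintype ι]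
  [DecidableEq ι] {n : ι → ℕ} (A : ι → ι → Submodule O (L → O))

/-- the vectors with entries in the `A k' k` -/
def Mk (n : ι → ℕ) (k : ι) : Submodule O (Idx n → L → O) where
  carrier := {x | ∀ p, x p ∈ A p.1 k}
  add_mem' := fun {_ _} hx hy p => Submodule.add_mem (A p.1 k) (hx p) (hy p)
  zero_mem' := fun p => Submodule.zero_mem (A p.1 k)
  smul_mem' := fun c _ hx p => Submodule.smul_mem (A p.1 k) c (hx p)

lemma Mk_mem {k : ι} {x : Idx n → L → O} : x ∈ Mk A n k ↔ ∀ p, x p ∈ A p.1 k := Iff.rfl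

variable {A}

lemma Mk_mulVec (hmul : ∀ i j k x y, x ∈ A i j → y ∈ A j k → x * y ∈ A i k)
    (θ : G →* Matrix (Idx n) (Idx n) (L → O)) (hent : ∀ g i s j t, θ g ⟨i, s⟩ ⟨j, t⟩ ∈ A i j)
    (g : G) {k : ι} {x : Idx n → L → O} (hx : x ∈ Mk A n k) : θ g *ᵥ x ∈ Mk A n k := by
  intro p
  change (∑ q, θ g p q * x q) ∈ _
  exact Submodule.sum_mem _ fun q _ => hmul p.1 q.1 k _ _ (hent g p.1 p.2 q.1 q.2) (hx q)

/-- the vector with constant entries at one constituent -/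
def cst (n : ι → ℕ) (L : Type) (j : ι) (b : Fin (n j) → O) : Idx n → L → O :=
  fun p => if h : p.1 = j then algebraMap O (L → O) (b (h ▸ p.2)) else 0

lemma cst_self (j : ι) (b : Fin (n j) → O) (t : Fin (n j)) :
    cst n L j b ⟨j, t⟩ = algebraMap O (L → O) (b t) := by
  simp [cst]

lemma cst_ne (i j : ι) (h : i ≠ j) (b : Fin (n j) → O) (t : Fin (n i)) :
    cst n L j b ⟨i, t⟩ = 0 := by
  simp [cst, h]

lemma cst_mem {T : Subalgebra O (L → O)} (hAT : ∀ i x, x ∈ A i i ↔ x ∈ T) (j : ι)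
    (b : Fin (n j) → O) : cst n L j b ∈ Mk A n j := by
  rintro ⟨k, t⟩
  by_cases h : k = j
  · subst h
    rw [cst_self]
    exact (hAT _ _).2 (Subalgebra.algebraMap_mem _ _)
  · rw [cst_ne _ _ h]
    exact Submodule.zero_mem _

end

section

variable {O : Type u} [CommRing O] {ϖ : O} {m : ℕ} {G : Type v} [Group G] {L ι : Type}
  [Fintype ι] [DecidableEq ι] {n : ι → ℕ}
variable {T : Subalgebra O (L → O)} {π : T →ₐ[O] Quo ϖ m} {A : ι → ι → Submodule O (L → O)}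

/-- `π` as a linear map on `A i i` -/
noncomputable def pil (π : T →ₐ[O] Quo ϖ m) (hAT : ∀ i x, x ∈ A i i ↔ x ∈ T) (i : ι) :
    A i i →ₗ[O] Quo ϖ m where
  toFun x := π ⟨x, (hAT i x).1 x.2⟩
  map_add' x y := by
    rw [← map_add]
    rfl
  map_smul' c x := by
    rw [RingHom.id_apply, ← map_smul]
    rfl

lemma pil_apply (hAT : ∀ i x, x ∈ A i i ↔ x ∈ T) (i : ι) (x : A i i)
    (h : (x : L → O) ∈ T) : pil π hAT i x = π ⟨x, h⟩ := rfl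

/-- the entry at `p` -/
def ent (k : ι) (p : Idx n) : Mk A n k →ₗ[O] A p.1 k where
  toFun x := ⟨x.1 p, x.2 p⟩
  map_add' _ _ := rfl
  map_smul' _ _ := rfl

/-- the map onto the extension -/
noncomputable def FF (hAT : ∀ i x, x ∈ A i i ↔ x ∈ T) {i j : ι} (f : A i j →ₗ[O] Quo ϖ m) :
    (Mk A n j × Mk A n i) →ₗ[O] (Fin (n i) → Quo ϖ m) × (Fin (n j) → Quo ϖ m) :=
  LinearMap.prod
    (LinearMap.pi fun s => f ∘ₗ ent j ⟨i, s⟩ ∘ₗ LinearMap.fst O _ _ +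
      pil π hAT i ∘ₗ ent i ⟨i, s⟩ ∘ₗ LinearMap.snd O _ _)
    (LinearMap.pi fun t => pil π hAT j ∘ₗ ent j ⟨j, t⟩ ∘ₗ LinearMap.fst O _ _)

lemma FF_fst (hAT : ∀ i x, x ∈ A i i ↔ x ∈ T) {i j : ι} (f : A i j →ₗ[O] Quo ϖ m)
    (w : Mk A n j × Mk A n i) (s : Fin (n i)) :
    (FF (π := π) hAT f w).1 s = f ⟨w.1.1 ⟨i, s⟩, w.1.2 ⟨i, s⟩⟩ +
      π ⟨w.2.1 ⟨i, s⟩, (hAT i _).1 (w.2.2 ⟨i, s⟩)⟩ := rfl

lemma FF_snd (hAT : ∀ i x, x ∈ A i i ↔ x ∈ T) {i j : ι} (f : A i j →ₗ[O] Quo ϖ m)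
    (w : Mk A n j × Mk A n i) (t : Fin (n j)) :
    (FF (π := π) hAT f w).2 t = π ⟨w.1.1 ⟨j, t⟩, (hAT j _).1 (w.1.2 ⟨j, t⟩)⟩ := rfl

lemma f_sum {i j : ι} (f : A i j →ₗ[O] Quo ϖ m) {S : Type} (s : Finset S) (a : S → L → O)
    (ha : ∀ q, a q ∈ A i j) (h : ∑ q ∈ s, a q ∈ A i j) :
    f ⟨∑ q ∈ s, a q, h⟩ = ∑ q ∈ s, f ⟨a q, ha q⟩ := by
  rw [← map_sum]
  congr 1
  apply Subtype.ext
  rw [Submodule.coe_sum]

lemma f_mulVec (hmul : ∀ i j k x y, x ∈ A i j → y ∈ A j k → x * y ∈ A i k)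
    (hAT : ∀ i x, x ∈ A i i ↔ x ∈ T)
    (τ : (i : ι) → G →* Matrix (Fin (n i)) (Fin (n i)) O)
    (θ : G →* Matrix (Idx n) (Idx n) (L → O)) (hent : ∀ g i s j t, θ g ⟨i, s⟩ ⟨j, t⟩ ∈ A i j)
    (hπ : ∀ g i s t, ∃ h : θ g ⟨i, s⟩ ⟨i, t⟩ ∈ T, π ⟨_, h⟩ = red ϖ m (τ i g) s t)
    {i j : ι} (hij : i ≠ j) (f : A i j →ₗ[O] Quo ϖ m)
    (hf : ∀ w : A i j, (w : L → O) ∈ Wp π A i j → f w = 0) (z : Z1 ϖ m (τ i) (τ j))
    (hz : ∀ g s t, z.1 g s t = f ⟨θ g ⟨i, s⟩ ⟨j, t⟩, hent g i s j t⟩) (g : G)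
    (x : Mk A n j) (s : Fin (n i)) (h : (θ g *ᵥ x.1) ⟨i, s⟩ ∈ A i j) :
    f ⟨(θ g *ᵥ x.1) ⟨i, s⟩, h⟩ =
      ∑ p, red ϖ m (τ i g) s p * f ⟨x.1 ⟨i, p⟩, x.2 ⟨i, p⟩⟩ +
      ∑ p, z.1 g s p * π ⟨x.1 ⟨j, p⟩, (hAT j _).1 (x.2 ⟨j, p⟩)⟩ := by
  have h1 : f ⟨(θ g *ᵥ x.1) ⟨i, s⟩, h⟩ = ∑ p : Idx n, f ⟨θ g ⟨i, s⟩ p * x.1 p,
      hmul i p.1 j _ _ (hent g i s p.1 p.2) (x.2 p)⟩ :=
    f_sum f Finset.univ (fun p : Idx n => θ g ⟨i, s⟩ p * x.1 p)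
      (fun p => hmul i p.1 j _ _ (hent g i s p.1 p.2) (x.2 p)) h
  rw [h1, Fintype.sum_sigma, Finset.sum_eq_add i j hij]
  · congr 1
    · apply Finset.sum_congr rfl
      intro q _
      obtain ⟨h', hq⟩ := hπ g i s q
      have h2 := smulT f hf ⟨_, h'⟩ ⟨x.1 ⟨i, q⟩, x.2 ⟨i, q⟩⟩
        (hmul i i j _ _ (hent g i s i q) (x.2 ⟨i, q⟩))
      rw [hq] at h2
      exact h2
    · apply Finset.sum_congr rfl
      intro q _
      have h3 : x.1 ⟨j, q⟩ * θ g ⟨i, s⟩ ⟨j, q⟩ ∈ A i j := by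
        rw [mul_comm]
        exact hmul i j j _ _ (hent g i s j q) (x.2 ⟨j, q⟩)
      have h2 := smulT f hf ⟨x.1 ⟨j, q⟩, (hAT j _).1 (x.2 ⟨j, q⟩)⟩
        ⟨θ g ⟨i, s⟩ ⟨j, q⟩, hent g i s j q⟩ h3
      rw [← hz] at h2
      have h4 : f ⟨θ g ⟨i, s⟩ ⟨j, q⟩ * x.1 ⟨j, q⟩,
          hmul i j j _ _ (hent g i s j q) (x.2 ⟨j, q⟩)⟩ =
          f ⟨x.1 ⟨j, q⟩ * θ g ⟨i, s⟩ ⟨j, q⟩, h3⟩ :=
        congrArg f (Subtype.ext (mul_comm _ _))
      exact h4.trans (h2.trans (mul_comm _ _))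
  · rintro k - ⟨hki, hkj⟩
    apply Finset.sum_eq_zero
    intro q _
    apply hf
    exact Submodule.subset_span (Or.inl ⟨k, hki, hkj, _, hent g i s k q, _, x.2 ⟨k, q⟩, rfl⟩)
  · intro h
    exact absurd (Finset.mem_univ i) h
  · intro h
    exact absurd (Finset.mem_univ j) h

lemma pi_mulVec (hmul : ∀ i j k x y, x ∈ A i j → y ∈ A j k → x * y ∈ A i k)
    (hAT : ∀ i x, x ∈ A i i ↔ x ∈ T)
    (hnil : ∀ i j, i ≠ j → ∀ x ∈ A i j, ∀ y ∈ A j i, ∃ h : x * y ∈ T, π ⟨x * y, h⟩ = 0)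
    (τ : (i : ι) → G →* Matrix (Fin (n i)) (Fin (n i)) O)
    (θ : G →* Matrix (Idx n) (Idx n) (L → O)) (hent : ∀ g i s j t, θ g ⟨i, s⟩ ⟨j, t⟩ ∈ A i j)
    (hπ : ∀ g i s t, ∃ h : θ g ⟨i, s⟩ ⟨i, t⟩ ∈ T, π ⟨_, h⟩ = red ϖ m (τ i g) s t)
    (i : ι) (g : G) (x : Mk A n i) (s : Fin (n i)) (h : (θ g *ᵥ x.1) ⟨i, s⟩ ∈ T) :
    π ⟨(θ g *ᵥ x.1) ⟨i, s⟩, h⟩ =
      ∑ p, red ϖ m (τ i g) s p * π ⟨x.1 ⟨i, p⟩, (hAT i _).1 (x.2 ⟨i, p⟩)⟩ := by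
  have h1 : pil π hAT i ⟨(θ g *ᵥ x.1) ⟨i, s⟩, (hAT _ _).2 h⟩ =
      ∑ p : Idx n, pil π hAT i ⟨θ g ⟨i, s⟩ p * x.1 p,
      hmul i p.1 i _ _ (hent g i s p.1 p.2) (x.2 p)⟩ :=
    f_sum (pil π hAT i) Finset.univ (fun p : Idx n => θ g ⟨i, s⟩ p * x.1 p)
      (fun p => hmul i p.1 i _ _ (hent g i s p.1 p.2) (x.2 p)) ((hAT _ _).2 h)
  have h0 : π ⟨(θ g *ᵥ x.1) ⟨i, s⟩, h⟩ =
      pil π hAT i ⟨(θ g *ᵥ x.1) ⟨i, s⟩, (hAT _ _).2 h⟩ := rfl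
  rw [h0, h1, Fintype.sum_sigma, Finset.sum_eq_single i]
  · apply Finset.sum_congr rfl
    intro q _
    obtain ⟨h', hq⟩ := hπ g i s q
    have h2 : π (⟨_, h'⟩ * ⟨x.1 ⟨i, q⟩, (hAT i _).1 (x.2 ⟨i, q⟩)⟩) =
      π ⟨_, h'⟩ * π ⟨x.1 ⟨i, q⟩, (hAT i _).1 (x.2 ⟨i, q⟩)⟩ := map_mul _ _ _
    rw [hq] at h2
    exact h2
  · intro k _ hki
    apply Finset.sum_eq_zero
    intro q _
    obtain ⟨h', hq⟩ := hnil i k (Ne.symm hki) _ (hent g i s k q) _ (x.2 ⟨k, q⟩)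
    exact hq
  · intro h
    exact absurd (Finset.mem_univ i) h

lemma FF_equiv (hmul : ∀ i j k x y, x ∈ A i j → y ∈ A j k → x * y ∈ A i k)
    (hAT : ∀ i x, x ∈ A i i ↔ x ∈ T)
    (hnil : ∀ i j, i ≠ j → ∀ x ∈ A i j, ∀ y ∈ A j i, ∃ h : x * y ∈ T, π ⟨x * y, h⟩ = 0)
    (τ : (i : ι) → G →* Matrix (Fin (n i)) (Fin (n i)) O)
    (θ : G →* Matrix (Idx n) (Idx n) (L → O)) (hent : ∀ g i s j t, θ g ⟨i, s⟩ ⟨j, t⟩ ∈ A i j)
    (hπ : ∀ g i s t, ∃ h : θ g ⟨i, s⟩ ⟨i, t⟩ ∈ T, π ⟨_, h⟩ = red ϖ m (τ i g) s t)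
    {i j : ι} (hij : i ≠ j) (f : A i j →ₗ[O] Quo ϖ m)
    (hf : ∀ w : A i j, (w : L → O) ∈ Wp π A i j → f w = 0) (z : Z1 ϖ m (τ i) (τ j))
    (hz : ∀ g s t, z.1 g s t = f ⟨θ g ⟨i, s⟩ ⟨j, t⟩, hent g i s j t⟩) (g : G)
    (w : Mk A n j × Mk A n i) :
    FF (π := π) hAT f (⟨θ g *ᵥ w.1.1, Mk_mulVec hmul θ hent g w.1.2⟩,
      ⟨θ g *ᵥ w.2.1, Mk_mulVec hmul θ hent g w.2.2⟩) =
      extRep ϖ m (τ i) (τ j) z g (FF (π := π) hAT f w) := by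
  refine Prod.ext ?_ ?_
  · funext s
    rw [FF_fst]
    change _ = (red ϖ m (τ i g) *ᵥ (FF (π := π) hAT f w).1 +
      z.1 g *ᵥ (FF (π := π) hAT f w).2) s
    rw [f_mulVec hmul hAT τ θ hent hπ hij f hf z hz g w.1 s,
      pi_mulVec hmul hAT hnil τ θ hent hπ i g w.2 s, Pi.add_apply]
    simp only [Matrix.mulVec, dotProduct, FF_fst, FF_snd, mul_add, Finset.sum_add_distrib]
    abel
  · funext t
    rw [FF_snd]
    change _ = (red ϖ m (τ j g) *ᵥ (FF (π := π) hAT f w).2) t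
    rw [pi_mulVec hmul hAT hnil τ θ hent hπ j g w.1 t]
    simp only [Matrix.mulVec, dotProduct, FF_snd]

lemma FF_surj (hAT : ∀ i x, x ∈ A i i ↔ x ∈ T) {i j : ι} (hij : i ≠ j)
    (f : A i j →ₗ[O] Quo ϖ m) :
    Function.Surjective (FF (n := n) (π := π) hAT f) := by
  rintro ⟨a, b⟩
  choose a' ha using fun s => Ideal.Quotient.mk_surjective (a s)
  choose b' hb using fun s => Ideal.Quotient.mk_surjective (b s)
  have hc : ∀ c : O, ∀ h : algebraMap O (L → O) c ∈ T,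
      π ⟨algebraMap O (L → O) c, h⟩ = Ideal.Quotient.mk _ c := by
    intro c h
    exact π.commutes c
  refine ⟨(⟨cst n L j b', cst_mem hAT j b'⟩, ⟨cst n L i a', cst_mem hAT i a'⟩), ?_⟩
  refine Prod.ext ?_ ?_
  · funext s
    rw [FF_fst]
    have h1 : (⟨cst n L j b' ⟨i, s⟩, cst_mem hAT j b' ⟨i, s⟩⟩ : A i j) = 0 :=
      Subtype.ext (cst_ne i j hij b' s)
    have h2 : (⟨cst n L i a' ⟨i, s⟩, (hAT i _).1 (cst_mem hAT i a' ⟨i, s⟩)⟩ : T) =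
        ⟨algebraMap O (L → O) (a' s), Subalgebra.algebraMap_mem _ _⟩ :=
      Subtype.ext (cst_self i a' s)
    change f ⟨cst n L j b' ⟨i, s⟩, _⟩ + π ⟨cst n L i a' ⟨i, s⟩, _⟩ = a s
    rw [h1, h2, map_zero, zero_add, hc, ha]
  · funext t
    rw [FF_snd]
    have h2 : (⟨cst n L j b' ⟨j, t⟩, (hAT j _).1 (cst_mem hAT j b' ⟨j, t⟩)⟩ : T) =
        ⟨algebraMap O (L → O) (b' t), Subalgebra.algebraMap_mem _ _⟩ :=
      Subtype.ext (cst_self j b' t)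
    change π ⟨cst n L j b' ⟨j, t⟩, _⟩ = b t
    rw [h2, hc, hb]

lemma tgt_kill {S S' : Type} (v : (S → Quo ϖ m) × (S' → Quo ϖ m)) : ϖ ^ m • v = 0 := by
  have h : ∀ c : Quo ϖ m, ϖ ^ m • c = 0 := by
    intro c
    obtain ⟨c, rfl⟩ := Ideal.Quotient.mk_surjective c
    rw [Algebra.smul_def]
    change Ideal.Quotient.mk _ (ϖ ^ m) * _ = 0
    rw [Ideal.Quotient.eq_zero_iff_mem.2 (Ideal.mem_span_singleton_self _), zero_mul]
  refine Prod.ext ?_ ?_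
  · funext s
    exact h _
  · funext s
    exact h _

/-- reduction modulo `ϖ ^ r` -/
def rd (ϖ : O) (r : ℕ) (S L : Type) : (S → L → O) →ₗ[O] (S → L → Quo ϖ r) where
  toFun x := fun s l => Ideal.Quotient.mk _ (x s l)
  map_add' _ _ := rfl
  map_smul' _ _ := rfl

lemma rd_equiv (ϖ : O) (r : ℕ) (θ : G →* Matrix (Idx n) (Idx n) (L → O)) (g : G)
    (x : Idx n → L → O) :
    bigRep ϖ r θ g (rd ϖ r (Idx n) L x) = rd ϖ r (Idx n) L (θ g *ᵥ x) := by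
  funext s l
  change (∑ t, Ideal.Quotient.mk _ (θ g s t l) * Ideal.Quotient.mk _ (x t l)) =
    Ideal.Quotient.mk _ ((∑ t, θ g s t * x t) l)
  rw [Finset.sum_apply, map_sum]
  apply Finset.sum_congr rfl
  intro t _
  rw [Pi.mul_apply, map_mul]

lemma rd_ker (ϖ : O) (r : ℕ) {S L : Type} (x : S → L → O) (h : rd ϖ r S L x = 0) :
    ∃ y : S → L → O, x = ϖ ^ r • y := by
  have h1 : ∀ s l, ∃ c, x s l = ϖ ^ r * c := by
    intro s l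
    have h2 : Ideal.Quotient.mk (Ideal.span ({ϖ ^ r} : Set O)) (x s l) = 0 :=
      congrFun (congrFun h s) l
    obtain ⟨c, hc⟩ := Ideal.mem_span_singleton.1 (Ideal.Quotient.eq_zero_iff_mem.1 h2)
    exact ⟨c, hc⟩
  choose y hy using h1
  refine ⟨y, ?_⟩
  funext s l
  rw [hy]
  rfl

/-- Artin-Rees -/
lemma ar [IsNoetherianRing O] {S L : Type} [Finite S] [Finite L] (ϖ : O) (m : ℕ)
    (N N' : Submodule O (S → L → O)) : ∃ r : ℕ, ∀ x ∈ N, ∀ x' ∈ N', rd ϖ r S L x = 0 →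
      rd ϖ r S L x' = 0 → ∃ y ∈ N, ∃ y' ∈ N', x = ϖ ^ m • y ∧ x' = ϖ ^ m • y' := by
  obtain ⟨k, hk⟩ := Ideal.exists_pow_inf_eq_pow_smul (Ideal.span {ϖ}) (N.prod N')
  refine ⟨k + m, fun x hx x' hx' h h' => ?_⟩
  obtain ⟨y, hy⟩ := rd_ker ϖ (k + m) x h
  obtain ⟨y', hy'⟩ := rd_ker ϖ (k + m) x' h'
  have h1 : (x, x') ∈ (Ideal.span {ϖ}) ^ (k + m) • ⊤ ⊓ (N.prod N') := by
    refine Submodule.mem_inf.2 ⟨?_, ⟨hx, hx'⟩⟩
    have h2 : (x, x') = ϖ ^ (k + m) • ((y, y') : (S → L → O) × (S → L → O)) := by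
      rw [hy, hy']
      rfl
    rw [h2]
    exact Submodule.smul_mem_smul (Ideal.pow_mem_pow (Ideal.mem_span_singleton_self _) _)
      Submodule.mem_top
  rw [hk (k + m) (by omega), Nat.add_sub_cancel_left, Ideal.span_singleton_pow ϖ m,
    Submodule.ideal_span_singleton_smul, Submodule.mem_smul_pointwise_iff_exists] at h1
  obtain ⟨⟨w, w'⟩, hw, h3⟩ := h1
  have hw2 := (Submodule.mem_inf.1 hw).2
  exact ⟨w, hw2.1, w', hw2.2, (congrArg Prod.fst h3).symm, (congrArg Prod.snd h3).symm⟩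

end

end CLS_

theorem p_CLS : T_CLS.{u, v} := by
  intro O _ _ ϖ m G _ C hC L ι _ _ _ n τ θ hbig T π A hmul hAT hnil hent hπ i j hij f hf z hz
  classical
  obtain ⟨r, hr⟩ := CLS_.ar ϖ m (CLS_.Mk A n j) (CLS_.Mk A n i)
  let gr : (CLS_.Mk A n j × CLS_.Mk A n i) →ₗ[O]
      (Idx n → L → Quo ϖ r) × (Idx n → L → Quo ϖ r) :=
    (CLS_.rd ϖ r (Idx n) L ∘ₗ (CLS_.Mk A n j).subtype).prodMap
      (CLS_.rd ϖ r (Idx n) L ∘ₗ (CLS_.Mk A n i).subtype)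
  let act : G → (CLS_.Mk A n j × CLS_.Mk A n i) → (CLS_.Mk A n j × CLS_.Mk A n i) :=
    fun g w => (⟨θ g *ᵥ w.1.1, CLS_.Mk_mulVec hmul θ hent g w.1.2⟩,
      ⟨θ g *ᵥ w.2.1, CLS_.Mk_mulVec hmul θ hent g w.2.2⟩)
  have hact : ∀ g w, (bigRep ϖ r θ).prod (bigRep ϖ r θ) g (gr w) = gr (act g w) := by
    intro g w
    refine Prod.ext ?_ ?_
    · exact CLS_.rd_equiv ϖ r θ g w.1.1
    · exact CLS_.rd_equiv ϖ r θ g w.2.1
  have hinv : ∀ g, ∀ x ∈ LinearMap.range gr,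
      (bigRep ϖ r θ).prod (bigRep ϖ r θ) g x ∈ LinearMap.range gr := by
    rintro g _ ⟨w, rfl⟩
    exact ⟨act g w, (hact g w).symm⟩
  let ρ : Representation O G (LinearMap.range gr) :=
    { toFun := fun g => ((bigRep ϖ r θ).prod (bigRep ϖ r θ) g).restrict (hinv g)
      map_one' := by
        refine LinearMap.ext fun x => Subtype.ext ?_
        rw [LinearMap.coe_restrict_apply, map_one]
        rfl
      map_mul' := by
        intro g h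
        refine LinearMap.ext fun x => Subtype.ext ?_
        rw [LinearMap.coe_restrict_apply, map_mul]
        rfl }
  have hρ : C _ ρ := hC.sub _ _ ρ ((bigRep ϖ r θ).prod (bigRep ϖ r θ))
    (LinearMap.range gr).subtype Subtype.val_injective (fun g x => rfl)
    (hC.prod _ _ _ _ (hbig r) (hbig r))
  have hker : LinearMap.ker gr ≤ LinearMap.ker (CLS_.FF (n := n) (π := π) hAT f) := by
    intro w hw
    rw [LinearMap.mem_ker] at hw ⊢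
    obtain ⟨y, hy, y', hy', h1, h2⟩ := hr w.1.1 w.1.2 w.2.1 w.2.2 (congrArg Prod.fst hw)
      (congrArg Prod.snd hw)
    have h3 : w = ϖ ^ m • ((⟨y, hy⟩, ⟨y', hy'⟩) : CLS_.Mk A n j × CLS_.Mk A n i) :=
      Prod.ext (Subtype.ext h1) (Subtype.ext h2)
    rw [h3, map_smul, CLS_.tgt_kill]
  let F' : LinearMap.range gr →ₗ[O] (Fin (n i) → Quo ϖ m) × (Fin (n j) → Quo ϖ m) :=
    ((LinearMap.ker gr).liftQ (CLS_.FF (n := n) (π := π) hAT f) hker) ∘ₗ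
      (gr.quotKerEquivRange.symm : LinearMap.range gr →ₗ[O] _)
  have hF' : ∀ w (h : gr w ∈ LinearMap.range gr), F' ⟨gr w, h⟩ =
      CLS_.FF (π := π) hAT f w := by
    intro w h
    change (LinearMap.ker gr).liftQ _ hker (gr.quotKerEquivRange.symm ⟨gr w, h⟩) = _
    rw [LinearMap.quotKerEquivRange_symm_apply_image]
    rfl
  refine hC.quot _ _ ρ (extRep ϖ m (τ i) (τ j) z) F' ?_ ?_ hρ
  · intro v
    obtain ⟨w, hw⟩ := CLS_.FF_surj (π := π) hAT hij f v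
    exact ⟨⟨gr w, ⟨w, rfl⟩⟩, (hF' w _).trans hw⟩
  · rintro g ⟨_, ⟨w, rfl⟩⟩
    have h1 : ρ g ⟨gr w, ⟨w, rfl⟩⟩ = ⟨gr (act g w), ⟨act g w, rfl⟩⟩ :=
      Subtype.ext (hact g w)
    rw [h1, hF', hF']
    exact CLS_.FF_equiv hmul hAT hnil τ θ hent hπ hij f hf z hz g w

end Pool.Agent.RTL
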