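import Pool.Agent.RTL.Targets

set_option autoImplicit false

namespace Pool.Agent.RTL

universe u v

open Matrix

namespace COC_

section

variable {O : Type u} [CommRing O] {ϖ : O} {m : ℕ} {L ι : Type}
variable {T : Subalgebra O (L → O)} {π : T →ₐ[O] Quo ϖ m} {A : ι → ι → Submodule O (L → O)}

/-- `f (t x) = π t * f x` -/
lemma smulT {i j : ι} (f : A i j →ₗ[O] Quo ϖ m)
    (hf : ∀ w : A i j, (w : L → O) ∈ Wp π A i j → f w = 0) (t : T) (x : A i j)
    (h : (t : L → O) * (x : L → O) ∈ A i j) : f ⟨(t : L → O) * (x : L → O), h⟩ = π t * f x := by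
  obtain ⟨a, ha⟩ := Ideal.Quotient.mk_surjective (π t)
  have h0 : π (t - algebraMap O T a) = 0 := by
    rw [map_sub, AlgHom.commutes, ← ha]
    exact sub_self _
  have hmem : ((t - algebraMap O T a : T) : L → O) * (x : L → O) ∈ A i j := by
    have h1 : ((t - algebraMap O T a : T) : L → O) * (x : L → O) =
        (t : L → O) * (x : L → O) - a • (x : L → O) := by
      have h2 : ((t - algebraMap O T a : T) : L → O) = (t : L → O) - algebraMap O (L → O) a := rfl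
      rw [h2, sub_mul, Algebra.smul_def]
    rw [h1]
    exact Submodule.sub_mem _ h (Submodule.smul_mem _ _ x.2)
  have h1 : f ⟨((t - algebraMap O T a : T) : L → O) * (x : L → O), hmem⟩ = 0 := by
    apply hf
    exact Submodule.subset_span (Or.inr ⟨_, h0, (x : L → O), x.2, rfl⟩)
  have h2 : (⟨(t : L → O) * (x : L → O), h⟩ : A i j) =
      ⟨((t - algebraMap O T a : T) : L → O) * (x : L → O), hmem⟩ + a • x := by
    apply Subtype.ext
    change (t : L → O) * (x : L → O) =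
      ((t : L → O) - algebraMap O (L → O) a) * (x : L → O) + a • (x : L → O)
    rw [sub_mul, Algebra.smul_def]
    ring
  rw [h2, map_add, h1, zero_add, map_smul, ← ha, Algebra.smul_def]
  rfl

end

section

variable {O : Type u} [CommRing O] {ϖ : O} {m : ℕ} {G : Type v} [Group G] {L ι : Type}
  [Fintype ι] [DecidableEq ι] {n : ι → ℕ}
variable {Sg : MonoidAlgebra O G →ₐ[O] Matrix (Idx n) (Idx n) (L → O)}
variable {Ta : MonoidAlgebra O G →ₐ[O] ((i : ι) → Matrix (Fin (n i)) (Fin (n i)) (Quo ϖ m))}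
variable {T : Subalgebra O (L → O)} {π : T →ₐ[O] Quo ϖ m} {A : ι → ι → Submodule O (L → O)}

/-- the matrix of the values of `f` on the entries -/
noncomputable def zf (hent : ∀ a i s j t, Sg a ⟨i, s⟩ ⟨j, t⟩ ∈ A i j) {i j : ι}
    (f : A i j →ₗ[O] Quo ϖ m)
    (a : MonoidAlgebra O G) : Matrix (Fin (n i)) (Fin (n j)) (Quo ϖ m) :=
  Matrix.of fun s t => f ⟨Sg a ⟨i, s⟩ ⟨j, t⟩, hent a i s j t⟩

lemma zf_add (hent : ∀ a i s j t, Sg a ⟨i, s⟩ ⟨j, t⟩ ∈ A i j) {i j : ι}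
    (f : A i j →ₗ[O] Quo ϖ m) (a b : MonoidAlgebra O G) :
    zf hent f (a + b) = zf hent f a + zf hent f b := by
  ext s t
  change f _ = f _ + f _
  rw [← map_add]
  congr 1
  apply Subtype.ext
  change Sg (a + b) _ _ = Sg a _ _ + Sg b _ _
  rw [map_add]
  rfl

lemma zf_smul (hent : ∀ a i s j t, Sg a ⟨i, s⟩ ⟨j, t⟩ ∈ A i j) {i j : ι}
    (f : A i j →ₗ[O] Quo ϖ m) (r : O) (a : MonoidAlgebra O G) :
    zf hent f (r • a) = r • zf hent f a := by
  ext s t
  change f _ = r • f _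
  rw [← map_smul]
  congr 1
  apply Subtype.ext
  change Sg (r • a) _ _ = r • Sg a _ _
  rw [map_smul]
  rfl

lemma zf_mul (hmul : ∀ i j k x y, x ∈ A i j → y ∈ A j k → x * y ∈ A i k)
    (hent : ∀ a i s j t, Sg a ⟨i, s⟩ ⟨j, t⟩ ∈ A i j)
    (hπ : ∀ a i s t, ∃ h : Sg a ⟨i, s⟩ ⟨i, t⟩ ∈ T, π ⟨_, h⟩ = Ta a i s t)
    {i j : ι} (hij : i ≠ j) (f : A i j →ₗ[O] Quo ϖ m)
    (hf : ∀ w : A i j, (w : L → O) ∈ Wp π A i j → f w = 0) (a b : MonoidAlgebra O G) :
    zf hent f (a * b) = Ta a i * zf hent f b + zf hent f a * Ta b j := by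
  ext s t
  have h1 : zf hent f (a * b) s t = ∑ p : Idx n, f ⟨Sg a ⟨i, s⟩ p * Sg b p ⟨j, t⟩,
      hmul i p.1 j _ _ (hent a i s p.1 p.2) (hent b p.1 p.2 j t)⟩ := by
    rw [← map_sum]
    change f _ = f _
    congr 1
    apply Subtype.ext
    rw [Submodule.coe_sum]
    change Sg (a * b) _ _ = _
    rw [map_mul, Matrix.mul_apply]
  rw [h1, Fintype.sum_sigma, Finset.sum_eq_add i j hij]
  · rw [Matrix.add_apply, Matrix.mul_apply, Matrix.mul_apply]
    congr 1
    · apply Finset.sum_congr rfl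
      intro q _
      obtain ⟨h, hq⟩ := hπ a i s q
      have h2 := smulT f hf ⟨_, h⟩ ⟨Sg b ⟨i, q⟩ ⟨j, t⟩, hent b i q j t⟩
        (hmul i i j _ _ (hent a i s i q) (hent b i q j t))
      rw [hq] at h2
      exact h2
    · apply Finset.sum_congr rfl
      intro q _
      obtain ⟨h, hq⟩ := hπ b j q t
      have h3 : Sg b ⟨j, q⟩ ⟨j, t⟩ * Sg a ⟨i, s⟩ ⟨j, q⟩ ∈ A i j := by
        rw [mul_comm]
        exact hmul i j j _ _ (hent a i s j q) (hent b j q j t)
      have h2 := smulT f hf ⟨_, h⟩ ⟨Sg a ⟨i, s⟩ ⟨j, q⟩, hent a i s j q⟩ h3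
      rw [hq] at h2
      have h4 : f ⟨Sg a ⟨i, s⟩ ⟨j, q⟩ * Sg b ⟨j, q⟩ ⟨j, t⟩,
          hmul i j j _ _ (hent a i s j q) (hent b j q j t)⟩ =
          f ⟨Sg b ⟨j, q⟩ ⟨j, t⟩ * Sg a ⟨i, s⟩ ⟨j, q⟩, h3⟩ :=
        congrArg f (Subtype.ext (mul_comm _ _))
      exact h4.trans (h2.trans (mul_comm _ _))
  · rintro k - ⟨hki, hkj⟩
    apply Finset.sum_eq_zero
    intro q _
    apply hf
    exact Submodule.subset_span (Or.inl ⟨k, hki, hkj, _, hent a i s k q, _, hent b k q j t, rfl⟩)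
  · intro h
    exact absurd (Finset.mem_univ i) h
  · intro h
    exact absurd (Finset.mem_univ j) h

lemma zf_cob (τ : (i : ι) → G →* Matrix (Fin (n i)) (Fin (n i)) O)
    (hTa' : ∀ g i, Ta (MonoidAlgebra.of O G g) i = red ϖ m (τ i g))
    (hent : ∀ a i s j t, Sg a ⟨i, s⟩ ⟨j, t⟩ ∈ A i j)
    {i j : ι} (f : A i j →ₗ[O] Quo ϖ m) (X : Matrix (Fin (n i)) (Fin (n j)) (Quo ϖ m))
    (hX : ∀ g, zf hent f (MonoidAlgebra.of O G g) =
      red ϖ m (τ i g) * X - X * red ϖ m (τ j g)) (a : MonoidAlgebra O G) :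
    zf hent f a = Ta a i * X - X * Ta a j := by
  induction a using MonoidAlgebra.induction_on with
  | of g =>
    rw [hX, hTa', hTa']
  | add a b ha hb =>
    rw [zf_add, ha, hb, map_add, Pi.add_apply, Pi.add_apply, Matrix.add_mul, Matrix.mul_add]
    abel
  | smul r a ha =>
    rw [zf_smul, ha, map_smul, Pi.smul_apply, Pi.smul_apply, smul_sub, Matrix.smul_mul,
      Matrix.mul_smul]

end

end COC_

open COC_

theorem p_COC : T_COC.{u, v} := by
  intro O _ ϖ m G _ L ι _ _ n hn τ Sg Ta hTa T π A hmul hdiag hoff hent hπ i j hij hspan V _ _ Ψ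
    hinj hkill
  have hz : ∀ x : V, (fun g => zf hent (Ψ x) (MonoidAlgebra.of O G g)) ∈ Z1 ϖ m (τ i) (τ j) := by
    intro x g h
    change zf hent (Ψ x) (MonoidAlgebra.of O G (g * h)) =
      red ϖ m (τ i g) * zf hent (Ψ x) (MonoidAlgebra.of O G h) +
        zf hent (Ψ x) (MonoidAlgebra.of O G g) * red ϖ m (τ j h)
    rw [map_mul, zf_mul hmul hent hπ hij (Ψ x) (hkill x), hTa, hTa]
  let Φ0 : V →ₗ[O] Z1 ϖ m (τ i) (τ j) :=
    { toFun := fun x => ⟨fun g => zf hent (Ψ x) (MonoidAlgebra.of O G g), hz x⟩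
      map_add' := by
        intro x y
        apply Subtype.ext
        funext g
        ext s t
        change Ψ (x + y) _ = Ψ x _ + Ψ y _
        rw [map_add]
        rfl
      map_smul' := by
        intro r x
        apply Subtype.ext
        funext g
        ext s t
        change Ψ (r • x) _ = r • Ψ x _
        rw [map_smul]
        rfl }
  refine ⟨(Submodule.mkQ _).comp Φ0, ?_, ?_⟩
  · rw [← LinearMap.ker_eq_bot, LinearMap.ker_eq_bot']
    intro x hx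
    rw [LinearMap.comp_apply, Submodule.mkQ_apply, Submodule.Quotient.mk_eq_zero] at hx
    obtain ⟨X, hX⟩ : (Φ0 x).1 ∈ B1 ϖ m (τ i) (τ j) := hx
    have hcob := zf_cob τ hTa hent (Ψ x) X hX
    have hzero : Ψ x = 0 := by
      have s0 : Fin (n i) := ⟨0, hn i⟩
      have t0 : Fin (n j) := ⟨0, hn j⟩
      have hle : A i j ≤ (LinearMap.ker (Ψ x)).map (A i j).subtype := by
        refine (hspan s0 t0).trans (Submodule.span_le.2 ?_)
        rintro w ⟨y, hy, a, ha, rfl⟩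
        have hmem : y * Sg a ⟨i, s0⟩ ⟨j, t0⟩ ∈ A i j :=
          hmul i i j _ _ ((hdiag i y).2 hy) (hent a i s0 j t0)
        refine ⟨⟨_, hmem⟩, ?_, rfl⟩
        change Ψ x ⟨_, hmem⟩ = 0
        have h1 := smulT (Ψ x) (hkill x) ⟨y, hy⟩ ⟨Sg a ⟨i, s0⟩ ⟨j, t0⟩, hent a i s0 j t0⟩ hmem
        rw [h1]
        have h2 : Ψ x ⟨Sg a ⟨i, s0⟩ ⟨j, t0⟩, hent a i s0 j t0⟩ = zf hent (Ψ x) a s0 t0 := rfl
        rw [h2, hcob, ha]
        simp
      ext w
      obtain ⟨w', hw', hww⟩ := hle w.2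
      have h3 : w' = w := Subtype.ext hww
      rw [← h3]
      exact hw'
    exact hinj (by rw [hzero, map_zero])
  · intro x
    exact ⟨Φ0 x, rfl, fun g s t => rfl⟩

end Pool.Agent.RTL
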