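import Pool.Agent.RTL.Targets

/-!
T_DET: determinants in a generalized matrix algebra.
-/

set_option autoImplicit false

namespace Pool.Agent.RTL

open Matrix

universe u

namespace DET_

open Equiv.Perm Finset

/-- The product over the support of a cycle. -/
theorem prod_cycle {C : Type u} [CommMonoid C] {S : Type} [Fintype S] [DecidableEq S]
    (σ : Equiv.Perm S) (hσ : σ.IsCycle) (a : S) (ha : σ a ≠ a) (f : S → C) :
    ∏ b ∈ σ.support, f b = ∏ t ∈ range (orderOf σ), f ((σ ^ t) a) := by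
  symm
  refine Finset.prod_nbij (fun t => (σ ^ t) a) ?_ ?_ ?_ ?_
  · intro t _
    exact Equiv.Perm.pow_apply_mem_support.2 (Equiv.Perm.mem_support.2 ha)
  · intro t ht s hs hts
    have h1 : σ ^ t = σ ^ s := hσ.pow_eq_pow_iff.2 ⟨a, ha, hts⟩
    refine pow_injOn_Iio_orderOf ?_ ?_ h1
    · simpa using ht
    · simpa using hs
  · intro b hb
    have hb' : σ b ≠ b := Equiv.Perm.mem_support.1 (by simpa using hb)
    obtain ⟨i, hi⟩ := hσ.exists_pow_eq ha hb'
    refine ⟨i % orderOf σ, ?_, ?_⟩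
    · simpa using Nat.mod_lt _ (orderOf_pos σ)
    · simp only [pow_mod_orderOf]
      exact hi
  · intro t _
    rfl

section

variable {C : Type u} [CommRing C] {T : Subring C} {J : AddSubgroup C} {ι : Type}
  {A : ι → ι → AddSubgroup C} {S : Type} {β : S → ι} {N : Matrix S S C}

/-- The product along a path. -/
theorem path (hA : ∀ i j k x y, x ∈ A i j → y ∈ A j k → x * y ∈ A i k)
    (hN : ∀ b a, N b a ∈ A (β b) (β a)) (σ : Equiv.Perm S) (a : S) (K : ℕ) :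
    ∏ t ∈ range (K + 1), N ((σ ^ (t + 1)) a) ((σ ^ t) a) ∈ A (β ((σ ^ (K + 1)) a)) (β a) := by
  induction K with
  | zero =>
    rw [zero_add, prod_range_one]
    simpa using hN (σ a) a
  | succ K ih =>
    rw [prod_range_succ, mul_comm]
    exact hA _ _ _ _ _ (hN _ _) ih

variable [Fintype S] [DecidableEq S]

/-- The product belonging to a cycle. -/
theorem cyc (hTJ : ∀ t ∈ T, ∀ x ∈ J, t * x ∈ J)
    (hA : ∀ i j k x y, x ∈ A i j → y ∈ A j k → x * y ∈ A i k)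
    (hAT : ∀ i, ∀ x ∈ A i i, x ∈ T)
    (hAJ : ∀ i j, i ≠ j → ∀ x ∈ A i j, ∀ y ∈ A j i, x * y ∈ J)
    (hN : ∀ b a, N b a ∈ A (β b) (β a)) (hNJ : ∀ b a, b ≠ a → β b = β a → N b a ∈ J)
    (σ : Equiv.Perm S) (hσ : σ.IsCycle) : ∏ a ∈ σ.support, N (σ a) a ∈ J := by
  obtain ⟨a, ha, -⟩ := id hσ
  have h2 : 2 ≤ orderOf σ := by
    rw [hσ.orderOf]
    exact Equiv.Perm.two_le_card_support_of_ne_one hσ.ne_one
  obtain ⟨K, hK⟩ := Nat.exists_eq_add_of_le' h2
  rw [prod_cycle σ hσ a ha (fun b => N (σ b) b), hK, prod_range_succ']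
  have e1 : ∏ t ∈ range (K + 1), N (σ ((σ ^ (t + 1)) a)) ((σ ^ (t + 1)) a) =
      ∏ t ∈ range (K + 1), N ((σ ^ (t + 1)) (σ a)) ((σ ^ t) (σ a)) := by
    refine prod_congr rfl fun t _ => ?_
    have e2 : (σ ^ (t + 1)) a = (σ ^ t) (σ a) := by
      rw [pow_succ]
      rfl
    have e3 : σ ((σ ^ (t + 1)) a) = (σ ^ (t + 1)) (σ a) := by
      rw [e2, pow_succ' σ t]
      rfl
    rw [e3, e2]
  rw [e1]
  have h3 := path hA hN σ (σ a) K
  have h4 : (σ ^ (K + 1)) (σ a) = a := by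
    have e2 : (σ ^ (K + 1)) (σ a) = (σ ^ (K + 2)) a := by
      rw [pow_succ σ (K + 1)]
      rfl
    rw [e2, ← hK, pow_orderOf_eq_one]
    rfl
  rw [h4] at h3
  simp only [pow_zero, Equiv.Perm.one_apply]
  by_cases hβ : β (σ a) = β a
  · rw [hβ] at h3
    exact hTJ _ (hAT _ _ h3) _ (hNJ _ _ ha hβ)
  · exact hAJ _ _ (fun h => hβ h.symm) _ h3 _ (hN _ _)

/-- The product over the support. -/
theorem supp (hJT : ∀ x ∈ J, x ∈ T) (hTJ : ∀ t ∈ T, ∀ x ∈ J, t * x ∈ J)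
    (hcyc : ∀ σ : Equiv.Perm S, σ.IsCycle → ∏ a ∈ σ.support, N (σ a) a ∈ J)
    (σ : Equiv.Perm S) : ∏ a ∈ σ.support, N (σ a) a ∈ T ∧
      (σ ≠ 1 → ∏ a ∈ σ.support, N (σ a) a ∈ J) := by
  refine Equiv.Perm.cycle_induction_on (fun σ => ∏ a ∈ σ.support, N (σ a) a ∈ T ∧
      (σ ≠ 1 → ∏ a ∈ σ.support, N (σ a) a ∈ J)) σ ?_ ?_ ?_
  · refine ⟨?_, fun h => absurd rfl h⟩
    rw [Equiv.Perm.support_one, prod_empty]
    exact T.one_mem
  · intro τ hτ
    exact ⟨hJT _ (hcyc τ hτ), fun _ => hcyc τ hτ⟩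
  · intro τ ρ hd hτ _ h2
    have e1 : ∏ a ∈ (τ * ρ).support, N ((τ * ρ) a) a =
        (∏ a ∈ ρ.support, N (ρ a) a) * ∏ a ∈ τ.support, N (τ a) a := by
      rw [hd.support_mul, prod_union hd.disjoint_support, mul_comm]
      have hx : Disjoint τ.support ρ.support := hd.disjoint_support
      congr 1
      · refine prod_congr rfl fun a ha => ?_
        have h3 : ρ a ∈ ρ.support := Equiv.Perm.apply_mem_support.2 ha
        have h4 : ρ a ∉ τ.support := fun h => (Finset.disjoint_left.1 hx) h h3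
        rw [Equiv.Perm.mul_apply, Equiv.Perm.notMem_support.1 h4]
      · refine prod_congr rfl fun a ha => ?_
        have h4 : a ∉ ρ.support := (Finset.disjoint_left.1 hx) ha
        rw [Equiv.Perm.mul_apply, Equiv.Perm.notMem_support.1 h4]
    rw [e1]
    have h5 := hTJ _ h2.1 _ (hcyc τ hτ)
    exact ⟨hJT _ h5, fun _ => h5⟩

omit [Fintype S] in
/-- The diagonal product. -/
theorem diag (hTJ : ∀ t ∈ T, ∀ x ∈ J, t * x ∈ J) (c d : S → C)
    (hc : ∀ a, c a ∈ T) (hd : ∀ a, d a ∈ T) (h : ∀ a, d a - c a ∈ J) (s : Finset S) :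
    ∏ a ∈ s, d a - ∏ a ∈ s, c a ∈ J := by
  induction s using Finset.induction_on with
  | empty =>
    rw [prod_empty, prod_empty, sub_self]
    exact J.zero_mem
  | insert a s ha ih =>
    rw [prod_insert ha, prod_insert ha]
    have e : d a * ∏ x ∈ s, d x - c a * ∏ x ∈ s, c x =
        d a * (∏ x ∈ s, d x - ∏ x ∈ s, c x) + (∏ x ∈ s, c x) * (d a - c a) := by ring
    rw [e]
    exact J.add_mem (hTJ _ (hd a) _ ih) (hTJ _ (T.prod_mem fun x _ => hc x) _ (h a))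

end

end DET_

open DET_ in
theorem p_DET : T_DET.{u} := by
  intro C _ T J hJT hTJ ι A hA hAT hAJ S _ _ β N c hN hc hNc hNJ
  have hd : ∀ a, N a a ∈ T := fun a => hAT _ _ (hN a a)
  have hcyc := cyc hTJ hA hAT hAJ hN hNJ
  have hperm : ∀ σ : Equiv.Perm S, σ ≠ 1 → ∏ a, N (σ a) a ∈ J := by
    intro σ hσ
    have h1 := (supp hJT hTJ hcyc σ).2 hσ
    rw [← Finset.prod_mul_prod_compl σ.support, mul_comm]
    refine hTJ _ (T.prod_mem fun a ha => ?_) _ h1
    have h2 : σ a = a := Equiv.Perm.notMem_support.1 (Finset.mem_compl.1 ha)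
    rw [h2]
    exact hd a
  rw [Matrix.det_apply, ← Finset.add_sum_erase _ _ (Finset.mem_univ (1 : Equiv.Perm S))]
  have h1 : (Equiv.Perm.sign (1 : Equiv.Perm S)) • ∏ a, N ((1 : Equiv.Perm S) a) a =
      ∏ a, N a a := by
    rw [Equiv.Perm.sign_one, one_smul]
    rfl
  rw [h1, add_sub_right_comm]
  refine J.add_mem (diag hTJ c (fun a => N a a) hc hd hNc Finset.univ) ?_
  refine J.sum_mem fun σ hσ => ?_
  rw [Units.smul_def]
  exact J.zsmul_mem (hperm σ (Finset.ne_of_mem_erase hσ)) _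

end Pool.Agent.RTL
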