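import Pool.Agent.RTL.Targets

/-!
# DUAL: functionals on the quotient of two lattices
-/

set_option autoImplicit false

namespace Pool.Agent.RTL

universe u v

open Matrix

namespace DUAL_

section

variable {O : Type u} [CommRing O]

/-- The class of an element of `O` modulo `ϖ ^ m`, as a linear map. -/
def cls (ϖ : O) (m : ℕ) : O →ₗ[O] Quo ϖ m where
  toFun t := Ideal.Quotient.mk (Ideal.span ({ϖ ^ m} : Set O)) t
  map_add' := fun a b => map_add _ a b
  map_smul' := fun a b => by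
    rw [smul_eq_mul, map_mul, RingHom.id_apply, Algebra.smul_def]
    rfl

lemma cls_eq_zero (ϖ : O) (m : ℕ) (t : O) : cls ϖ m t = 0 ↔ ϖ ^ m ∣ t := by
  change Ideal.Quotient.mk (Ideal.span ({ϖ ^ m} : Set O)) t = 0 ↔ _
  rw [Ideal.Quotient.eq_zero_iff_mem, Ideal.mem_span_singleton]

lemma cls_mul (ϖ : O) (m : ℕ) (s t : O) : cls ϖ m (s * t) = cls ϖ m s * cls ϖ m t :=
  map_mul (Ideal.Quotient.mk (Ideal.span ({ϖ ^ m} : Set O))) s t

lemma cls_surj (ϖ : O) (m : ℕ) (y : Quo ϖ m) : ∃ t, cls ϖ m t = y :=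
  Ideal.Quotient.mk_surjective y

/-- Multiplication by `ϖ ^ (m - c)` from `O / ϖ ^ c` to `O / ϖ ^ m`. -/
lemma exists_mul (ϖ : O) (m c : ℕ) (hc : c ≤ m) :
    ∃ μ : Quo ϖ c →ₗ[O] Quo ϖ m, ∀ t, μ (cls ϖ c t) = cls ϖ m (ϖ ^ (m - c) * t) := by
  have hs := cls_surj ϖ c
  choose r hr using hs
  have key : ∀ t t' : O, cls ϖ c t = cls ϖ c t' →
      cls ϖ m (ϖ ^ (m - c) * t) = cls ϖ m (ϖ ^ (m - c) * t') := by
    intro t t' h
    have h1 : ϖ ^ c ∣ t - t' := by
      rw [← cls_eq_zero, map_sub, h, sub_self]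
    rw [← sub_eq_zero, ← map_sub, cls_eq_zero, ← mul_sub]
    have h2 : ϖ ^ m = ϖ ^ (m - c) * ϖ ^ c := by
      rw [← pow_add, Nat.sub_add_cancel hc]
    rw [h2]
    exact mul_dvd_mul_left _ h1
  refine ⟨{ toFun := fun y => cls ϖ m (ϖ ^ (m - c) * r y), map_add' := ?_, map_smul' := ?_ }, ?_⟩
  · intro y y'
    rw [← map_add, ← mul_add]
    refine key _ _ ?_
    rw [hr, map_add, hr, hr]
  · intro a y
    rw [RingHom.id_apply, ← map_smul, smul_eq_mul, mul_left_comm, ← smul_eq_mul (a := a) (b := r y)]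
    refine key _ _ ?_
    rw [hr, map_smul, hr]
  · intro t
    exact key _ _ (hr _)

end

end DUAL_

open DUAL_ in
theorem p_DUAL : T_DUAL.{u} := by
  classical
  intro O _ _ ϖ hϖ m L _ W W' x c hx hc hW hW'
  choose μ hμ using fun α => exists_mul ϖ m (c α) (hc α)
  choose a ha using fun w : W => hW w.1 w.2
  -- uniqueness of the coordinates modulo `ϖ ^ c`
  have uniq : ∀ (w : W) (b : L → O), (w : L → O) = ∑ α, b α • x α →
      ∀ α, cls ϖ (c α) (a w α) = cls ϖ (c α) (b α) := by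
    intro w b hb α
    rw [← sub_eq_zero, ← map_sub, cls_eq_zero]
    have h0 : ∑ α, (a w - b) α • x α ∈ W' := by
      have : ∑ α, (a w - b) α • x α = 0 := by
        simp only [Pi.sub_apply, sub_smul, Finset.sum_sub_distrib]
        rw [← ha w, ← hb, sub_self]
      rw [this]
      exact W'.zero_mem
    exact (hW' _).1 h0 α
  have hadd : ∀ (w w' : W) (α : L), cls ϖ (c α) (a (w + w') α) =
      cls ϖ (c α) (a w α) + cls ϖ (c α) (a w' α) := by
    intro w w' α
    rw [← map_add]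
    refine uniq (w + w') (a w + a w') ?_ α
    simp only [Pi.add_apply, add_smul, Finset.sum_add_distrib]
    rw [← ha w, ← ha w']
    rfl
  have hsmul : ∀ (t : O) (w : W) (α : L), cls ϖ (c α) (a (t • w) α) =
      t • cls ϖ (c α) (a w α) := by
    intro t w α
    rw [← map_smul]
    refine uniq (t • w) (t • a w) ?_ α
    simp only [Pi.smul_apply, smul_assoc, ← Finset.smul_sum]
    rw [← ha w]
    rfl
  refine ⟨LinearMap.mk₂ O (fun s w => ∑ α, μ α (cls ϖ (c α) (a w α) * s α)) ?_ ?_ ?_ ?_, ?_, ?_⟩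
  · intro s s' w
    simp only [Pi.add_apply, mul_add, map_add, Finset.sum_add_distrib]
  · intro t s w
    simp only [Pi.smul_apply, mul_smul_comm, map_smul, Finset.smul_sum]
  · intro s w w'
    simp only [hadd, add_mul, map_add, Finset.sum_add_distrib]
  · intro t s w
    simp only [hsmul, smul_mul_assoc, map_smul, Finset.smul_sum]
  · rw [injective_iff_map_eq_zero]
    intro s hs
    funext α
    have h1 : ∑ β, μ β (cls ϖ (c β) (a ⟨x α, hx α⟩ β) * s β) = 0 :=
      LinearMap.congr_fun hs ⟨x α, hx α⟩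
    have h2 : ∀ β, cls ϖ (c β) (a ⟨x α, hx α⟩ β) =
        cls ϖ (c β) ((Pi.single α 1 : L → O) β) := by
      refine uniq ⟨x α, hx α⟩ (Pi.single α 1) ?_
      rw [Finset.sum_eq_single α]
      · simp
      · intro β _ hβ
        simp [Pi.single_eq_of_ne hβ]
      · intro h
        exact absurd (Finset.mem_univ α) h
    rw [Finset.sum_eq_single α] at h1
    · obtain ⟨t, ht⟩ := cls_surj ϖ (c α) (s α)
      rw [h2, Pi.single_eq_same, ← ht, ← cls_mul, one_mul, hμ, cls_eq_zero] at h1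
      rw [← ht, Pi.zero_apply, cls_eq_zero]
      have h3 : ϖ ^ m = ϖ ^ (m - c α) * ϖ ^ c α := by
        rw [← pow_add, Nat.sub_add_cancel (hc α)]
      rw [h3] at h1
      exact (mul_dvd_mul_iff_left (pow_ne_zero _ hϖ)).1 h1
    · intro β _ hβ
      rw [h2, Pi.single_eq_of_ne hβ, map_zero, zero_mul, map_zero]
    · intro h
      exact absurd (Finset.mem_univ α) h
  · intro s w hw
    change ∑ α, μ α (cls ϖ (c α) (a w α) * s α) = 0
    refine Finset.sum_eq_zero fun α _ => ?_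
    have h1 : ∑ α, a w α • x α ∈ W' := by
      rw [← ha w]
      exact hw
    have h2 := (hW' _).1 h1 α
    rw [(cls_eq_zero ϖ (c α) _).2 h2, zero_mul, map_zero]

end Pool.Agent.RTL
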