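import Pool.Agent.RTL.Targets

set_option autoImplicit false

namespace Pool.Agent.RTL

universe u w

open Matrix

theorem p_FAC : T_FAC.{u, w} := by
  intro O _ ϖ m L ι _ _ n R _ _ Sg Ta T π hsurj hTr a ha
  funext i
  ext s t
  obtain ⟨a', ha'⟩ := hsurj (Pi.single i (Matrix.single t s 1))
  obtain ⟨h, h2⟩ := hTr (a * a')
  have h3 : Sg (a * a') = 0 := by rw [map_mul, ha, zero_mul]
  have h4 : (⟨(Sg (a * a')).trace, h⟩ : T) = 0 := by
    ext1
    simp [h3]
  rw [h4, map_zero, map_mul, ha', Finset.sum_eq_single i] at h2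
  · rw [Pi.mul_apply, Pi.single_eq_same] at h2
    have h5 : (Ta a i * Matrix.single t s 1).trace = Ta a i s t := by
      rw [Matrix.trace_mul_single]
      simp
    rw [h5] at h2
    simpa using h2.symm
  · intro j _ hj
    rw [Pi.mul_apply, Pi.single_eq_of_ne hj, mul_zero, Matrix.trace_zero]
  · intro hi
    exact absurd (Finset.mem_univ _) hi

end Pool.Agent.RTL
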