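import Pool.Agent.RTL.Targets

set_option autoImplicit false

namespace Pool.Agent.RTL

universe u w

open Matrix

namespace GMA_

variable {O : Type u} [CommRing O] {ϖ : O} {m : ℕ} {L ι : Type} [Fintype ι] [DecidableEq ι]
  {n : ι → ℕ} {R : Type w} [Ring R] [Algebra O R]

/-- the coefficients which occur in a block, up to multiplication by units -/
def rr (Sg : R →ₐ[O] Matrix (Idx n) (Idx n) (L → O)) (i j : ι) : Set (L → O) :=
  {c | ∀ s t, ∃ a, Sg a = Matrix.single ⟨i, s⟩ ⟨j, t⟩ c}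

/-- the submodules of the generalized matrix algebra -/
def AA (T : Subalgebra O (L → O)) (Sg : R →ₐ[O] Matrix (Idx n) (Idx n) (L → O)) (i j : ι) :
    Submodule O (L → O) :=
  Submodule.span O {w | ∃ x ∈ T, ∃ c ∈ rr Sg i j, w = x * c}

/-- the kernel of `π` as a submodule of the product ring -/
def KK (T : Subalgebra O (L → O)) (π : T →ₐ[O] Quo ϖ m) : Submodule O (L → O) where
  carrier := {w | ∃ h : w ∈ T, π ⟨w, h⟩ = 0}
  add_mem' := by
    rintro x y ⟨hx, ex⟩ ⟨hy, ey⟩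
    refine ⟨T.add_mem hx hy, ?_⟩
    have : (⟨x + y, T.add_mem hx hy⟩ : T) = ⟨x, hx⟩ + ⟨y, hy⟩ := rfl
    rw [this, map_add, ex, ey, add_zero]
  zero_mem' := ⟨T.zero_mem, by
    have : (⟨0, T.zero_mem⟩ : T) = 0 := rfl
    rw [this, map_zero]⟩
  smul_mem' := by
    rintro c x ⟨hx, ex⟩
    refine ⟨T.smul_mem hx c, ?_⟩
    have : (⟨c • x, T.smul_mem hx c⟩ : T) = c • ⟨x, hx⟩ := rfl
    rw [this, map_smul, ex, smul_zero]

omit [Fintype ι] in
lemma pisingle_mul {i j : ι} (hij : i ≠ j)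
    (x : Matrix (Fin (n i)) (Fin (n i)) (Quo ϖ m)) (y : Matrix (Fin (n j)) (Fin (n j)) (Quo ϖ m))
    (z : (i : ι) → Matrix (Fin (n i)) (Fin (n i)) (Quo ϖ m)) :
    Pi.single (M := fun i => Matrix (Fin (n i)) (Fin (n i)) (Quo ϖ m)) i x * z *
      Pi.single j y = 0 := by
  funext k
  simp only [Pi.mul_apply, Pi.zero_apply]
  by_cases hk : k = i
  · subst hk
    rw [Pi.single_eq_of_ne hij, mul_zero]
  · rw [Pi.single_eq_of_ne hk, zero_mul, zero_mul]

end GMA_

open GMA_ in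
theorem p_GMA : T_GMA.{u, w} := by
  intro O _ ϖ m L ι _ _ n hn R _ _ Sg Ta T π hker htr hunit
  choose e heS heT using hunit
  -- sandwich
  have hsand : ∀ (a : R) (i j : ι) (s s' : Fin (n i)) (t t' : Fin (n j)),
      Sg (e i s' s * a * e j t t') = Matrix.single ⟨i, s'⟩ ⟨j, t'⟩ (Sg a ⟨i, s⟩ ⟨j, t⟩) := by
    intro a i j s s' t t'
    rw [map_mul, map_mul, heS, heS, Matrix.single_mul_mul_single]
    simp
  have hTsand : ∀ (a : R) (i j : ι) (s s' : Fin (n i)) (t t' : Fin (n j)), i ≠ j →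
      Ta (e i s' s * a * e j t t') = 0 := by
    intro a i j s s' t t' hij
    rw [map_mul, map_mul, heT, heT]
    exact pisingle_mul hij _ _ _
  -- (5)
  have h5 : ∀ a i s t, ∃ h : Sg a ⟨i, s⟩ ⟨i, t⟩ ∈ T, π ⟨_, h⟩ = Ta a i s t := by
    intro a i s t
    obtain ⟨h, hh⟩ := htr (e i s s * a * e i t s)
    have e1 : (Sg (e i s s * a * e i t s)).trace = Sg a ⟨i, s⟩ ⟨i, t⟩ := by
      rw [hsand, Matrix.trace_single_eq_same]
    have e2 : Ta (e i s s * a * e i t s) = Pi.single i (Matrix.single s s (Ta a i s t)) := by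
      rw [map_mul, map_mul, heT, heT]
      funext k
      simp only [Pi.mul_apply]
      by_cases hk : k = i
      · subst hk
        rw [Pi.single_eq_same, Pi.single_eq_same, Pi.single_eq_same,
          Matrix.single_mul_mul_single]
        simp
      · rw [Pi.single_eq_of_ne hk, Pi.single_eq_of_ne hk, zero_mul, zero_mul,
          Pi.single_eq_of_ne hk]
    have e3 : ∑ k, (Ta (e i s s * a * e i t s) k).trace = Ta a i s t := by
      rw [e2, Finset.sum_eq_single i]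
      · rw [Pi.single_eq_same, Matrix.trace_single_eq_same]
      · intro k _ hk
        rw [Pi.single_eq_of_ne hk, Matrix.trace_zero]
      · intro h; exact absurd (Finset.mem_univ i) h
    rw [e3] at hh
    refine ⟨e1 ▸ h, ?_⟩
    rw [← hh]
    congr 1
    exact Subtype.ext e1.symm
  -- (R1)
  have hr1 : ∀ a i s j t, Sg a ⟨i, s⟩ ⟨j, t⟩ ∈ rr Sg i j := by
    intro a i s j t s' t'
    exact ⟨e i s' s * a * e j t t', hsand a i j s s' t t'⟩
  have hr2 : ∀ i, (1 : L → O) ∈ rr Sg i i := by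
    intro i s t
    exact ⟨e i s t, heS i s t⟩
  have hr2' : ∀ i j k c d, c ∈ rr Sg i j → d ∈ rr Sg j k → c * d ∈ rr Sg i k := by
    intro i j k c d hc hd s t
    obtain ⟨a, ha⟩ := hc s ⟨0, hn j⟩
    obtain ⟨b, hb⟩ := hd ⟨0, hn j⟩ t
    exact ⟨a * b, by rw [map_mul, ha, hb, Matrix.single_mul_single_same]⟩
  -- (R3)
  have hr3 : ∀ i c, c ∈ rr Sg i i → c ∈ T := by
    intro i c hc
    obtain ⟨a, ha⟩ := hc ⟨0, hn i⟩ ⟨0, hn i⟩
    obtain ⟨h, -⟩ := htr a
    rwa [ha, Matrix.trace_single_eq_same] at h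
  have hr3' : ∀ i j, i ≠ j → ∀ s t c a, Sg a = Matrix.single ⟨i, s⟩ ⟨j, t⟩ c → Ta a = 0 := by
    intro i j hij s t c a ha
    have e1 : Sg (a - e i s s * a * e j t t) = 0 := by
      rw [map_sub, hsand, ha, Matrix.single_apply_same, sub_self]
    have e2 := hker _ e1
    rw [map_sub, hTsand a i j s s t t hij, sub_zero] at e2
    exact e2
  -- (R4)
  have hr4 : ∀ i j, i ≠ j → ∀ c ∈ rr Sg i j, ∀ d ∈ rr Sg j i, c * d ∈ KK T π := by
    intro i j hij c hc d hd
    obtain ⟨a, ha⟩ := hc ⟨0, hn i⟩ ⟨0, hn j⟩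
    obtain ⟨b, hb⟩ := hd ⟨0, hn j⟩ ⟨0, hn i⟩
    have e1 : Ta (a * b) = 0 := by
      rw [map_mul, hr3' i j hij _ _ _ _ ha, zero_mul]
    obtain ⟨h, hh⟩ := htr (a * b)
    have e2 : (Sg (a * b)).trace = c * d := by
      rw [map_mul, ha, hb, Matrix.single_mul_single_same, Matrix.trace_single_eq_same]
    have e3 : ∑ k, (Ta (a * b) k).trace = 0 := by
      rw [e1]
      exact Finset.sum_eq_zero fun k _ => by rw [Pi.zero_apply, Matrix.trace_zero]
    rw [e3] at hh
    refine ⟨e2 ▸ h, ?_⟩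
    rw [← hh]
    congr 1
    exact Subtype.ext e2.symm
  refine ⟨AA T Sg, ?_, ?_, ?_, ?_, h5, ?_⟩
  · intro i j k x y hx hy
    have h1 : AA T Sg i j * AA T Sg j k ≤ AA T Sg i k := by
      unfold AA
      rw [Submodule.span_mul_span, Submodule.span_le]
      rintro w ⟨x, ⟨x1, hx1, c, hc, rfl⟩, y, ⟨x2, hx2, d, hd, rfl⟩, rfl⟩
      exact Submodule.subset_span ⟨x1 * x2, T.mul_mem hx1 hx2, c * d, hr2' i j k c d hc hd, by
        ring⟩
    exact h1 (Submodule.mul_mem_mul hx hy)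
  · intro i x
    constructor
    · intro hx
      have h1 : AA T Sg i i ≤ Subalgebra.toSubmodule T := by
        unfold AA
        rw [Submodule.span_le]
        rintro w ⟨x1, hx1, c, hc, rfl⟩
        exact T.mul_mem hx1 (hr3 i c hc)
      exact h1 hx
    · intro hx
      exact Submodule.subset_span ⟨x, hx, 1, hr2 i, by rw [mul_one]⟩
  · intro i j hij x hx y hy
    have h1 : AA T Sg i j * AA T Sg j i ≤ KK T π := by
      unfold AA
      rw [Submodule.span_mul_span, Submodule.span_le]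
      rintro w ⟨x, ⟨x1, hx1, c, hc, rfl⟩, y, ⟨x2, hx2, d, hd, rfl⟩, rfl⟩
      obtain ⟨h, hh⟩ := hr4 i j hij c hc d hd
      have e1 : x1 * c * (x2 * d) = x1 * x2 * (c * d) := by ring
      have hmem : x1 * x2 * (c * d) ∈ T := T.mul_mem (T.mul_mem hx1 hx2) h
      refine ⟨?_, ?_⟩
      · show x1 * c * (x2 * d) ∈ T
        rw [e1]; exact hmem
      · have e2 : (⟨x1 * c * (x2 * d), by rw [e1]; exact hmem⟩ : T)
            = ⟨x1 * x2, T.mul_mem hx1 hx2⟩ * ⟨c * d, h⟩ := Subtype.ext e1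
        exact (congrArg π e2).trans (by rw [map_mul, hh, mul_zero])
    exact h1 (Submodule.mul_mem_mul hx hy)
  · intro a i s j t
    exact Submodule.subset_span ⟨1, T.one_mem, _, hr1 a i s j t, by rw [one_mul]⟩
  · intro i j hij s t
    unfold AA
    rw [Submodule.span_le]
    rintro w ⟨x1, hx1, c, hc, rfl⟩
    obtain ⟨a, ha⟩ := hc s t
    refine Submodule.subset_span ⟨x1, hx1, a, hr3' i j hij s t c a ha, ?_⟩
    rw [ha, Matrix.single_apply_same]

end Pool.Agent.RTL
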