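import Pool.Agent.RTL.Targets

/-!
# T_IDC: lifting one idempotent, commutative case
-/

set_option autoImplicit false

namespace Pool.Agent.RTL

universe u

open Matrix

namespace IDC_

/-- Stabilization of the powers of an element in the quotient by `p`. -/
theorem stab {O : Type u} [CommRing O] (I : Ideal O) [I.IsMaximal] {Q : Type u} [CommRing Q]
    [Algebra O Q] [Module.Finite O Q] (x : Q) :
    ∃ (n : ℕ) (y : Q), x ^ n - x ^ (n + 1) * y ∈ I.map (algebraMap O Q) := by
  let _ : Field (O ⧸ I) := Ideal.Quotient.field I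
  let A := Q ⧸ I.map (algebraMap O Q)
  let _ : Algebra (O ⧸ I) A := Ideal.Quotient.algebraQuotientOfLEComap Ideal.le_comap_map
  have : IsScalarTower O (O ⧸ I) A := by
    refine IsScalarTower.of_algebraMap_eq' ?_
    ext a
    rfl
  have : Module.Finite O A := Module.Finite.of_surjective
    (Submodule.mkQ ((I.map (algebraMap O Q)).restrictScalars O)) (Submodule.mkQ_surjective _)
  have : Module.Finite (O ⧸ I) A := Module.Finite.of_restrictScalars_finite O _ _
  have : IsArtinianRing A := IsArtinianRing.of_finite (O ⧸ I) A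
  obtain ⟨n, y, hy⟩ := IsArtinian.exists_pow_succ_smul_dvd
    (Ideal.Quotient.mk (I.map (algebraMap O Q)) x) (1 : A)
  obtain ⟨y, rfl⟩ := Ideal.Quotient.mk_surjective y
  refine ⟨n, y, ?_⟩
  rw [← Ideal.Quotient.mk_eq_mk_iff_sub_mem, map_mul, map_pow, map_pow]
  rw [smul_eq_mul, smul_eq_mul, mul_one] at hy
  exact hy.symm

/-- From the stabilization to the double exponent. -/
theorem dbl {A : Type u} [CommRing A] (x y : A) (n : ℕ) (h : x ^ n = x ^ (n + 1) * y) :
    x ^ (n + 1) = x ^ (2 * (n + 1)) * y ^ (n + 1) := by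
  have h1 : ∀ k : ℕ, x ^ (n + 1) = x ^ (n + 1 + k) * y ^ k := by
    intro k
    induction k with
    | zero => simp
    | succ k ih =>
      calc x ^ (n + 1) = x ^ (n + 1 + k) * y ^ k := ih
        _ = x ^ n * (x ^ (k + 1) * y ^ k) := by ring
        _ = x ^ (n + 1) * y * (x ^ (k + 1) * y ^ k) := by rw [← h]
        _ = x ^ (n + 1 + (k + 1)) * y ^ (k + 1) := by ring
  have h2 := h1 (n + 1)
  rw [← two_mul] at h2
  exact h2

/-- An idempotent which is a multiple of a nilpotent element is zero. -/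
theorem zero_of {C : Type u} [CommRing C] (P y u : C) (m : ℕ) (hP : P ^ m = 0) (hy : y * y = y)
    (hu : y = P * u) : y = 0 := by
  have h1 : y ^ (m + 1) = y := (show IsIdempotentElem y from hy).pow_succ_eq m
  rw [← h1, hu, mul_pow, pow_succ, hP]
  ring

/-- Lifting an idempotent in a complete ring. -/
theorem lift {Q : Type u} [CommRing Q] (I : Ideal Q) [IsAdicComplete I Q] (e0 : Q)
    (h : e0 * e0 - e0 ∈ I) : ∃ e : Q, e * e = e ∧ e - e0 ∈ I := by
  by_cases hQ : Nontrivial Q
  · obtain ⟨e, he, he'⟩ := HenselianRing.is_henselian (R := Q) (I := I)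
      (Polynomial.X ^ 2 - Polynomial.X) (by monicity!) e0
      (by
        simp only [Polynomial.eval_sub, Polynomial.eval_pow, Polynomial.eval_X]
        rw [pow_two]
        exact h)
      (by
        have h1 : (Polynomial.eval e0 (Polynomial.derivative
            (Polynomial.X ^ 2 - Polynomial.X : Polynomial Q))) = 2 * e0 - 1 := by
          simp
          ring
        rw [h1]
        refine IsUnit.of_mul_eq_one (Ideal.Quotient.mk I (2 * e0 - 1)) ?_
        rw [← map_mul, ← map_one (Ideal.Quotient.mk I), Ideal.Quotient.mk_eq_mk_iff_sub_mem]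
        have h2 : (2 * e0 - 1) * (2 * e0 - 1) - 1 = 4 * (e0 * e0 - e0) := by ring
        rw [h2]
        exact I.mul_mem_left _ h)
    refine ⟨e, ?_, he'⟩
    rw [Polynomial.IsRoot.def] at he
    simp only [Polynomial.eval_sub, Polynomial.eval_pow, Polynomial.eval_X] at he
    linear_combination he
  · have : Subsingleton Q := not_nontrivial_iff_subsingleton.1 hQ
    exact ⟨0, by simp, by rw [Subsingleton.elim (0 - e0) 0]; exact I.zero_mem⟩

end IDC_

open IDC_ in
theorem p_IDC : T_IDC.{u} := by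
  intro O _ _ _ ϖ hϖ Q _ _ _ hQ B _ φ m hm x hx
  have hmax : (Ideal.span ({ϖ} : Set O)).IsMaximal :=
    PrincipalIdealRing.isMaximal_of_irreducible hϖ
  obtain ⟨p, hp⟩ : ∃ p, p = algebraMap O Q ϖ := ⟨_, rfl⟩
  have hI : (Ideal.span ({ϖ} : Set O)).map (algebraMap O Q) = Ideal.span {p} := by
    rw [Ideal.map_span, Set.image_singleton, hp]
  have hcomp : IsAdicComplete (Ideal.span ({p} : Set Q)) Q := by
    rw [← hI]
    exact (IsAdicComplete.map_algebraMap_iff _ _).mpr hQ
  -- the idempotent modulo `p`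
  obtain ⟨n, y, hy⟩ := stab (Ideal.span ({ϖ} : Set O)) x
  rw [hI] at hy
  have h1 := dbl (Ideal.Quotient.mk (Ideal.span ({p} : Set Q)) x)
    (Ideal.Quotient.mk (Ideal.span ({p} : Set Q)) y) n (by
      rw [← map_pow, ← map_pow, ← map_mul, Ideal.Quotient.mk_eq_mk_iff_sub_mem]
      exact hy)
  rw [← map_pow, ← map_pow, ← map_pow, ← map_mul, Ideal.Quotient.mk_eq_mk_iff_sub_mem] at h1
  obtain ⟨r, hr⟩ : ∃ r, r = y ^ (n + 1) := ⟨_, rfl⟩
  rw [← hr] at h1
  rw [Ideal.mem_span_singleton] at h1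
  obtain ⟨t, ht⟩ := h1
  -- `x ^ (n+1) - x ^ (2 (n+1)) r = p t`
  obtain ⟨e, he, he'⟩ := lift (Ideal.span ({p} : Set Q)) (x ^ (n + 1) * r) (by
    rw [Ideal.mem_span_singleton]
    refine ⟨- (t * r), ?_⟩
    have : x ^ (n + 1) * r * (x ^ (n + 1) * r) - x ^ (n + 1) * r =
        - ((x ^ (n + 1) - x ^ (2 * (n + 1)) * r) * r) := by ring
    rw [this, ht]
    ring)
  rw [Ideal.mem_span_singleton] at he'
  obtain ⟨s, hs⟩ := he'
  refine ⟨e, he, ?_⟩
  -- work in the quotient by the kernel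
  obtain ⟨K, hK⟩ : ∃ K, K = RingHom.ker φ := ⟨_, rfl⟩
  obtain ⟨ψ, hψ⟩ : ∃ ψ, ψ = Ideal.Quotient.mk K := ⟨_, rfl⟩
  have hmem : ∀ a b : Q, ψ a = ψ b ↔ φ a = φ b := by
    intro a b
    rw [hψ, Ideal.Quotient.mk_eq_mk_iff_sub_mem, hK, RingHom.mem_ker, map_sub, sub_eq_zero]
  rw [← hmem]
  have hP : ψ p ^ m = 0 := by
    rw [← map_pow, ← map_zero ψ, hmem, hp, ← map_pow, hm, map_zero]
  have hF : ψ x * ψ x = ψ x := by
    rw [← map_mul, hmem, map_mul, hx]
  have hE : ψ e * ψ e = ψ e := by rw [← map_mul, he]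
  have hFN : ψ x ^ (n + 1) = ψ x := (show IsIdempotentElem (ψ x) from hF).pow_succ_eq n
  have hs' : ψ e = ψ x * ψ r + ψ p * ψ s := by
    have : e = x ^ (n + 1) * r + p * s := by linear_combination hs
    rw [this, map_add, map_mul, map_mul, map_pow, hFN]
  have ht' : ψ x - ψ x * ψ x * ψ r = ψ p * ψ t := by
    have := congrArg ψ ht
    have h2 : ψ x ^ (2 * (n + 1)) = ψ x * ψ x := by
      rw [two_mul, pow_add, hFN]
    rw [map_sub, map_mul, map_mul, map_pow, map_pow, h2, hFN] at this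
    exact this
  have hz1 : ψ e * (1 - ψ x) = 0 := by
    refine zero_of (ψ p) _ (ψ s * (1 - ψ x)) m hP ?_ ?_
    · linear_combination (1 - ψ x) * (1 - ψ x) * hE + ψ e * hF
    · linear_combination (1 - ψ x) * hs' - ψ r * hF
  have hz2 : ψ x * (1 - ψ e) = 0 := by
    refine zero_of (ψ p) _ (ψ t - ψ x * ψ s) m hP ?_ ?_
    · linear_combination (1 - ψ e) * (1 - ψ e) * hF + ψ x * hE
    · linear_combination ht' - ψ x * hs'
  linear_combination hz1 - hz2

end Pool.Agent.RTL
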