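import Pool.Agent.RTL.Targets

set_option autoImplicit false

/-!
Project RTL, target IDEM: lifting one idempotent, general case.
-/

namespace Pool.Agent.RTL

universe u

open Matrix

theorem p_IDEM (h_ADIC : T_ADIC.{u}) (h_IDC : T_IDC.{u}) : T_IDEM.{u} := by
  intro O _ _ _ ϖ hϖ hc R _ _ _ B _ φ m hm x hx
  have := hc
  have hN : IsNoetherian O R := inferInstance
  let A : Polynomial O →ₐ[O] R := Polynomial.aeval x
  let I : Ideal (Polynomial O) := RingHom.ker A
  let F : (Polynomial O ⧸ I) →ₐ[O] R := Ideal.Quotient.liftₐ I A (fun a ha => ha)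
  have hFmk : ∀ p : Polynomial O, F (Ideal.Quotient.mk I p) = A p := fun p => rfl
  have hFinj : Function.Injective F := by
    rw [injective_iff_map_eq_zero]
    intro q hq
    obtain ⟨p, rfl⟩ := Ideal.Quotient.mk_surjective q
    rw [hFmk] at hq
    exact Ideal.Quotient.eq_zero_iff_mem.mpr hq
  have hfin : Module.Finite O (Polynomial O ⧸ I) :=
    Module.Finite.of_injective F.toLinearMap hFinj
  have hQ : IsAdicComplete (Ideal.span ({ϖ} : Set O)) (Polynomial O ⧸ I) :=
    h_ADIC O (Ideal.span ({ϖ} : Set O)) (Polynomial O ⧸ I)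
  have h0 : (φ.comp F.toRingHom) (algebraMap O (Polynomial O ⧸ I) (ϖ ^ m)) = 0 := by
    have h1 : F.toRingHom (algebraMap O (Polynomial O ⧸ I) (ϖ ^ m)) = algebraMap O R (ϖ ^ m) :=
      F.commutes (ϖ ^ m)
    rw [RingHom.comp_apply, h1, hm]
  have hFx : F.toRingHom (Ideal.Quotient.mk I Polynomial.X) = x := by
    have h1 : F (Ideal.Quotient.mk I Polynomial.X) = x := by
      rw [hFmk]
      exact Polynomial.aeval_X x
    exact h1
  obtain ⟨e, he, heφ⟩ := h_IDC O ϖ hϖ (Polynomial O ⧸ I) hQ B (φ.comp F.toRingHom) m h0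
    (Ideal.Quotient.mk I Polynomial.X) (by rw [RingHom.comp_apply, hFx]; exact hx)
  refine ⟨F e, ?_, ?_, ?_⟩
  · obtain ⟨p, rfl⟩ := Ideal.Quotient.mk_surjective e
    rw [hFmk]
    exact Polynomial.aeval_mem_adjoin_singleton O x
  · rw [← map_mul, he]
  · rw [RingHom.comp_apply, RingHom.comp_apply, hFx] at heφ
    exact heφ

end Pool.Agent.RTL
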