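import Pool.Agent.RTL.Targets

set_option autoImplicit false

/-! # RTL, target INV: a polynomial which inverts finitely many units -/

namespace Pool.Agent.RTL

universe u

open Matrix

theorem p_INV : T_INV.{u} := by
  intro O _ L _ γ hγ
  let P : Polynomial O := ∏ l, (Polynomial.X - Polynomial.C (γ l))
  have hy : IsUnit (P.coeff 0) := by
    have h1 : P.coeff 0 = ∏ l, (-γ l) := by
      rw [Polynomial.coeff_zero_eq_eval_zero, Polynomial.eval_prod]
      refine Finset.prod_congr rfl fun l _ => ?_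
      simp
    rw [h1]
    exact IsUnit.prod_univ_iff.2 fun l => (hγ l).neg
  obtain ⟨y, hy⟩ := hy
  refine ⟨Polynomial.C (-((y⁻¹ : Oˣ) : O)) * P.divX, fun l => ?_⟩
  have h2 : P.eval (γ l) = 0 := by
    rw [Polynomial.eval_prod]
    exact Finset.prod_eq_zero (Finset.mem_univ l) (by simp)
  have h3 := congrArg (Polynomial.eval (γ l)) P.divX_mul_X_add
  rw [h2, Polynomial.eval_add, Polynomial.eval_mul, Polynomial.eval_X, Polynomial.eval_C,
    ← hy] at h3
  rw [Polynomial.eval_mul, Polynomial.eval_C]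
  have h4 : P.divX.eval (γ l) * γ l = -(y : O) := eq_neg_of_add_eq_zero_left h3
  calc -((y⁻¹ : Oˣ) : O) * P.divX.eval (γ l) * γ l
      = -((y⁻¹ : Oˣ) : O) * (P.divX.eval (γ l) * γ l) := by ring
    _ = 1 := by
      rw [h4, neg_mul_neg, Units.inv_mul]

end Pool.Agent.RTL
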