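import Pool.Agent.RTL.Targets

/-!
# RTL: the target T_LAT (MP_78858f_nt)
-/

set_option autoImplicit false

namespace Pool.Agent.RTL

universe u v

open Matrix

namespace LAT_

variable {O : Type u} [CommRing O] {G : Type v} [Group G]

/-- The product of the representations `latRep ϖ r (σ (h i))`. -/
def prodRep (ϖ : O) (r : ℕ) {L : Type} {N : ℕ} (σ : L → G →* Matrix (Fin N) (Fin N) O)
    {k : ℕ} (h : Fin k → L) : Representation O G (Fin k → Fin N → Quo ϖ r) where
  toFun g := LinearMap.pi fun i => (latRep ϖ r (σ (h i)) g) ∘ₗ LinearMap.proj i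
  map_one' := by
    refine LinearMap.ext fun p => ?_
    funext i
    simp
  map_mul' := by
    intro g g'
    refine LinearMap.ext fun p => ?_
    funext i
    simp

lemma prodRep_apply (ϖ : O) (r : ℕ) {L : Type} {N : ℕ}
    (σ : L → G →* Matrix (Fin N) (Fin N) O) {k : ℕ} (h : Fin k → L) (g : G)
    (p : Fin k → Fin N → Quo ϖ r) (i : Fin k) :
    prodRep ϖ r σ h g p i = red ϖ r (σ (h i) g) *ᵥ p i := rfl

lemma prod_mem (ϖ : O) (r : ℕ) (C : RepClass O G) (hC : C.Closed) {L : Type} [Nonempty L]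
    {N : ℕ} (σ : L → G →* Matrix (Fin N) (Fin N) O) (hσ : ∀ l, C _ (latRep ϖ r (σ l))) :
    ∀ (k : ℕ) (h : Fin k → L), C _ (prodRep ϖ r σ h) := by
  intro k
  induction k with
  | zero =>
    intro h
    obtain ⟨l⟩ := (inferInstance : Nonempty L)
    refine hC.sub _ _ _ (latRep ϖ r (σ l)) 0 ?_ ?_ (hσ l)
    · intro x y _
      exact Subsingleton.elim x y
    · intro g x
      simp
  | succ k ih =>
    intro h
    let f : (Fin (k + 1) → Fin N → Quo ϖ r) →ₗ[O]
        ((Fin N → Quo ϖ r) × (Fin k → Fin N → Quo ϖ r)) :=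
      LinearMap.prod (LinearMap.proj 0) (LinearMap.pi fun i => LinearMap.proj i.succ)
    refine hC.sub _ _ _ ((latRep ϖ r (σ (h 0))).prod (prodRep ϖ r σ fun i => h i.succ)) f ?_ ?_
      (hC.prod _ _ _ _ (hσ (h 0)) (ih fun i => h i.succ))
    · intro x y hxy
      have h1 : x 0 = y 0 := congrArg Prod.fst hxy
      have h2 : (fun i : Fin k => x i.succ) = fun i : Fin k => y i.succ :=
        congrArg Prod.snd hxy
      funext i
      refine Fin.cases h1 (fun j => congrFun h2 j) i
    · intro g x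
      rfl

end LAT_

open LAT_ in
theorem p_LAT : T_LAT.{u, v} := by
  intro O _ ϖ r G _ C hC L S _ _ _ _ N σ hσ θ U V hUV hVU hθ
  let e := Fintype.equivFin L
  let h : Fin (Fintype.card L) → L := e.symm
  let f : (S → L → Quo ϖ r) →ₗ[O] (Fin (Fintype.card L) → Fin N → Quo ϖ r) :=
    { toFun := fun p i => red ϖ r (U (h i)) *ᵥ fun q => p q (h i)
      map_add' := by
        intro p p'
        funext i
        exact Matrix.mulVec_add _ _ _
      map_smul' := by
        intro c p
        funext i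
        exact Matrix.mulVec_smul _ c _ }
  have hf : ∀ p i, f p i = red ϖ r (U (h i)) *ᵥ fun q => p q (h i) := fun _ _ => rfl
  refine hC.sub _ _ _ (prodRep ϖ r σ h) f ?_ ?_ (prod_mem ϖ r C hC σ hσ _ h)
  · intro p p' hpp
    funext q l
    have h1 := congrFun hpp (e l)
    rw [hf, hf] at h1
    have h2 : h (e l) = l := e.symm_apply_apply l
    rw [h2] at h1
    have h3 := congrArg (fun w => red ϖ r (V l) *ᵥ w) h1
    simp only [Matrix.mulVec_mulVec, ← red_mul, hVU, red_one, Matrix.one_mulVec] at h3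
    exact congrFun h3 q
  · intro g p
    funext i
    rw [prodRep_apply, hf, hf]
    have h1 : (fun q => bigRep ϖ r θ g p q (h i)) =
        red ϖ r ((θ g).map (fun c => c (h i))) *ᵥ fun q => p q (h i) := rfl
    rw [h1, Matrix.mulVec_mulVec, Matrix.mulVec_mulVec, ← red_mul, ← red_mul, hθ]
    have h2 : U (h i) * (V (h i) * σ (h i) g * U (h i)) = σ (h i) g * U (h i) := by
      rw [← Matrix.mul_assoc, ← Matrix.mul_assoc, hUV, Matrix.one_mul]
    rw [h2]

end Pool.Agent.RTL
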