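import Pool.Agent.RTL.Targets

set_option autoImplicit false

/-! # RTL, target ORTH: lifting orthogonal idempotents -/

namespace Pool.Agent.RTL

universe u

open Matrix

namespace ORTH_

theorem step {O : Type u} [CommRing O] {R : Type u} [Ring R] [Algebra O R]
    {B : Type u} [Ring B] (φ : R →+* B)
    (h : ∀ x : R, φ x * φ x = φ x →
      ∃ e ∈ Algebra.adjoin O ({x} : Set R), e * e = e ∧ φ e = φ x)
    {P : Type} [DecidableEq P] (E : P → B)
    (hE : ∀ p q, E p * E q = if p = q then E p else 0) (hx : ∀ p, ∃ x, φ x = E p)
    (F : Finset P) : ∃ ε : P → R, (∀ p ∈ F, φ (ε p) = E p) ∧ (∀ p ∈ F, ε p * ε p = ε p) ∧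
      ∀ p ∈ F, ∀ q ∈ F, p ≠ q → ε p * ε q = 0 := by
  induction F using Finset.induction_on with
  | empty => exact ⟨fun _ => 0, by simp, by simp, by simp⟩
  | @insert p F hp ih =>
    obtain ⟨ε, h1, h2, h3⟩ := ih
    set S : R := ∑ q ∈ F, ε q with hS
    have sl : ∀ q ∈ F, S * ε q = ε q := by
      intro q hq
      rw [hS, Finset.sum_mul, Finset.sum_eq_single q]
      · exact h2 q hq
      · intro b hb hne
        exact h3 b hb q hq hne
      · intro hn
        exact absurd hq hn
    have sr : ∀ q ∈ F, ε q * S = ε q := by
      intro q hq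
      rw [hS, Finset.mul_sum, Finset.sum_eq_single q]
      · exact h2 q hq
      · intro b hb hne
        exact h3 q hq b hb hne.symm
      · intro hn
        exact absurd hq hn
    have ss : S * S = S := by
      have e1 : S * S = ∑ q ∈ F, S * ε q := Finset.mul_sum _ _ _
      rw [e1, Finset.sum_congr rfl sl]
    set f : R := 1 - S with hf
    have ff : f * f = f := by
      rw [hf, sub_mul, one_mul, mul_sub, mul_one, ss, sub_self, sub_zero]
    have fl : ∀ q ∈ F, f * ε q = 0 := by
      intro q hq
      rw [hf, sub_mul, one_mul, sl q hq, sub_self]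
    have fr : ∀ q ∈ F, ε q * f = 0 := by
      intro q hq
      rw [hf, mul_sub, mul_one, sr q hq, sub_self]
    have φS : φ S = ∑ q ∈ F, E q := by
      rw [hS, map_sum]
      exact Finset.sum_congr rfl h1
    have el : φ f * E p = E p := by
      rw [hf, map_sub, map_one, φS, sub_mul, one_mul, Finset.sum_mul,
        Finset.sum_eq_zero, sub_zero]
      intro q hq
      rw [hE, if_neg]
      rintro rfl
      exact hp hq
    have er : E p * φ f = E p := by
      rw [hf, map_sub, map_one, φS, mul_sub, mul_one, Finset.mul_sum,
        Finset.sum_eq_zero, sub_zero]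
      intro q hq
      rw [hE, if_neg]
      rintro rfl
      exact hp hq
    obtain ⟨x, hxp⟩ := hx p
    set x' : R := f * x * f with hx'
    have φx' : φ x' = E p := by
      rw [hx', map_mul, map_mul, hxp, el, er]
    have fx' : f * x' = x' := by
      rw [hx', ← mul_assoc, ← mul_assoc, ff]
    have x'f : x' * f = x' := by
      rw [hx', mul_assoc, ff]
    obtain ⟨e, heA, hee, hφe⟩ := h x' (by rw [φx', hE, if_pos rfl])
    rw [φx'] at hφe
    have hcomm : f * e = e * f := by
      have hle : Algebra.adjoin O ({x'} : Set R) ≤ Subalgebra.centralizer O ({f} : Set R) := by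
        rw [Algebra.adjoin_le_iff]
        intro y hy
        rw [Set.mem_singleton_iff] at hy
        subst hy
        rw [SetLike.mem_coe, Subalgebra.mem_centralizer_iff]
        intro g hg
        rw [Set.mem_singleton_iff] at hg
        subst hg
        rw [fx', x'f]
      have := hle heA
      rw [Subalgebra.mem_centralizer_iff] at this
      exact this f rfl
    have hfe : (f * e) * (f * e) = f * e := by
      calc (f * e) * (f * e) = f * (e * f) * e := by noncomm_ring
        _ = f * (f * e) * e := by rw [hcomm]
        _ = (f * f) * (e * e) := by noncomm_ring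
        _ = f * e := by rw [ff, hee]
    have hl : ∀ q ∈ F, (f * e) * ε q = 0 := by
      intro q hq
      rw [hcomm, mul_assoc, fl q hq, mul_zero]
    have hr : ∀ q ∈ F, ε q * (f * e) = 0 := by
      intro q hq
      rw [← mul_assoc, fr q hq, zero_mul]
    have up : ∀ q ∈ F, Function.update ε p (f * e) q = ε q := by
      intro q hq
      apply Function.update_of_ne
      rintro rfl
      exact hp hq
    refine ⟨Function.update ε p (f * e), ?_, ?_, ?_⟩
    · intro q hq
      rcases Finset.mem_insert.1 hq with rfl | hq
      · rw [Function.update_self, map_mul, hφe, el]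
      · rw [up q hq]
        exact h1 q hq
    · intro q hq
      rcases Finset.mem_insert.1 hq with rfl | hq
      · rw [Function.update_self, hfe]
      · rw [up q hq]
        exact h2 q hq
    · intro q hq q' hq' hne
      rcases Finset.mem_insert.1 hq with a1 | a1
      · rcases Finset.mem_insert.1 hq' with a2 | a2
        · exact absurd (a1.trans a2.symm) hne
        · rw [a1, Function.update_self, up q' a2]
          exact hl q' a2
      · rcases Finset.mem_insert.1 hq' with a2 | a2
        · rw [a2, Function.update_self, up q a1]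
          exact hr q a1
        · rw [up q a1, up q' a2]
          exact h3 q a1 q' a2 hne

end ORTH_

theorem p_ORTH : T_ORTH.{u} := by
  intro O _ R _ _ B _ φ h P _ _ E hE hx
  obtain ⟨ε, h1, h2, h3⟩ := ORTH_.step φ h E hE hx Finset.univ
  refine ⟨ε, fun p q => ?_, fun p => h1 p (Finset.mem_univ p)⟩
  by_cases hpq : p = q
  · subst hpq
    rw [if_pos rfl]
    exact h2 p (Finset.mem_univ p)
  · rw [if_neg hpq]
    exact h3 p (Finset.mem_univ p) q (Finset.mem_univ q) hpq

end Pool.Agent.RTL
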