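import Pool.Agent.RTL.Targets

set_option autoImplicit false

/-! # RTL, target PI: the homomorphism from the subalgebra generated by the traces -/

namespace Pool.Agent.RTL

universe u v

open Matrix

namespace PI_

theorem eval_congr {O : Type u} [CommRing O] (ϖ : O) {G : Type v} (t q : G → O)
    (h : ∀ g, ϖ ∣ t g - q g) (P : MvPolynomial G O) :
    ϖ ∣ MvPolynomial.eval t P - MvPolynomial.eval q P := by
  induction P using MvPolynomial.induction_on with
  | C a => simp
  | add P Q hP hQ =>
    have e : MvPolynomial.eval t (P + Q) - MvPolynomial.eval q (P + Q) =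
        (MvPolynomial.eval t P - MvPolynomial.eval q P) +
        (MvPolynomial.eval t Q - MvPolynomial.eval q Q) := by
      simp only [map_add]
      ring
    rw [e]
    exact dvd_add hP hQ
  | mul_X P g hP =>
    have e : MvPolynomial.eval t (P * MvPolynomial.X g) -
        MvPolynomial.eval q (P * MvPolynomial.X g) =
        (MvPolynomial.eval t P - MvPolynomial.eval q P) * t g +
        MvPolynomial.eval q P * (t g - q g) := by
      simp only [map_mul, MvPolynomial.eval_X]
      ring
    rw [e]
    exact dvd_add (dvd_mul_of_dvd_left hP _) (dvd_mul_of_dvd_right (h g) _)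

theorem aeval_apply {O : Type u} [CommRing O] {G : Type v} {L : Type} (t : G → L → O)
    (P : MvPolynomial G O) (l : L) :
    MvPolynomial.aeval t P l = MvPolynomial.eval (fun g => t g l) P := by
  induction P using MvPolynomial.induction_on with
  | C a => simp
  | add P Q hP hQ => simp only [map_add, Pi.add_apply, hP, hQ]
  | mul_X P g hP =>
    simp only [map_mul, Pi.mul_apply, hP, MvPolynomial.aeval_X, MvPolynomial.eval_X]

end PI_

theorem p_PI : T_PI.{u, v} := by
  intro O _ ϖ m G _ L t q hP ht
  let F : MvPolynomial G O →ₐ[O] (L → O) := MvPolynomial.aeval t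
  let Q : MvPolynomial G O →ₐ[O] Quo ϖ m :=
    (Ideal.Quotient.mkₐ O (Ideal.span ({ϖ ^ m} : Set O))).comp (MvPolynomial.aeval q)
  have hQ : ∀ P, Q P = Ideal.Quotient.mk _ (MvPolynomial.eval q P) := by
    intro P
    simp only [Q, AlgHom.comp_apply, Ideal.Quotient.mkₐ_eq_mk, MvPolynomial.aeval_eq_eval]
  have hs : Function.Surjective F.rangeRestrict := F.rangeRestrict_surjective
  have hk : RingHom.ker F.rangeRestrict.toRingHom ≤ RingHom.ker Q.toRingHom := by
    intro P hPk
    rw [RingHom.mem_ker] at hPk ⊢
    have h1 : F P = 0 := congrArg Subtype.val hPk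
    change Q P = 0
    rw [hQ, Ideal.Quotient.eq_zero_iff_mem, Ideal.mem_span_singleton]
    refine hP P fun l => ?_
    rw [← PI_.aeval_apply]
    exact congrFun h1 l
  have hl : ∀ P, AlgHom.liftOfSurjective F.rangeRestrict hs Q hk (F.rangeRestrict P) = Q P :=
    fun P => AlgHom.liftOfSurjective_apply _ _ _ _ P
  refine ⟨F.range, AlgHom.liftOfSurjective F.rangeRestrict hs Q hk, ?_, ?_⟩
  · intro g
    have hg : F (MvPolynomial.X g) = t g := MvPolynomial.aeval_X _ _
    refine ⟨⟨MvPolynomial.X g, hg⟩, ?_⟩
    have e : (⟨t g, ⟨MvPolynomial.X g, hg⟩⟩ : F.range) = F.rangeRestrict (MvPolynomial.X g) :=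
      Subtype.ext hg.symm
    rw [e, hl, hQ, MvPolynomial.eval_X]
  · intro c l
    obtain ⟨P, rfl⟩ := hs c
    refine ⟨MvPolynomial.eval q P, ?_, ?_⟩
    · rw [hl, hQ]
    · change ϖ ∣ MvPolynomial.aeval t P l - MvPolynomial.eval q P
      rw [PI_.aeval_apply]
      exact PI_.eval_congr ϖ _ _ (ht l) P

end Pool.Agent.RTL
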