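import Pool.Agent.RTL.Targets

/-!
# As many nonzero orthogonal idempotent matrices as the size
-/

set_option autoImplicit false

namespace Pool.Agent.RTL

universe u

open Matrix

namespace RANK_

variable {O : Type u} [CommRing O] [IsDomain O] {P : Type} [Fintype P] [DecidableEq P]

omit [IsDomain O] [DecidableEq P] in
theorem mulVec_orth {ι : Type} [DecidableEq ι] {ε : ι → Matrix P P O}
    (h : ∀ p q, ε p * ε q = if p = q then ε p else 0) (p q : ι) (w : P → O) :
    ε p *ᵥ (ε q *ᵥ w) = if p = q then ε p *ᵥ w else 0 := by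
  rw [Matrix.mulVec_mulVec, h]
  split_ifs with hpq
  · rfl
  · rw [Matrix.zero_mulVec]

omit [IsDomain O] in
theorem exists_ne {M : Matrix P P O} (hM : M ≠ 0) : ∃ w : P → O, M *ᵥ w ≠ 0 := by
  by_contra hc
  push Not at hc
  apply hM
  ext i j
  have h1 := congrFun (hc (Pi.single j 1)) i
  rw [Matrix.mulVec_single_one] at h1
  exact h1

theorem card_le {ι : Type} [Fintype ι] [DecidableEq ι] {ε : ι → Matrix P P O}
    (h : ∀ p q, ε p * ε q = if p = q then ε p else 0) (h0 : ∀ p, ε p ≠ 0) :
    Fintype.card ι ≤ Fintype.card P := by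
  choose w hw using fun p => exists_ne (h0 p)
  have hli : LinearIndependent O fun p => ε p *ᵥ w p := by
    rw [Fintype.linearIndependent_iff]
    intro g hg q
    have h1 : ε q *ᵥ (∑ i, g i • ε i *ᵥ w i) = 0 := by rw [hg, Matrix.mulVec_zero]
    rw [Matrix.mulVec_sum, Finset.sum_eq_single q] at h1
    · rw [Matrix.mulVec_smul, mulVec_orth h, if_pos rfl] at h1
      exact (smul_eq_zero.1 h1).resolve_right (hw q)
    · intro b _ hb
      rw [Matrix.mulVec_smul, mulVec_orth h, if_neg (Ne.symm hb), smul_zero]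
    · intro hq
      exact absurd (Finset.mem_univ q) hq
  have h2 := hli.fintype_card_le_finrank
  rwa [Module.finrank_fintype_fun_eq_card] at h2

theorem sum_eq_one {ε : P → Matrix P P O}
    (h : ∀ p q, ε p * ε q = if p = q then ε p else 0) (h0 : ∀ p, ε p ≠ 0) :
    ∑ p, ε p = 1 := by
  by_contra hne
  set f : Matrix P P O := 1 - ∑ p, ε p with hf
  have hf0 : f ≠ 0 := fun h1 => hne (sub_eq_zero.1 h1).symm
  have hl : ∀ p, ε p * f = 0 := by
    intro p
    rw [hf, Matrix.mul_sub, Matrix.mul_one, Finset.mul_sum, Finset.sum_eq_single p]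
    · rw [h, if_pos rfl, sub_self]
    · intro b _ hb
      rw [h, if_neg (Ne.symm hb)]
    · intro hq
      exact absurd (Finset.mem_univ p) hq
  have hr : ∀ p, f * ε p = 0 := by
    intro p
    rw [hf, Matrix.sub_mul, Matrix.one_mul, Finset.sum_mul, Finset.sum_eq_single p]
    · rw [h, if_pos rfl, sub_self]
    · intro b _ hb
      rw [h, if_neg hb]
    · intro hq
      exact absurd (Finset.mem_univ p) hq
  have hff : f * f = f := by
    have : f * f = (1 - ∑ p, ε p) * f := rfl
    rw [this, Matrix.sub_mul, Matrix.one_mul, Finset.sum_mul,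
      Finset.sum_eq_zero fun p _ => hl p, sub_zero]
  have hcard := card_le (ι := Option P) (ε := fun o => o.elim f ε) (by
    intro p q
    cases p with
    | none =>
      cases q with
      | none => simpa using hff
      | some q => simpa using hr q
    | some p =>
      cases q with
      | none => simpa using hl p
      | some q => simpa using h p q) (by
    intro p
    cases p with
    | none => simpa using hf0
    | some p => simpa using h0 p)
  rw [Fintype.card_option] at hcard
  omega

end RANK_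

open RANK_

theorem p_RANK : T_RANK.{u} := by
  intro O _ _ _ P _ _ ε h h0
  classical
  let M : P → Submodule O (P → O) := fun p => LinearMap.range (Matrix.mulVecLin (ε p))
  have hM : ∀ p (x : M p), ∀ q, ε q *ᵥ (x : P → O) = if q = p then (x : P → O) else 0 := by
    rintro p ⟨x, ⟨y, rfl⟩⟩ q
    simp only [Matrix.mulVecLin_apply]
    rw [mulVec_orth h]
    split_ifs with hqp
    · rw [hqp]
    · rfl
  have hnt : ∀ p, Nontrivial (M p) := by
    intro p
    obtain ⟨w, hw⟩ := exists_ne (h0 p)
    refine ⟨⟨⟨ε p *ᵥ w, ⟨w, rfl⟩⟩, 0, ?_⟩⟩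
    intro h1
    exact hw (congrArg Subtype.val h1)
  have hpos : ∀ p, 1 ≤ Module.finrank O (M p) := by
    intro p
    have := hnt p
    exact Module.finrank_pos
  let F : ((p : P) → M p) →ₗ[O] (P → O) :=
    ∑ p, (M p).subtype ∘ₗ LinearMap.proj p
  have hFa : ∀ y, F y = ∑ p, (y p : P → O) := by
    intro y
    simp [F]
  have hF : Function.Injective F := by
    rw [← LinearMap.ker_eq_bot, LinearMap.ker_eq_bot']
    intro y hy
    rw [hFa] at hy
    funext q
    have h1 : ε q *ᵥ (∑ p, (y p : P → O)) = 0 := by rw [hy, Matrix.mulVec_zero]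
    rw [Matrix.mulVec_sum, Finset.sum_eq_single q] at h1
    · rw [hM, if_pos rfl] at h1
      exact Subtype.ext h1
    · intro b _ hb
      rw [hM, if_neg (Ne.symm hb)]
    · intro hq
      exact absurd (Finset.mem_univ q) hq
  have hle : ∑ p, Module.finrank O (M p) ≤ Fintype.card P := by
    have h1 := LinearMap.finrank_le_finrank_of_injective hF
    rwa [Module.finrank_pi_fintype, Module.finrank_fintype_fun_eq_card] at h1
  have hone : ∀ p, Module.finrank O (M p) = 1 := by
    have h1 : ∑ _p : P, 1 = ∑ p, Module.finrank O (M p) := by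
      apply le_antisymm
      · exact Finset.sum_le_sum fun p _ => hpos p
      · simpa using hle
    have h2 := (Finset.sum_eq_sum_iff_of_le fun p _ => hpos p).1 h1
    intro p
    exact (h2 p (Finset.mem_univ p)).symm
  let b : (p : P) → Module.Basis (Fin 1) O (M p) := fun p =>
    Module.finBasisOfFinrankEq O (M p) (hone p)
  let U : Matrix P P O := Matrix.of fun i p => (b p 0 : P → O) i
  let V : Matrix P P O := Matrix.of fun p j =>
    (b p).repr ⟨ε p *ᵥ Pi.single j 1, ⟨Pi.single j 1, rfl⟩⟩ 0
  have hUV : U * V = 1 := by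
    ext i j
    have h1 : ∀ p, (b p).repr ⟨ε p *ᵥ Pi.single j 1, ⟨Pi.single j 1, rfl⟩⟩ 0 •
        (b p 0 : P → O) = ε p *ᵥ Pi.single j 1 := by
      intro p
      have h2 := (b p).sum_repr ⟨ε p *ᵥ Pi.single j 1, ⟨Pi.single j 1, rfl⟩⟩
      rw [Fin.sum_univ_one] at h2
      exact congrArg Subtype.val h2
    have h3 : ∑ p, ε p *ᵥ Pi.single j (1 : O) = Pi.single j 1 := by
      rw [← Matrix.sum_mulVec, sum_eq_one h h0, Matrix.one_mulVec]
    have h4 : (∑ p, (b p).repr ⟨ε p *ᵥ Pi.single j 1, ⟨Pi.single j 1, rfl⟩⟩ 0 •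
        (b p 0 : P → O)) i = (Pi.single j (1 : O) : P → O) i := by
      rw [Finset.sum_congr rfl fun p _ => h1 p, h3]
    rw [Finset.sum_apply] at h4
    rw [Matrix.mul_apply]
    have h5 : (1 : Matrix P P O) i j = (Pi.single j (1 : O) : P → O) i := by
      rw [Matrix.one_apply, Pi.single_apply]
    rw [h5, ← h4]
    refine Finset.sum_congr rfl fun p _ => ?_
    simp only [U, V, Matrix.of_apply, Pi.smul_apply, smul_eq_mul]
    rw [mul_comm]
  have hVU : V * U = 1 := mul_eq_one_comm.1 hUV
  refine ⟨U, V, hUV, hVU, fun p => ?_⟩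
  have hcol : ε p * U = U * Matrix.single p p 1 := by
    ext i q
    have h1 := congrFun (hM q (b q 0) p) i
    have h2 : (ε p * U) i q = (ε p *ᵥ (b q 0 : P → O)) i := by
      rw [Matrix.mul_apply]
      rfl
    rw [h2, h1, Matrix.mul_apply, Finset.sum_eq_single p]
    · by_cases hpq : p = q
      · subst hpq
        rw [if_pos rfl, Matrix.single_apply_same, mul_one]
        rfl
      · rw [if_neg hpq, Matrix.single_apply_of_col_ne _ _ hpq, mul_zero]
        rfl
    · intro r _ hr
      rw [Matrix.single_apply_of_row_ne (Ne.symm hr), mul_zero]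
    · intro hq
      exact absurd (Finset.mem_univ p) hq
  rw [Matrix.mul_assoc, hcol, ← Matrix.mul_assoc, hVU, Matrix.one_mul]

end Pool.Agent.RTL
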