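import Pool.Agent.RTL.Targets

set_option autoImplicit false

/-!
# RES: residual surjectivity modulo a power of the uniformizer
-/

namespace Pool.Agent.RTL

universe u v

open Matrix

namespace RES_

/-- the sum over a finitely supported function as a linear map, entries -/
lemma sum_eq {O : Type u} [CommRing O] {G : Type v} {a : ℕ}
    (τ : G → Matrix (Fin a) (Fin a) O) (c : G →₀ O) :
    c.sum (fun g x => x • τ g) = Finsupp.linearCombination O τ c := by
  rw [Finsupp.linearCombination_apply]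

/-- the algebra homomorphism of the residual representation -/
noncomputable def fhom {O : Type u} [CommRing O] {G : Type v} [Group G] {k : Type u} [CommRing k]
    (q : O →+* k) {a : ℕ} (τ : G →* Matrix (Fin a) (Fin a) O) :
    MonoidAlgebra k G →ₐ[k] Matrix (Fin a) (Fin a) k :=
  MonoidAlgebra.lift k _ G ((q.mapMatrix : Matrix (Fin a) (Fin a) O →+* _).toMonoidHom.comp τ)

lemma fhom_lift {O : Type u} [CommRing O] {G : Type v} [Group G] {k : Type u} [CommRing k]
    (q : O →+* k) {a : ℕ} (τ : G →* Matrix (Fin a) (Fin a) O) (c : G →₀ O) :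
    fhom q τ (MonoidAlgebra.ofCoeff (c.mapRange q (map_zero q))) =
      (c.sum (fun g x => x • τ g)).map q := by
  rw [fhom, MonoidAlgebra.lift_apply, MonoidAlgebra.coeff_ofCoeff,
    Finsupp.sum_mapRange_index (by intro g; simp)]
  have h : (c.sum (fun g x => x • τ g)).map q = q.mapMatrix (c.sum (fun g x => x • τ g)) := rfl
  rw [h, Finsupp.sum, Finsupp.sum, map_sum]
  refine Finset.sum_congr rfl fun g _ => ?_
  ext s t
  simp [Matrix.smul_apply]

lemma fhom_single {O : Type u} [CommRing O] {G : Type v} [Group G] {k : Type u} [CommRing k]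
    (q : O →+* k) {a : ℕ} (τ : G →* Matrix (Fin a) (Fin a) O) (g : G) :
    fhom q τ (MonoidAlgebra.of k G g) = (τ g).map q := by
  rw [fhom, MonoidAlgebra.lift_of]
  rfl

lemma dvd_iff {O : Type u} [CommRing O] (ϖ x y : O) :
    ϖ ∣ x - y ↔ Ideal.Quotient.mk (Ideal.span ({ϖ} : Set O)) x =
      Ideal.Quotient.mk (Ideal.span ({ϖ} : Set O)) y := by
  rw [Ideal.Quotient.eq, Ideal.mem_span_singleton]

/-- the case of depth one -/
lemma one (h1 : T_RES1.{u, max u v}) (O : Type u) [CommRing O] [IsDomain O]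
    [IsDiscreteValuationRing O] (ϖ : O)
    (hϖ : Irreducible ϖ) (G : Type v) [Group G] (ι : Type) [Fintype ι] [DecidableEq ι] (n : ι → ℕ)
    (hn : ∀ i, 0 < n i) (τ : (i : ι) → G →* Matrix (Fin (n i)) (Fin (n i)) O)
    (hτ : ∀ i, ResAbsIrr ϖ (τ i)) (hd : ∀ i j, i ≠ j → ResDisjoint ϖ (τ i) (τ j))
    (b : (i : ι) → Matrix (Fin (n i)) (Fin (n i)) O) : ∃ c : G →₀ O,
      ∀ i s t, ϖ ∣ (c.sum (fun g x => x • τ i g) - b i) s t := by
  have hmax : (Ideal.span ({ϖ} : Set O)).IsMaximal :=
    PrincipalIdealRing.isMaximal_of_irreducible hϖ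
  let _ : Field (O ⧸ Ideal.span ({ϖ} : Set O)) := Ideal.Quotient.field _
  set q := Ideal.Quotient.mk (Ideal.span ({ϖ} : Set O)) with hq
  have hqs : Function.Surjective q := Ideal.Quotient.mk_surjective
  have hsurj : ∀ i, Function.Surjective (fhom q (τ i)) := by
    intro i M
    choose r hr using fun s t => hqs (M s t)
    obtain ⟨c, hc⟩ := hτ i (Matrix.of r)
    refine ⟨MonoidAlgebra.ofCoeff (c.mapRange q (map_zero q)), ?_⟩
    rw [fhom_lift]
    ext s t
    have h5 := hc s t
    rw [Matrix.sub_apply, dvd_iff] at h5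
    rw [Matrix.map_apply, ← hr s t]
    exact h5
  have hdis : ∀ i j, i ≠ j →
      ∀ X : Matrix (Fin (n i)) (Fin (n j)) (O ⧸ Ideal.span ({ϖ} : Set O)),
      (∀ a, fhom q (τ i) a * X = X * fhom q (τ j) a) → X = 0 := by
    intro i j hij X hX
    choose r hr using fun s t => hqs (X s t)
    have hXr : X = (Matrix.of r).map q := by
      ext s t
      exact (hr s t).symm
    have h6 := hd i j hij (Matrix.of r) (by
      intro g s t
      rw [Matrix.sub_apply, dvd_iff]
      have h7 := hX (MonoidAlgebra.of _ G g)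
      rw [fhom_single, fhom_single, hXr, ← Matrix.map_mul, ← Matrix.map_mul] at h7
      exact congrFun (congrFun h7 s) t)
    ext s t
    have h8 := h6 s t
    rw [← hr s t, Matrix.zero_apply, hq, Ideal.Quotient.eq_zero_iff_mem,
      Ideal.mem_span_singleton]
    exact h8
  obtain ⟨a, ha⟩ := h1 (O ⧸ Ideal.span ({ϖ} : Set O))
    (MonoidAlgebra (O ⧸ Ideal.span ({ϖ} : Set O)) G) ι n hn
    (fun i => fhom q (τ i)) hsurj hdis (fun i => (b i).map q)
  obtain ⟨c, hc⟩ := Finsupp.mapRange_surjective (α := G) q (map_zero q) hqs a.coeff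
  refine ⟨c, fun i s t => ?_⟩
  have h2 : a = MonoidAlgebra.ofCoeff (c.mapRange q (map_zero q)) := by
    rw [hc]
  have h3 := ha i
  rw [h2, fhom_lift] at h3
  have h4 := congrFun (congrFun h3 s) t
  rw [Matrix.sub_apply, dvd_iff]
  exact h4

end RES_

theorem p_RES (h_RES1 : T_RES1.{u, max u v}) : T_RES.{u, v} := by
  intro O _ _ _ ϖ hϖ G _ ι _ _ n hn τ hτ hd m
  induction m with
  | zero =>
    intro b
    exact ⟨0, fun i s t => by rw [pow_zero]; exact one_dvd _⟩
  | succ m ih =>
    intro b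
    obtain ⟨c, hc⟩ := ih b
    choose D hD using hc
    obtain ⟨c', hc'⟩ := RES_.one h_RES1 O ϖ hϖ G ι n hn τ hτ hd (fun i => -Matrix.of (D i))
    refine ⟨c + ϖ ^ m • c', fun i s t => ?_⟩
    obtain ⟨y, hy⟩ := hc' i s t
    refine ⟨y, ?_⟩
    have h1 := hD i s t
    rw [RES_.sum_eq, Matrix.sub_apply] at h1
    rw [RES_.sum_eq, Matrix.sub_apply, Matrix.neg_apply, Matrix.of_apply] at hy
    rw [RES_.sum_eq, map_add, map_smul, Matrix.sub_apply, Matrix.add_apply, Matrix.smul_apply,
      smul_eq_mul, pow_succ, mul_assoc, ← hy]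
    linear_combination h1

end Pool.Agent.RTL
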