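import Pool.Agent.RTL.Targets

set_option autoImplicit false

namespace Pool.Agent.RTL

universe u

open Matrix

namespace SNF_

variable {O : Type u} [CommRing O] {M : Type u} [AddCommGroup M] [Module O M]

/-- The coordinates of an element of the smaller module. -/
theorem coord_formula {W W' : Submodule O M} (hle : W' ≤ W) {n o : ℕ} (hno : n ≤ o)
    (bO : Module.Basis (Fin o) O W) (bN : Module.Basis (Fin n) O W') (a : Fin n → O)
    (ha : ∀ i, (bN i : M) = a i • (bO (Fin.castLE hno i) : M)) (w : M) (hw : w ∈ W') :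
    ∃ d : Fin n → O, ∀ j : Fin o, bO.repr ⟨w, hle hw⟩ j =
      ∑ i, if Fin.castLE hno i = j then d i * a i else 0 := by
  refine ⟨fun i => bN.repr ⟨w, hw⟩ i, fun j => ?_⟩
  have h1 : (∑ i, bN.repr ⟨w, hw⟩ i • bN i) = (⟨w, hw⟩ : W') := bN.sum_repr _
  have h2 : (⟨w, hle hw⟩ : W) =
      ∑ i, (bN.repr ⟨w, hw⟩ i * a i) • bO (Fin.castLE hno i) := by
    apply Subtype.ext
    have h3 := congrArg Subtype.val h1
    simp only [Submodule.coe_sum, Submodule.coe_smul] at h3 ⊢
    refine h3.symm.trans ?_
    refine Finset.sum_congr rfl fun i _ => ?_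
    rw [ha, mul_smul]
  rw [h2, map_sum, Finsupp.finsetSum_apply]
  refine Finset.sum_congr rfl fun i _ => ?_
  rw [map_smul, Finsupp.smul_apply, Module.Basis.repr_self_apply]
  split_ifs <;> simp

end SNF_

theorem p_SNF : T_SNF.{u} := by
  intro O _ _ _ ϖ hϖ m L _ W W' hle hm
  classical
  obtain ⟨n, o, hno, bO, bN, a, ha⟩ :=
    Submodule.exists_smith_normal_form_of_le (Pi.basisFun O L) W' W hle
  have hpow : ϖ ^ m ≠ 0 := pow_ne_zero _ hϖ.ne_zero
  have hmem : ∀ j : Fin o, ϖ ^ m • (bO j : L → O) ∈ W' := fun j => hm _ (bO j).2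
  have hrepr : ∀ j k : Fin o, bO.repr ⟨ϖ ^ m • (bO j : L → O), hle (hmem j)⟩ k =
      if j = k then ϖ ^ m else 0 := by
    intro j k
    have h1 : (⟨ϖ ^ m • (bO j : L → O), hle (hmem j)⟩ : W) = ϖ ^ m • bO j := rfl
    rw [h1, map_smul, Finsupp.smul_apply, Module.Basis.repr_self_apply]
    split_ifs <;> simp
  -- the ranks agree
  have hn : n = o := by
    by_contra hne
    have hlt : n < o := lt_of_le_of_ne hno hne
    obtain ⟨d, hd⟩ := SNF_.coord_formula hle hno bO bN a ha _ (hmem ⟨n, hlt⟩)
    have h1 := hd ⟨n, hlt⟩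
    rw [hrepr, if_pos rfl] at h1
    rw [Finset.sum_eq_zero] at h1
    · exact hpow h1
    · intro i _
      rw [if_neg]
      intro h
      have := congrArg Fin.val h
      simp only [Fin.val_castLE] at this
      omega
  subst hn
  have hcast : ∀ i : Fin n, Fin.castLE hno i = i := fun i => rfl
  simp only [hcast] at ha
  -- every coefficient divides the power
  have hdiv : ∀ i, a i ∣ ϖ ^ m := by
    intro i
    obtain ⟨d, hd⟩ := SNF_.coord_formula hle hno bO bN a ha _ (hmem i)
    have h1 := hd i
    rw [hrepr, if_pos rfl] at h1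
    simp only [hcast, Finset.sum_ite_eq', Finset.mem_univ, if_true] at h1
    exact ⟨d i, by rw [h1]; ring⟩
  have hass : ∀ i, ∃ c ≤ m, Associated (a i) (ϖ ^ c) := fun i =>
    (dvd_prime_pow hϖ.prime m).1 (hdiv i)
  choose c hc hac using hass
  -- the number of basis vectors
  have hcard : Fintype.card (Fin n) ≤ Fintype.card L := by
    have hli : LinearIndependent O fun j => (bO j : L → O) :=
      bO.linearIndependent.map' W.subtype (Submodule.ker_subtype W)
    have h1 := hli.fintype_card_le_finrank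
    rwa [Module.finrank_fintype_fun_eq_card] at h1
  obtain ⟨e⟩ := Function.Embedding.nonempty_of_card_le hcard
  let x : L → (L → O) := Function.extend e (fun j => (bO j : L → O)) 0
  let c' : L → ℕ := Function.extend e c 0
  have hx : ∀ j, x (e j) = (bO j : L → O) := fun j => e.injective.extend_apply _ _ _
  have hc' : ∀ j, c' (e j) = c j := fun j => e.injective.extend_apply _ _ _
  have hx0 : ∀ α, α ∉ Set.range e → x α = 0 := fun α hα =>
    Function.extend_apply' _ _ _ fun ⟨j, hj⟩ => hα ⟨j, hj⟩
  have hc0 : ∀ α, α ∉ Set.range e → c' α = 0 := fun α hα =>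
    Function.extend_apply' _ _ _ fun ⟨j, hj⟩ => hα ⟨j, hj⟩
  have hsum : ∀ b : L → O, ∑ α, b α • x α = ∑ j, b (e j) • (bO j : L → O) := by
    intro b
    symm
    refine Fintype.sum_of_injective e e.injective _ _ (fun α hα => ?_) (fun j => ?_)
    · rw [hx0 α hα, smul_zero]
    · rw [hx]
  refine ⟨x, c', fun α => ?_, fun α => ?_, fun w hw => ?_, fun b => ?_⟩
  · by_cases h : α ∈ Set.range e
    · obtain ⟨j, rfl⟩ := h
      rw [hx]
      exact (bO j).2
    · rw [hx0 α h]
      exact W.zero_mem
  · by_cases h : α ∈ Set.range e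
    · obtain ⟨j, rfl⟩ := h
      rw [hc']
      exact hc j
    · rw [hc0 α h]
      exact Nat.zero_le _
  · refine ⟨Function.extend e (fun j => bO.repr ⟨w, hw⟩ j) 0, ?_⟩
    rw [hsum]
    have h1 : (∑ i, bO.repr ⟨w, hw⟩ i • bO i) = (⟨w, hw⟩ : W) := bO.sum_repr _
    have h3 := congrArg Subtype.val h1
    simp only [Submodule.coe_sum, Submodule.coe_smul] at h3
    refine h3.symm.trans ?_
    refine Finset.sum_congr rfl fun j _ => ?_
    rw [e.injective.extend_apply]
  · rw [hsum]
    have hforall : (∀ α, ϖ ^ c' α ∣ b α) ↔ ∀ j, ϖ ^ c j ∣ b (e j) := by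
      constructor
      · intro h j
        rw [← hc']
        exact h (e j)
      · intro h α
        by_cases hα : α ∈ Set.range e
        · obtain ⟨j, rfl⟩ := hα
          rw [hc']
          exact h j
        · rw [hc0 α hα, pow_zero]
          exact one_dvd _
    rw [hforall]
    constructor
    · intro h j
      obtain ⟨d, hd⟩ := SNF_.coord_formula hle hno bO bN a ha _ h
      have h1 := hd j
      have h2 : (⟨∑ j, b (e j) • (bO j : L → O), hle h⟩ : W) = ∑ j, b (e j) • bO j := by
        apply Subtype.ext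
        simp only [Submodule.coe_sum, Submodule.coe_smul]
      rw [h2, Module.Basis.repr_sum_self] at h1
      simp only [hcast, Finset.sum_ite_eq', Finset.mem_univ, if_true] at h1
      exact (hac j).symm.dvd.trans ⟨d j, by rw [h1]; ring⟩
    · intro h
      refine Submodule.sum_mem _ fun j _ => ?_
      obtain ⟨q, hq⟩ := (hac j).dvd.trans (h j)
      have h1 : b (e j) • (bO j : L → O) = q • (bN j : L → O) := by
        rw [ha, hq, smul_smul, mul_comm]
      rw [h1]
      exact W'.smul_mem _ (bN j).2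

end Pool.Agent.RTL
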