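import Pool.Agent.RTL.Targets

/-!
# Project RTL, target STR: the structure theorem
-/

set_option autoImplicit false

namespace Pool.Agent.RTL

universe u v w

open Matrix

namespace STR_

/-- A homomorphism which kills the kernel of a surjection factors through it. -/
theorem exists_lift {R : Type w} {S B : Type u} [Ring R] [Ring S] [Ring B] (f : R →+* S)
    (hf : Function.Surjective f) (g : R →+* B) (h : ∀ a, f a = 0 → g a = 0) :
    ∃ φ : S →+* B, ∀ a, φ (f a) = g a := by
  have hk : RingHom.ker f ≤ RingHom.ker g := fun a ha => h a ha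
  exact ⟨f.liftOfRightInverse _ (Function.rightInverse_surjInv hf) ⟨g, hk⟩, fun a =>
    RingHom.liftOfRightInverse_comp_apply f _ (Function.rightInverse_surjInv hf) ⟨g, hk⟩ a⟩

theorem E_mul' {ι : Type} [DecidableEq ι] {n : ι → ℕ} {Q : Type u} [CommRing Q] (i j : ι)
    (s : Fin (n i)) (t : Fin (n j)) :
    (Pi.single i (Matrix.single s s (1 : Q)) :
      (i : ι) → Matrix (Fin (n i)) (Fin (n i)) Q) * Pi.single j (Matrix.single t t (1 : Q)) =
      if (⟨i, s⟩ : Idx n) = ⟨j, t⟩ then Pi.single i (Matrix.single s s (1 : Q)) else 0 := by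
  by_cases hij : i = j
  · subst hij
    have h := Pi.single_mul (α := fun i => Matrix (Fin (n i)) (Fin (n i)) Q) i
      (Matrix.single s s (1 : Q)) (Matrix.single t t (1 : Q))
    rw [← h]
    by_cases hst : s = t
    · subst hst
      rw [if_pos rfl, Matrix.single_mul_single_same, one_mul]
    · rw [if_neg (by simpa using hst), Matrix.single_mul_single_of_ne _ _ _ _ hst,
        Pi.single_zero]
  · rw [if_neg (fun h => hij (congrArg Sigma.fst h))]
    funext k
    rw [Pi.mul_apply, Pi.zero_apply]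
    by_cases hk : k = i
    · subst hk
      have h := Pi.single_eq_of_ne (M := fun i => Matrix (Fin (n i)) (Fin (n i)) Q) hij
        (Matrix.single t t (1 : Q))
      rw [h, mul_zero]
    · have h := Pi.single_eq_of_ne (M := fun i => Matrix (Fin (n i)) (Fin (n i)) Q) hk
        (Matrix.single s s (1 : Q))
      rw [h, zero_mul]

/-- The diagonal idempotents are orthogonal. -/
theorem E_mul {ι : Type} [DecidableEq ι] {n : ι → ℕ} {Q : Type u} [CommRing Q] (p q : Idx n) :
    (Pi.single p.1 (Matrix.single p.2 p.2 (1 : Q)) :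
      (i : ι) → Matrix (Fin (n i)) (Fin (n i)) Q) *
        Pi.single q.1 (Matrix.single q.2 q.2 (1 : Q)) =
      if p = q then Pi.single p.1 (Matrix.single p.2 p.2 (1 : Q)) else 0 :=
  E_mul' p.1 q.1 p.2 q.2

/-- The trace of a diagonal idempotent. -/
theorem E_trace {ι : Type} [Fintype ι] [DecidableEq ι] {n : ι → ℕ} {Q : Type u} [CommRing Q]
    (p : Idx n) :
    ∑ i, ((Pi.single p.1 (Matrix.single p.2 p.2 (1 : Q)) :
      (i : ι) → Matrix (Fin (n i)) (Fin (n i)) Q) i).trace = 1 := by
  rw [Finset.sum_eq_single p.1]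
  · rw [Pi.single_eq_same, Matrix.trace_single_eq_same]
  · intro j _ hj
    rw [Pi.single_eq_of_ne hj, Matrix.trace_zero]
  · intro h
    exact absurd (Finset.mem_univ _) h

/-- `ϖ ^ m` acts as zero. -/
theorem smul_zero' {O : Type u} [CommRing O] (ϖ : O) (m : ℕ) (q : Quo ϖ m) : ϖ ^ m • q = 0 := by
  have h1 : algebraMap O (Quo ϖ m) (ϖ ^ m) = 0 :=
    Ideal.Quotient.eq_zero_iff_mem.mpr (Ideal.subset_span rfl)
  rw [Algebra.smul_def, h1, zero_mul]

end STR_

open STR_

theorem p_STR (h_IDEM : T_IDEM.{u}) (h_ORTH : T_ORTH.{u}) (h_RANK : T_RANK.{u})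
    (h_UNITS : T_UNITS.{u, w}) : T_STR.{u, w} := by
  intro O _ _ _ ϖ hϖ hO m hm L ι _ _ _ n hn R _ _ Sg Ta hsurj hker hres
  classical
  have hfsurj : Function.Surjective (Sg.rangeRestrict : R →ₐ[O] Sg.range).toRingHom := by
    rintro ⟨x, a, rfl⟩
    exact ⟨a, rfl⟩
  obtain ⟨φ, hφ⟩ := exists_lift (Sg.rangeRestrict : R →ₐ[O] Sg.range).toRingHom hfsurj
    Ta.toRingHom (by
      intro a ha
      refine hker a ?_
      exact congrArg Subtype.val ha)
  have hφ' : ∀ a, φ (Sg.rangeRestrict a) = Ta a := hφ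
  have hfin : Module.Finite O Sg.range :=
    Module.Finite.of_injective (Sg.range.val.toLinearMap) Subtype.val_injective
  have hzero : φ (algebraMap O Sg.range (ϖ ^ m)) = 0 := by
    have e1 : algebraMap O Sg.range (ϖ ^ m) = Sg.rangeRestrict (algebraMap O R (ϖ ^ m)) :=
      (AlgHom.commutes _ _).symm
    rw [e1, hφ', AlgHom.commutes, Algebra.algebraMap_eq_smul_one]
    funext i
    ext s t
    rw [Pi.smul_apply, Matrix.smul_apply, smul_zero']
    rfl
  have hlift := h_IDEM O ϖ hϖ hO Sg.range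
    ((i : ι) → Matrix (Fin (n i)) (Fin (n i)) (Quo ϖ m)) φ m hzero
  obtain ⟨ε, hε1, hε2⟩ := h_ORTH O Sg.range
    ((i : ι) → Matrix (Fin (n i)) (Fin (n i)) (Quo ϖ m)) φ hlift (Idx n)
    (fun p => Pi.single p.1 (Matrix.single p.2 p.2 1)) (fun p q => E_mul p q) (by
      intro p
      obtain ⟨a, ha⟩ := hsurj (Pi.single p.1 (Matrix.single p.2 p.2 1))
      exact ⟨Sg.rangeRestrict a, (hφ' a).trans ha⟩)
  have hex : ∀ p, ∃ a : R, Sg a = (ε p : Matrix (Idx n) (Idx n) (L → O)) := fun p => (ε p).2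
  choose e he using hex
  have heR : ∀ p, Sg.rangeRestrict (e p) = ε p := fun p => Subtype.ext (he p)
  have hTa : ∀ p, Ta (e p) = Pi.single p.1 (Matrix.single p.2 p.2 1) := by
    intro p
    rw [← hφ', heR, hε2]
  have horth : ∀ p q, Sg (e p) * Sg (e q) = if p = q then Sg (e p) else 0 := by
    intro p q
    have h1 := congrArg Subtype.val (hε1 p q)
    rw [he, he]
    by_cases hpq : p = q
    · rw [if_pos hpq] at h1 ⊢
      exact h1
    · rw [if_neg hpq] at h1 ⊢
      exact h1
  have hne : ∀ (l : L) (p : Idx n), (Sg (e p)).map (Pi.evalRingHom (fun _ : L => O) l) ≠ 0 := by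
    intro l p h0
    obtain ⟨y, hy1, hy2⟩ := hres (e p) l
    rw [hTa, E_trace] at hy1
    have h1 : ϖ ∣ y - 1 := by
      have h2 : (Ideal.Quotient.mk (Ideal.span ({ϖ ^ m} : Set O))) (y - 1) = 0 := by
        rw [map_sub, hy1, map_one, sub_self]
      rw [Ideal.Quotient.eq_zero_iff_mem, Ideal.mem_span_singleton] at h2
      exact (dvd_pow_self ϖ hm.ne').trans h2
    have h3 : (Sg (e p)).trace l = 0 := by
      have h4 : (Sg (e p)).trace l =
          ((Sg (e p)).map (Pi.evalRingHom (fun _ : L => O) l)).trace := by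
        simp [Matrix.trace]
      rw [h4, h0, Matrix.trace_zero]
    rw [h3, zero_sub, dvd_neg] at hy2
    have h5 : ϖ ∣ 1 := by
      have := dvd_sub hy2 h1
      rwa [sub_sub_cancel] at this
    exact hϖ.not_isUnit (isUnit_of_dvd_one h5)
  have hrank : ∀ l : L, ∃ U V : Matrix (Idx n) (Idx n) O, U * V = 1 ∧ V * U = 1 ∧
      ∀ p, V * (Sg (e p)).map (Pi.evalRingHom (fun _ : L => O) l) * U = Matrix.single p p 1 := by
    intro l
    refine h_RANK O (Idx n) (fun p => (Sg (e p)).map (Pi.evalRingHom (fun _ : L => O) l)) ?_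
      (hne l)
    intro p q
    rw [← Matrix.map_mul, horth]
    by_cases hpq : p = q
    · rw [if_pos hpq, if_pos hpq]
    · rw [if_neg hpq, if_neg hpq]
      ext a b
      rfl
  choose U V hUV hVU hVeU using hrank
  have key : ∀ M N : Matrix (Idx n) (Idx n) (L → O),
      (∀ l : L, M.map (Pi.evalRingHom (fun _ : L => O) l) =
        N.map (Pi.evalRingHom (fun _ : L => O) l)) → M = N := by
    intro M N h
    ext p q l
    exact congrFun (congrFun (h l) p) q
  let U0 : Matrix (Idx n) (Idx n) (L → O) := fun p q l => U l p q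
  let V0 : Matrix (Idx n) (Idx n) (L → O) := fun p q l => V l p q
  have hU0 : ∀ l, U0.map (Pi.evalRingHom (fun _ : L => O) l) = U l := fun l => rfl
  have hV0 : ∀ l, V0.map (Pi.evalRingHom (fun _ : L => O) l) = V l := fun l => rfl
  have h1map : ∀ l, (1 : Matrix (Idx n) (Idx n) (L → O)).map
      (Pi.evalRingHom (fun _ : L => O) l) = 1 := by
    intro l
    exact Matrix.map_one _ (map_zero _) (map_one _)
  have hUV0 : U0 * V0 = 1 := by
    apply key
    intro l
    rw [Matrix.map_mul, hU0, hV0, hUV, h1map]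
  have hVU0 : V0 * U0 = 1 := by
    apply key
    intro l
    rw [Matrix.map_mul, hU0, hV0, hVU, h1map]
  refine h_UNITS O ϖ hϖ m hm L ι n hn R Sg Ta hsurj hker hres e hTa U0 V0 hUV0 hVU0 ?_
  intro p
  apply key
  intro l
  rw [Matrix.map_mul, Matrix.map_mul, hU0, hV0, hVeU, Matrix.map_single, map_one]

end Pool.Agent.RTL
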