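import Pool.Agent.RTL.Targets

set_option autoImplicit false

/-!
# Matrix units (target UNITS)
-/

namespace Pool.Agent.RTL

universe u w

open Matrix

namespace UNITS_

/-- evaluation of a polynomial at the image under a homomorphism without unit -/
lemma aeval_corner {O C B : Type*} [CommRing O] [CommRing C] [Algebra O C] [Ring B] [Algebra O B]
    (f : C → B) (hadd : ∀ x y, f (x + y) = f x + f y) (hmul : ∀ x y, f (x * y) = f x * f y)
    (hsm : ∀ (r : O) x, f (r • x) = r • f x) (c : C) (h : Polynomial O) :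
    Polynomial.aeval (f c) h * f 1 = f (Polynomial.aeval c h) := by
  have hpow : ∀ k : ℕ, (f c) ^ k * f 1 = f (c ^ k) := by
    intro k
    induction k with
    | zero => simp
    | succ k ih => rw [pow_succ', mul_assoc, ih, ← hmul, pow_succ']
  induction h using Polynomial.induction_on' with
  | add p q hp hq => simp only [map_add, add_mul, hp, hq, hadd]
  | monomial k a =>
    rw [Polynomial.aeval_monomial, Polynomial.aeval_monomial, mul_assoc, hpow,
      ← Algebra.smul_def, ← Algebra.smul_def, hsm]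

/-- conjugation of an algebra homomorphism -/
def cj {O : Type*} [CommRing O] {R : Type*} [Ring R] [Algebra O R] {C : Type*} [CommRing C]
    [Algebra O C] {P : Type*} [Fintype P] [DecidableEq P] (Sg : R →ₐ[O] Matrix P P C)
    (U V : Matrix P P C) (hUV : U * V = 1) (hVU : V * U = 1) : R →ₐ[O] Matrix P P C :=
  AlgHom.ofLinearMap
    { toFun := fun a => V * Sg a * U
      map_add' := fun a b => by rw [map_add, Matrix.mul_add, Matrix.add_mul]
      map_smul' := fun r a => by
        rw [map_smul, Matrix.mul_smul, Matrix.smul_mul, RingHom.id_apply] }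
    (by
      show V * Sg 1 * U = 1
      rw [map_one, Matrix.mul_one, hVU])
    (by
      intro a b
      show V * Sg (a * b) * U = V * Sg a * U * (V * Sg b * U)
      rw [map_mul]
      calc V * (Sg a * Sg b) * U = V * Sg a * 1 * Sg b * U := by
            simp only [Matrix.mul_one, Matrix.mul_assoc]
        _ = V * Sg a * (U * V) * Sg b * U := by rw [hUV]
        _ = _ := by simp only [Matrix.mul_assoc])

lemma cj_apply {O : Type*} [CommRing O] {R : Type*} [Ring R] [Algebra O R] {C : Type*}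
    [CommRing C] [Algebra O C] {P : Type*} [Fintype P] [DecidableEq P]
    (Sg : R →ₐ[O] Matrix P P C) (U V : Matrix P P C) (hUV : U * V = 1) (hVU : V * U = 1) (a : R) :
    cj Sg U V hUV hVU a = V * Sg a * U := rfl

lemma cj_trace {O : Type*} [CommRing O] {R : Type*} [Ring R] [Algebra O R] {C : Type*}
    [CommRing C] [Algebra O C] {P : Type*} [Fintype P] [DecidableEq P]
    (Sg : R →ₐ[O] Matrix P P C) (U V : Matrix P P C) (hUV : U * V = 1) (hVU : V * U = 1) (a : R) :
    (cj Sg U V hUV hVU a).trace = (Sg a).trace := by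
  rw [cj_apply, Matrix.trace_mul_comm, ← Matrix.mul_assoc, hUV, Matrix.one_mul]

lemma cj_zero {O : Type*} [CommRing O] {R : Type*} [Ring R] [Algebra O R] {C : Type*}
    [CommRing C] [Algebra O C] {P : Type*} [Fintype P] [DecidableEq P]
    (Sg : R →ₐ[O] Matrix P P C) (U V : Matrix P P C) (hUV : U * V = 1) (hVU : V * U = 1) (a : R)
    (h : cj Sg U V hUV hVU a = 0) : Sg a = 0 := by
  rw [cj_apply] at h
  calc Sg a = 1 * Sg a * 1 := by rw [Matrix.one_mul, Matrix.mul_one]
    _ = (U * V) * Sg a * (U * V) := by rw [hUV]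
    _ = U * (V * Sg a * U) * V := by simp only [Matrix.mul_assoc]
    _ = 0 := by rw [h, Matrix.mul_zero, Matrix.zero_mul]

lemma diag_single_diag {C P : Type*} [CommRing C] [Fintype P] [DecidableEq P] (x y : P → C)
    (i j : P) (c : C) :
    diagonal x * Matrix.single i j c * diagonal y = Matrix.single i j (x i * c * y j) := by
  ext p q
  rw [Matrix.mul_diagonal, Matrix.diagonal_mul, Matrix.single_apply, Matrix.single_apply]
  split_ifs with h
  · rw [h.1, h.2]
  · simp

lemma piSingle_mul {ι : Type} [DecidableEq ι] {B : ι → Type*} [∀ i, Ring (B i)] (i : ι)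
    (x y : B i) : (Pi.single i x : (j : ι) → B j) * Pi.single i y = Pi.single i (x * y) := by
  rw [Pi.single_mul]

lemma single_mul_one {C P : Type*} [CommRing C] [Fintype P] [DecidableEq P] (i j k : P) (c d : C) :
    Matrix.single i j c * Matrix.single j k d = Matrix.single i k (c * d) := by
  rw [Matrix.single_mul_single_same]

end UNITS_

open UNITS_

theorem p_UNITS (h_INV : T_INV.{u}) : T_UNITS.{u, w} := by
  intro O _ _ _ ϖ hϖ m hm L ι _ _ _ n hn R _ _ Sg Ta hsurj hker hres e he U V hUV hVU hcut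
  classical
  -- the first index of a block
  obtain ⟨o, ho⟩ : ∃ o : (i : ι) → Fin (n i), o = fun i => ⟨0, hn i⟩ := ⟨_, rfl⟩
  clear ho
  obtain ⟨S, hS⟩ : ∃ S : R →ₐ[O] Matrix (Idx n) (Idx n) (L → O), S = cj Sg U V hUV hVU :=
    ⟨_, rfl⟩
  have hSa : ∀ a, S a = V * Sg a * U := fun a => by rw [hS, cj_apply]
  have hStr : ∀ a, (S a).trace = (Sg a).trace := fun a => by rw [hS, cj_trace]
  have hSe : ∀ p, S (e p) = Matrix.single p p 1 := fun p => by rw [hSa, hcut]
  -- the elements b and d
  have hb0 : ∀ p : Idx n, ∃ b : R, Ta b = Pi.single p.1 (Matrix.single p.2 (o p.1) 1) ∧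
      (p = ⟨p.1, o p.1⟩ → b = e p) := by
    intro p
    by_cases hp : p = ⟨p.1, o p.1⟩
    · refine ⟨e p, ?_, fun _ => rfl⟩
      rw [he p]
      have h2 : p.2 = o p.1 := by
        obtain ⟨i, s⟩ := p
        simpa using hp
      rw [← h2]
    · obtain ⟨b, hb⟩ := hsurj (Pi.single p.1 (Matrix.single p.2 (o p.1) 1))
      exact ⟨b, hb, fun h => absurd h hp⟩
  choose b0 hb0 hb0' using hb0
  have hd0 : ∀ p : Idx n, ∃ d : R, Ta d = Pi.single p.1 (Matrix.single (o p.1) p.2 1) :=
    fun p => hsurj _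
  choose d0 hd0 using hd0
  obtain ⟨b, hb⟩ : ∃ b : Idx n → R, b = fun p => e p * b0 p * e ⟨p.1, o p.1⟩ := ⟨_, rfl⟩
  obtain ⟨d, hd⟩ : ∃ d : Idx n → R, d = fun p => e ⟨p.1, o p.1⟩ * d0 p * e p := ⟨_, rfl⟩
  obtain ⟨β, hβ⟩ : ∃ β : Idx n → (L → O), β = fun p => S (b0 p) p ⟨p.1, o p.1⟩ := ⟨_, rfl⟩
  obtain ⟨δ, hδ⟩ : ∃ δ : Idx n → (L → O), δ = fun p => S (d0 p) ⟨p.1, o p.1⟩ p := ⟨_, rfl⟩
  have hSb : ∀ p, S (b p) = Matrix.single p ⟨p.1, o p.1⟩ (β p) := by
    intro p
    rw [hb, hβ]
    simp only [map_mul, hSe]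
    rw [Matrix.single_mul_mul_single, one_mul, mul_one]
  have hSd : ∀ p, S (d p) = Matrix.single ⟨p.1, o p.1⟩ p (δ p) := by
    intro p
    rw [hd, hδ]
    simp only [map_mul, hSe]
    rw [Matrix.single_mul_mul_single, one_mul, mul_one]
  have hTb : ∀ p : Idx n, Ta (b p) = Pi.single p.1 (Matrix.single p.2 (o p.1) 1) := by
    intro p
    rw [hb]
    simp only [map_mul, he, hb0]
    rw [piSingle_mul, piSingle_mul, single_mul_one, single_mul_one, one_mul, one_mul]
  have hTd : ∀ p : Idx n, Ta (d p) = Pi.single p.1 (Matrix.single (o p.1) p.2 1) := by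
    intro p
    rw [hd]
    simp only [map_mul, he, hd0]
    rw [piSingle_mul, piSingle_mul, single_mul_one, single_mul_one, one_mul, one_mul]
  have hβ0 : ∀ i, β ⟨i, o i⟩ = 1 := by
    intro i
    rw [hβ]
    show S (b0 ⟨i, o i⟩) ⟨i, o i⟩ ⟨i, o i⟩ = 1
    rw [hb0' ⟨i, o i⟩ rfl, hSe, Matrix.single_apply_same]
  -- units
  have hunit : ∀ p l, IsUnit ((β p * δ p) l) := by
    intro p l
    obtain ⟨y, hy, hdvd⟩ := hres (b p * d p) l
    have h1 : (Sg (b p * d p)).trace = β p * δ p := by
      rw [← hStr, map_mul, hSb, hSd, single_mul_one, Matrix.trace_single_eq_same]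
    have h2 : ∑ i, (Ta (b p * d p) i).trace = 1 := by
      rw [map_mul, hTb, hTd, piSingle_mul, single_mul_one, one_mul,
        Finset.sum_eq_single p.1]
      · rw [Pi.single_eq_same, Matrix.trace_single_eq_same]
      · intro i _ hi
        rw [Pi.single_eq_of_ne hi, Matrix.trace_zero]
      · intro h
        exact absurd (Finset.mem_univ _) h
    rw [h2, ← map_one (Ideal.Quotient.mk (Ideal.span ({ϖ ^ m} : Set O))), Ideal.Quotient.eq,
      Ideal.mem_span_singleton] at hy
    have h3 : ϖ ∣ y - 1 := (dvd_pow_self ϖ hm.ne').trans hy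
    have h4 : ϖ ∣ (β p * δ p) l - 1 := by
      rw [h1] at hdvd
      have := dvd_add hdvd h3
      simpa using this
    by_contra hnu
    have h5 : (β p * δ p) l ∈ IsLocalRing.maximalIdeal O := hnu
    have h6 : ϖ ∈ IsLocalRing.maximalIdeal O := hϖ.not_isUnit
    have h7 : (1 : O) ∈ IsLocalRing.maximalIdeal O := by
      have h8 := (IsLocalRing.maximalIdeal O).sub_mem h5
        ((IsLocalRing.maximalIdeal O).mem_of_dvd h4 h6)
      have h9 : (β p * δ p) l - ((β p * δ p) l - 1) = 1 := by ring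
      rwa [h9] at h8
    exact (Ideal.ne_top_iff_one _).1 (IsLocalRing.maximalIdeal.isMaximal O).ne_top h7
  have hinv : ∀ p, ∃ x : L → O, β p * x = 1 := by
    intro p
    have h1 : ∀ l, ∃ x : O, β p l * x = 1 := fun l =>
      (isUnit_of_mul_isUnit_left (hunit p l)).exists_right_inv
    choose x hx using h1
    exact ⟨x, funext hx⟩
  choose βi hβi using hinv
  have hβi' : ∀ p, βi p * β p = 1 := fun p => by rw [mul_comm, hβi]
  have hβi0 : ∀ i, βi ⟨i, o i⟩ = 1 := fun i => by
    have := hβi ⟨i, o i⟩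
    rwa [hβ0, one_mul] at this
  have hD1 : diagonal β * diagonal βi = 1 := by
    rw [Matrix.diagonal_mul_diagonal, ← Matrix.diagonal_one]
    congr 1
    funext p
    exact hβi p
  have hD2 : diagonal βi * diagonal β = 1 := by
    rw [Matrix.diagonal_mul_diagonal, ← Matrix.diagonal_one]
    congr 1
    funext p
    exact hβi' p
  have hUV' : (U * diagonal β) * (diagonal βi * V) = 1 := by
    calc (U * diagonal β) * (diagonal βi * V) = U * (diagonal β * diagonal βi) * V := by
          simp only [Matrix.mul_assoc]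
      _ = 1 := by rw [hD1, Matrix.mul_one, hUV]
  have hVU' : (diagonal βi * V) * (U * diagonal β) = 1 := by
    calc (diagonal βi * V) * (U * diagonal β) = diagonal βi * (V * U) * diagonal β := by
          simp only [Matrix.mul_assoc]
      _ = 1 := by rw [hVU, Matrix.mul_one, hD2]
  refine ⟨U * diagonal β, diagonal βi * V, hUV', hVU', ?_⟩
  obtain ⟨S2, hS2⟩ : ∃ S2 : R →ₐ[O] Matrix (Idx n) (Idx n) (L → O),
      S2 = cj Sg (U * diagonal β) (diagonal βi * V) hUV' hVU' := ⟨_, rfl⟩
  have hS2a : ∀ a, S2 a = diagonal βi * V * Sg a * (U * diagonal β) := fun a => by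
    rw [hS2, cj_apply]
  have hS2' : ∀ a, S2 a = diagonal βi * S a * diagonal β := fun a => by
    rw [hS2a, hSa]
    simp only [Matrix.mul_assoc]
  have hS2ker : ∀ a, S2 a = 0 → Ta a = 0 := fun a ha => by
    rw [hS2] at ha
    exact hker a (cj_zero _ _ _ _ _ _ ha)
  have hS2b : ∀ p, S2 (b p) = Matrix.single p ⟨p.1, o p.1⟩ 1 := fun p => by
    rw [hS2', hSb, diag_single_diag, hβ0, mul_one, hβi']
  have hS2d : ∀ p, S2 (d p) = Matrix.single ⟨p.1, o p.1⟩ p (δ p * β p) := fun p => by
    rw [hS2', hSd, diag_single_diag, hβi0, one_mul]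
  have hS2e : ∀ p, S2 (e p) = Matrix.single p p 1 := fun p => by
    rw [hS2', hSe, diag_single_diag, mul_one, hβi']
  -- the elements d'
  have hd' : ∀ p : Idx n, ∃ x : R, S2 x = Matrix.single ⟨p.1, o p.1⟩ p 1 ∧
      Ta x = Pi.single p.1 (Matrix.single (o p.1) p.2 1) := by
    intro p
    obtain ⟨h, hh⟩ := h_INV O L (δ p * β p) (fun l => by
      have := hunit p l
      rwa [mul_comm] at this)
    have hh' : Polynomial.aeval (δ p * β p) h * (δ p * β p) = 1 := by
      funext l
      have h1 : (Polynomial.aeval (δ p * β p) h) l = h.eval ((δ p * β p) l) := by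
        have h2 := Polynomial.aeval_algHom_apply (Pi.evalAlgHom O (fun _ : L => O) l)
          (δ p * β p) h
        rw [Pi.evalAlgHom_apply, Pi.evalAlgHom_apply] at h2
        rw [← h2, Polynomial.coe_aeval_eq_eval]
      rw [Pi.mul_apply, h1, hh l, Pi.one_apply]
    have hdb : S2 (d p * b p) = Matrix.single ⟨p.1, o p.1⟩ ⟨p.1, o p.1⟩ (δ p * β p) := by
      rw [map_mul, hS2d, hS2b, single_mul_one, mul_one]
    have hTdb : Ta (d p * b p) =
        Pi.single p.1 (Matrix.single (o p.1) (o p.1) 1) := by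
      rw [map_mul, hTd, hTb, piSingle_mul, single_mul_one, one_mul]
    obtain ⟨a', ha'⟩ : ∃ a', a' = Polynomial.aeval (d p * b p) h * e ⟨p.1, o p.1⟩ := ⟨_, rfl⟩
    have hS2a' : S2 a' = Matrix.single ⟨p.1, o p.1⟩ ⟨p.1, o p.1⟩
        (Polynomial.aeval (δ p * β p) h) := by
      rw [ha', map_mul, ← Polynomial.aeval_algHom_apply, hdb, hS2e]
      obtain ⟨q, hq⟩ : ∃ q : Idx n, q = ⟨p.1, o p.1⟩ := ⟨_, rfl⟩
      rw [← hq]
      exact aeval_corner (O := O) (fun c : L → O => Matrix.single q q c)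
        (fun x y => Matrix.single_add _ _ _ _)
        (fun x y => (single_mul_one _ _ _ _ _).symm)
        (fun r x => (Matrix.smul_single _ _ _ _).symm) (δ p * β p) h
    obtain ⟨E, hE⟩ : ∃ E : (i : ι) → Matrix (Fin (n i)) (Fin (n i)) (Quo ϖ m),
        E = Pi.single p.1 (Matrix.single (o p.1) (o p.1) 1) := ⟨_, rfl⟩
    have hEE : E * E = E := by
      rw [hE, piSingle_mul, single_mul_one, one_mul]
    have hTa' : Ta a' = (h.eval 1) • E := by
      rw [ha', map_mul, ← Polynomial.aeval_algHom_apply, hTdb, he, ← hE]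
      have h1 := aeval_corner (O := O) (C := O) (fun c : O => c • E)
        (fun x y => add_smul _ _ _)
        (fun x y => by rw [smul_mul_smul_comm, hEE])
        (fun r x => by rw [smul_eq_mul, mul_smul]) 1 h
      simp only [one_smul] at h1
      rw [h1, Polynomial.coe_aeval_eq_eval]
    have hcE : (h.eval 1) • E = E := by
      have h1 : S2 (a' * (d p * b p) - e ⟨p.1, o p.1⟩) = 0 := by
        rw [map_sub, map_mul, hS2a', hdb, single_mul_one, hh', hS2e, sub_self]
      have h2 := hS2ker _ h1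
      rw [map_sub, map_mul, hTa', hTdb, he, ← hE, smul_mul_assoc, hEE, sub_eq_zero] at h2
      exact h2
    refine ⟨a' * d p, ?_, ?_⟩
    · rw [map_mul, hS2a', hS2d, single_mul_one, hh']
    · rw [map_mul, hTa', hcE, hTd, hE, piSingle_mul, single_mul_one, one_mul]
  intro i s t
  obtain ⟨x, hx1, hx2⟩ := hd' ⟨i, t⟩
  refine ⟨b ⟨i, s⟩ * x, ?_, ?_⟩
  · rw [← hS2a, map_mul, hS2b, hx1, single_mul_one, one_mul]
  · rw [map_mul, hTb, hx2]
    show (Pi.single i (Matrix.single s (o i) 1) : (j : ι) → Matrix (Fin (n j)) (Fin (n j))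
      (Quo ϖ m)) * Pi.single i (Matrix.single (o i) t 1) = _
    rw [piSingle_mul, single_mul_one, one_mul]

end Pool.Agent.RTL
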