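import Pool.Agent.RTL.Main
import Pool.Agent.RTL.P_ADIC
import Pool.Agent.RTL.P_CLS
import Pool.Agent.RTL.P_COC
import Pool.Agent.RTL.P_DET
import Pool.Agent.RTL.P_DUAL
import Pool.Agent.RTL.P_FAC
import Pool.Agent.RTL.P_GMA
import Pool.Agent.RTL.P_IDC
import Pool.Agent.RTL.P_IDEM
import Pool.Agent.RTL.P_INV
import Pool.Agent.RTL.P_LAT
import Pool.Agent.RTL.P_ORTH
import Pool.Agent.RTL.P_PI
import Pool.Agent.RTL.P_RANK
import Pool.Agent.RTL.P_RES
import Pool.Agent.RTL.P_RES1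
import Pool.Agent.RTL.P_SNF
import Pool.Agent.RTL.P_STR
import Pool.Agent.RTL.P_UNITS

set_option autoImplicit false

/-! # The main theorem, all targets put together -/

namespace Pool.Agent.RTL

universe u v

theorem a_CUT : T_CUT.{u, v} :=
  p_CUT (p_RES p_RES1) p_FAC p_PI
    (p_STR (p_IDEM p_ADIC p_IDC) p_ORTH p_RANK (p_UNITS p_INV)) p_GMA p_DET p_SNF p_DUAL
    p_COC p_CLS p_LAT

end Pool.Agent.RTL
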