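import Pool.Agent.RTL.CutIneq

set_option autoImplicit false

/-!
# The main theorem for all cuts of the set of constituents
-/

namespace Pool.Agent.RTL

universe u v

open Matrix

/-- `σ` has no quotient whose residual constituents are the `τ i`, `i ∈ P`: there is no nonzero
homomorphism from `σ` to a representation `ψ` of rank `∑ i ∈ P, n i` whose trace is congruent to
`∑ i ∈ P, tr τ_i` modulo `ϖ`.  (For instance: `σ` is irreducible over the fraction field and
its rank is larger.) -/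
def NoQuotientOn {O : Type u} [CommRing O] {G : Type v} [Group G] (ϖ : O) {N : ℕ} {ι : Type}
    {n : ι → ℕ} (P : Finset ι) (σ : G →* Matrix (Fin N) (Fin N) O)
    (τ : (i : ι) → G →* Matrix (Fin (n i)) (Fin (n i)) O) : Prop :=
  ∀ (φ : Matrix (Fin (∑ i ∈ P, n i)) (Fin N) O)
    (ψ : G →* Matrix (Fin (∑ i ∈ P, n i)) (Fin (∑ i ∈ P, n i)) O),
    (∀ g, φ * σ g = ψ g * φ) → (∀ g, ϖ ∣ (ψ g).trace - ∑ i ∈ P, (τ i g).trace) → φ = 0

/-- The main theorem for all cuts. -/
def T_CUT : Prop := ∀ (O : Type u) [CommRing O] [IsDomain O] [IsDiscreteValuationRing O] (ϖ : O),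
    Irreducible ϖ → IsAdicComplete (Ideal.span ({ϖ} : Set O)) O →
    ∀ (G : Type v) [Group G] (C : RepClass O G), C.Closed →
    ∀ (L ι : Type) [Fintype L] [Nonempty L] [Fintype ι] [DecidableEq ι] (n : ι → ℕ),
    (∀ i, 0 < n i) → ∀ (N : ℕ), N = ∑ i, n i →
    ∀ (σ : L → G →* Matrix (Fin N) (Fin N) O)
    (τ : (i : ι) → G →* Matrix (Fin (n i)) (Fin (n i)) O),
    (∀ l r, C _ (latRep ϖ r (σ l))) →
    (∀ i, ResAbsIrr ϖ (τ i)) → (∀ i j, i ≠ j → ResDisjoint ϖ (τ i) (τ j)) →
    (∀ l g, ϖ ∣ (σ l g).trace - ∑ i, (τ i g).trace) →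
    ∀ m : ℕ, 0 < m → TotalDepth ϖ m σ τ →
    ∃ c : ι → ι → L → ℕ,
      (∀ i j, i ≠ j → ∃ Φ : ((α : L) → Quo ϖ (c i j α)) →ₗ[O]
          (G → Matrix (Fin (n i)) (Fin (n j)) (Quo ϖ m)),
        ∀ x, (IsCoboundary ϖ m (τ i) (τ j) (Φ x) → x = 0) ∧
          ∃ z : Z1 ϖ m (τ i) (τ j), z.1 = Φ x ∧ C _ (extRep ϖ m (τ i) (τ j) z)) ∧
      ∀ P : Finset ι, P.Nonempty → (∀ l, NoQuotientOn ϖ P (σ l) τ) →
        m ≤ ∑ i ∈ P, ∑ j ∈ Pᶜ, ∑ α, c i j α

namespace CUT_

theorem nz {O : Type u} [CommRing O] [IsDomain O] (ϖ : O) (m : ℕ) (hm : 0 < m)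
    {G : Type v} [Group G] {L ι : Type} [Fintype ι] [DecidableEq ι] (n : ι → ℕ)
    (hn : ∀ i, 0 < n i) (τ : (i : ι) → G →* Matrix (Fin (n i)) (Fin (n i)) O)
    (θ : G →* Matrix (Idx n) (Idx n) (L → O))
    (T : Subalgebra O (L → O)) (π : T →ₐ[O] Quo ϖ m) (A : ι → ι → Submodule O (L → O))
    (hTπ : ∀ (c : T) (l : L), ∃ y : O, Ideal.Quotient.mk _ y = π c ∧ ϖ ∣ (c : L → O) l - y)
    (hent : ∀ g i s j t, θ g ⟨i, s⟩ ⟨j, t⟩ ∈ A i j)
    (hdiag : ∀ g i s t, ∃ h : θ g ⟨i, s⟩ ⟨i, t⟩ ∈ T, π ⟨_, h⟩ = red ϖ m (τ i g) s t)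
    (P : Finset ι) (hP : P.Nonempty)
    (hNQ : ∀ (l : L) (φ : Matrix (Fin (∑ i ∈ P, n i)) (Idx n) O)
      (ψ : G →* Matrix (Fin (∑ i ∈ P, n i)) (Fin (∑ i ∈ P, n i)) O),
      (∀ g, φ * (θ g).map (fun c => c l) = ψ g * φ) →
      (∀ g, ϖ ∣ (ψ g).trace - ∑ i ∈ P, (τ i g).trace) → φ = 0) :
    ∀ l, ∃ i ∈ P, ∃ j, j ∉ P ∧ ∃ x ∈ A i j, x l ≠ 0 := by
  classical
  intro l
  by_contra hcon
  push Not at hcon
  have hz : ∀ (g : G) (p q : Idx n), p.1 ∈ P → q.1 ∉ P → θ g p q l = 0 := by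
    rintro g ⟨i, s⟩ ⟨j, t⟩ hp hq
    exact hcon i hp j hq _ (hent g i s j t)
  have hcard : Fintype.card (Fin (∑ i ∈ P, n i)) = Fintype.card {p : Idx n // p.1 ∈ P} := by
    rw [Fintype.card_fin, Fintype.card_subtype, Finset.card_eq_sum_ones,
      Finset.sum_filter, Fintype.sum_sigma]
    rw [← Finset.sum_filter_add_sum_filter_not Finset.univ (fun i => i ∈ P)
      (fun i => ∑ s : Fin (n i), if (⟨i, s⟩ : Idx n).1 ∈ P then 1 else 0)]
    have h2 : ∑ i ∈ Finset.univ.filter (fun i => ¬ i ∈ P),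
        ∑ s : Fin (n i), (if (⟨i, s⟩ : Idx n).1 ∈ P then 1 else 0) = 0 := by
      refine Finset.sum_eq_zero fun i hi => Finset.sum_eq_zero fun s _ => ?_
      rw [Finset.mem_filter] at hi
      exact if_neg hi.2
    have h3 : ∑ i ∈ Finset.univ.filter (fun i => i ∈ P),
        ∑ s : Fin (n i), (if (⟨i, s⟩ : Idx n).1 ∈ P then 1 else 0) = ∑ i ∈ P, n i := by
      have h4 : Finset.univ.filter (fun i => i ∈ P) = P := by
        ext i
        simp
      rw [h4]
      refine Finset.sum_congr rfl fun i hi => ?_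
      have h5 : ∀ s : Fin (n i), (if (⟨i, s⟩ : Idx n).1 ∈ P then 1 else 0) = 1 := fun s =>
        if_pos hi
      simp only [h5]
      simp
    rw [h2, h3, add_zero]
  let e : Fin (∑ i ∈ P, n i) ≃ {p : Idx n // p.1 ∈ P} := Fintype.equivOfCardEq hcard
  -- sums over `Idx n` of functions supported on `P`
  have hsum : ∀ f : Idx n → O, (∀ q : Idx n, q.1 ∉ P → f q = 0) →
      ∑ q, f q = ∑ t, f (e t).1 := by
    intro f hf
    rw [Equiv.sum_comp e (fun q : {p : Idx n // p.1 ∈ P} => f q.1)]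
    rw [← Finset.sum_subtype (Finset.univ.filter (fun q : Idx n => q.1 ∈ P))
      (p := fun q : Idx n => q.1 ∈ P) (fun q => by simp) f]
    symm
    refine Finset.sum_subset (Finset.subset_univ _) fun q _ hq => ?_
    refine hf q fun h => hq ?_
    rw [Finset.mem_filter]
    exact ⟨Finset.mem_univ _, h⟩
  let ψ : G →* Matrix (Fin (∑ i ∈ P, n i)) (Fin (∑ i ∈ P, n i)) O :=
    { toFun := fun g => Matrix.of fun s t => θ g (e s).1 (e t).1 l
      map_one' := by
        ext s t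
        rw [map_one, Matrix.of_apply]
        by_cases hst : s = t
        · subst hst
          rw [Matrix.one_apply_eq, Matrix.one_apply_eq]
          rfl
        · have h1 : (e s).1 ≠ (e t).1 := fun h => hst (e.injective (Subtype.ext h))
          rw [Matrix.one_apply_ne h1, Matrix.one_apply_ne hst]
          rfl
      map_mul' := by
        intro g h
        ext s t
        rw [map_mul, Matrix.of_apply, Matrix.mul_apply, Matrix.mul_apply, Finset.sum_apply]
        simp only [Pi.mul_apply, Matrix.of_apply]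
        exact hsum (fun p => θ g (e s).1 p l * θ h p (e t).1 l) (fun p hp => by
          simp only [hz g (e s).1 p (e s).2 hp, zero_mul]) }
  have hψ : ∀ g s t, ψ g s t = θ g (e s).1 (e t).1 l := fun g s t => rfl
  let φ : Matrix (Fin (∑ i ∈ P, n i)) (Idx n) O :=
    Matrix.of fun s p => if p = (e s).1 then 1 else 0
  have hφ : ∀ s p, φ s p = if p = (e s).1 then 1 else 0 := fun s p => rfl
  have h0 : φ = 0 := by
    apply hNQ l φ ψ
    · intro g
      ext s q
      rw [Matrix.mul_apply, Matrix.mul_apply]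
      have e1 : ∑ p, φ s p * (θ g).map (fun c => c l) p q = θ g (e s).1 q l := by
        rw [Finset.sum_eq_single (e s).1]
        · simp [hφ]
        · intro p _ hp
          rw [hφ, if_neg hp, zero_mul]
        · intro h
          exact absurd (Finset.mem_univ _) h
      rw [e1]
      by_cases hq : q.1 ∈ P
      · rw [Finset.sum_eq_single (e.symm ⟨q, hq⟩)]
        · rw [hφ, hψ, Equiv.apply_symm_apply, if_pos rfl, mul_one]
        · intro t' _ ht'
          have h1 : q ≠ (e t').1 := by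
            intro h
            apply ht'
            rw [Equiv.eq_symm_apply]
            exact Subtype.ext h.symm
          rw [hφ, if_neg h1, mul_zero]
        · intro h
          exact absurd (Finset.mem_univ _) h
      · rw [hz g (e s).1 q (e s).2 hq]
        symm
        apply Finset.sum_eq_zero
        intro t' _
        have h1 : q ≠ (e t').1 := by
          intro h
          exact hq (h ▸ (e t').2)
        rw [hφ, if_neg h1, mul_zero]
    · intro g
      have h1 : (ψ g).trace = ∑ i ∈ P, ∑ s : Fin (n i), θ g ⟨i, s⟩ ⟨i, s⟩ l := by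
        have h2 : (ψ g).trace = ∑ q : Idx n, if q.1 ∈ P then θ g q q l else 0 := by
          rw [hsum (fun q => if q.1 ∈ P then θ g q q l else 0) (fun q hq => if_neg hq)]
          refine Finset.sum_congr rfl fun s _ => ?_
          rw [if_pos (e s).2]
          rfl
        rw [h2, Fintype.sum_sigma]
        rw [← Finset.sum_subset (Finset.subset_univ P)]
        · refine Finset.sum_congr rfl fun i hi => Finset.sum_congr rfl fun s _ => ?_
          exact if_pos hi
        · intro i _ hi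
          exact Finset.sum_eq_zero fun s _ => if_neg hi
      rw [h1, ← Finset.sum_sub_distrib]
      refine Finset.dvd_sum fun i _ => ?_
      have h3 : (τ i g).trace = ∑ s, τ i g s s := rfl
      rw [h3, ← Finset.sum_sub_distrib]
      refine Finset.dvd_sum fun s _ => ?_
      obtain ⟨hT, hπ⟩ := hdiag g i s s
      obtain ⟨y, hy1, hy2⟩ := hTπ ⟨_, hT⟩ l
      rw [hπ] at hy1
      have h2 : ϖ ^ m ∣ y - τ i g s s := by
        have h3 : Ideal.Quotient.mk (Ideal.span ({ϖ ^ m} : Set O)) y =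
            Ideal.Quotient.mk (Ideal.span ({ϖ ^ m} : Set O)) (τ i g s s) := by
          rw [hy1]
          rfl
        rw [Ideal.Quotient.eq, Ideal.mem_span_singleton] at h3
        exact h3
      have h3 : ϖ ∣ y - τ i g s s := dvd_trans (dvd_pow_self ϖ hm.ne') h2
      have h4 : θ g ⟨i, s⟩ ⟨i, s⟩ l - τ i g s s =
          (θ g ⟨i, s⟩ ⟨i, s⟩ l - y) + (y - τ i g s s) := by ring
      rw [h4]
      exact dvd_add hy2 h3
  obtain ⟨i, hi⟩ := hP
  have h1 := congrFun (congrFun h0 (e.symm ⟨⟨i, ⟨0, hn i⟩⟩, hi⟩)) ⟨i, ⟨0, hn i⟩⟩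
  rw [hφ, Equiv.apply_symm_apply, if_pos rfl] at h1
  exact one_ne_zero h1

end CUT_

end Pool.Agent.RTL
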