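import Pool.Agent.RTL.P_INEQ

set_option autoImplicit false

/-!
# The length inequality for a cut of the set of constituents
-/

namespace Pool.Agent.RTL

universe u

open Matrix

namespace CUT_

open INEQ_

/-- The span of the products `u v`, `u ∈ A i i'`, `v ∈ A j' j` (for `p = (i', j')`,
`q = (i, j)`). -/
def A2 {O : Type u} [CommRing O] {L ι : Type} (A : ι → ι → Submodule O (L → O)) {P : Finset ι}
    (p q : {i : ι // i ∈ P} × {j : ι // j ∉ P}) : Submodule O (L → O) :=
  Submodule.span O {w | ∃ u ∈ A q.1.1 p.1.1, ∃ v ∈ A p.2.1 q.2.1, w = u * v}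

/-- The length inequality for the cut given by `P`. -/
theorem ineq (h_DET : T_DET.{u}) {O : Type u} [CommRing O] [IsDomain O] (ϖ : O)
    (hϖ : Irreducible ϖ) (m : ℕ) {L ι : Type} [Fintype L] [Fintype ι] [DecidableEq ι]
    (T : Subalgebra O (L → O)) (π : T →ₐ[O] Quo ϖ m) (A : ι → ι → Submodule O (L → O))
    (hmul : ∀ i j k x y, x ∈ A i j → y ∈ A j k → x * y ∈ A i k)
    (hdiag : ∀ i x, x ∈ A i i ↔ x ∈ T)
    (hJ : ∀ i j, i ≠ j → ∀ x ∈ A i j, ∀ y ∈ A j i, ∃ h : x * y ∈ T, π ⟨x * y, h⟩ = 0)
    (P : Finset ι) (hne : ∀ l, ∃ i ∈ P, ∃ j, j ∉ P ∧ ∃ x ∈ A i j, x l ≠ 0)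
    (x : ι → ι → L → (L → O)) (c : ι → ι → L → ℕ)
    (hgen : ∀ i j, i ≠ j → ∀ w ∈ A i j, ∃ a : L → O, w = ∑ α, a α • x i j α)
    (hWp : ∀ i j, i ≠ j → ∀ a : L → O,
      ∑ α, a α • x i j α ∈ Wp π A i j ↔ ∀ α, ϖ ^ c i j α ∣ a α) :
    m ≤ ∑ i ∈ P, ∑ j ∈ Pᶜ, ∑ α, c i j α := by
  classical
  have hne' : ∀ (i : {i : ι // i ∈ P}) (j : {j : ι // j ∉ P}), i.1 ≠ j.1 :=
    fun i j h => j.2 (h ▸ i.2)
  have hone : ∀ i, (1 : L → O) ∈ A i i := fun i => (hdiag i 1).2 T.one_mem
  -- step (1)
  have key : ∀ p : {i : ι // i ∈ P} × {j : ι // j ∉ P}, ∀ w ∈ Wp π A p.1.1 p.2.1,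
      ∃ z : (({i : ι // i ∈ P} × {j : ι // j ∉ P}) × L) → (L → O),
      (∀ b, z b ∈ A2 A b.1 p) ∧ (∀ b, b.1 = p → InJ π (z b)) ∧
        w = ∑ b, x b.1.1.1 b.1.2.1 b.2 * z b := by
    rintro ⟨⟨i, hi⟩, ⟨j, hj⟩⟩ w hw
    have hij : i ≠ j := hne' ⟨i, hi⟩ ⟨j, hj⟩
    unfold Wp at hw
    induction hw using Submodule.span_induction with
    | mem w hw =>
      rcases hw with ⟨k, hki, hkj, x', hx', y, hy, rfl⟩ | ⟨t, ht, x', hx', rfl⟩
      · by_cases hk : k ∈ P
        · obtain ⟨a, ha⟩ := hgen k j hkj y hy
          let q : {i : ι // i ∈ P} × {j : ι // j ∉ P} := (⟨k, hk⟩, ⟨j, hj⟩)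
          refine ⟨fun b => if b.1 = q then a b.2 • x' else 0, ?_, ?_, ?_⟩
          · intro b
            by_cases hb : b.1 = q
            · simp only [hb, if_true]
              refine Submodule.smul_mem _ _ (Submodule.subset_span ⟨x', hx', 1, hone j, ?_⟩)
              rw [mul_one]
            · simp only [hb, if_false]
              exact Submodule.zero_mem _
          · intro b hb
            have hb' : b.1 ≠ q := by
              intro h
              have h1 : (⟨i, hi⟩ : {i : ι // i ∈ P}) = ⟨k, hk⟩ :=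
                congrArg Prod.fst (hb.symm.trans h)
              exact hki (congrArg Subtype.val h1).symm
            simp only [hb', if_false]
            exact inJ_zero π
          · rw [Fintype.sum_prod_type, Finset.sum_eq_single q]
            · simp only [if_true]
              rw [ha, Finset.mul_sum]
              refine Finset.sum_congr rfl fun α _ => ?_
              rw [mul_smul_comm, mul_smul_comm, mul_comm]
            · intro b _ hb
              apply Finset.sum_eq_zero
              intro α _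
              simp only [hb, if_false, mul_zero]
            · intro h
              exact absurd (Finset.mem_univ _) h
        · obtain ⟨a, ha⟩ := hgen i k (Ne.symm hki) x' hx'
          let q : {i : ι // i ∈ P} × {j : ι // j ∉ P} := (⟨i, hi⟩, ⟨k, hk⟩)
          refine ⟨fun b => if b.1 = q then a b.2 • y else 0, ?_, ?_, ?_⟩
          · intro b
            by_cases hb : b.1 = q
            · simp only [hb, if_true]
              refine Submodule.smul_mem _ _ (Submodule.subset_span ⟨1, hone i, y, hy, ?_⟩)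
              rw [one_mul]
            · simp only [hb, if_false]
              exact Submodule.zero_mem _
          · intro b hb
            have hb' : b.1 ≠ q := by
              intro h
              have h1 : (⟨j, hj⟩ : {j : ι // j ∉ P}) = ⟨k, hk⟩ :=
                congrArg Prod.snd (hb.symm.trans h)
              exact hkj (congrArg Subtype.val h1).symm
            simp only [hb', if_false]
            exact inJ_zero π
          · rw [Fintype.sum_prod_type, Finset.sum_eq_single q]
            · simp only [if_true]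
              rw [ha, Finset.sum_mul]
              refine Finset.sum_congr rfl fun α _ => ?_
              rw [smul_mul_assoc, mul_smul_comm]
            · intro b _ hb
              apply Finset.sum_eq_zero
              intro α _
              simp only [hb, if_false, mul_zero]
            · intro h
              exact absurd (Finset.mem_univ _) h
      · obtain ⟨a, ha⟩ := hgen i j hij x' hx'
        have htJ : InJ π (t : L → O) := ⟨t.2, ht⟩
        let q : {i : ι // i ∈ P} × {j : ι // j ∉ P} := (⟨i, hi⟩, ⟨j, hj⟩)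
        refine ⟨fun b => if b.1 = q then a b.2 • (t : L → O) else 0, ?_, ?_, ?_⟩
        · intro b
          by_cases hb : b.1 = q
          · simp only [hb, if_true]
            refine Submodule.smul_mem _ _ (Submodule.subset_span
              ⟨1, hone i, (t : L → O), (hdiag j _).2 t.2, ?_⟩)
            rw [one_mul]
          · simp only [hb, if_false]
            exact Submodule.zero_mem _
        · intro b hb
          have hb' : b.1 = q := hb
          simp only [hb', if_true]
          exact inJ_smul π _ htJ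
        · rw [Fintype.sum_prod_type, Finset.sum_eq_single q]
          · simp only [if_true]
            rw [ha, Finset.mul_sum]
            refine Finset.sum_congr rfl fun α _ => ?_
            rw [mul_smul_comm, mul_smul_comm, mul_comm]
          · intro b _ hb
            apply Finset.sum_eq_zero
            intro α _
            simp only [hb, if_false, mul_zero]
          · intro h
            exact absurd (Finset.mem_univ _) h
    | zero =>
      exact ⟨fun _ => 0, fun b => Submodule.zero_mem _, fun _ _ => inJ_zero π, by simp⟩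
    | add w1 w2 _ _ h1 h2 =>
      obtain ⟨z1, a1, b1, c1⟩ := h1
      obtain ⟨z2, a2, b2, c2⟩ := h2
      refine ⟨fun b => z1 b + z2 b, fun b => Submodule.add_mem _ (a1 b) (a2 b),
        fun b hb => inJ_add π (b1 b hb) (b2 b hb), ?_⟩
      rw [c1, c2, ← Finset.sum_add_distrib]
      exact Finset.sum_congr rfl fun b _ => (mul_add _ _ _).symm
    | smul r w _ h1 =>
      obtain ⟨z1, a1, b1, c1⟩ := h1
      refine ⟨fun b => r • z1 b, fun b => Submodule.smul_mem _ _ (a1 b),
        fun b hb => inJ_smul π _ (b1 b hb), ?_⟩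
      rw [c1, Finset.smul_sum]
      exact Finset.sum_congr rfl fun b _ => (mul_smul_comm _ _ _).symm
  -- step (2)
  have hw : ∀ a : ({i : ι // i ∈ P} × {j : ι // j ∉ P}) × L,
      ϖ ^ c a.1.1.1 a.1.2.1 a.2 • x a.1.1.1 a.1.2.1 a.2 ∈ Wp π A a.1.1.1 a.1.2.1 := by
    intro a
    have h1 := (hWp a.1.1.1 a.1.2.1 (hne' _ _) (Pi.single a.2 (ϖ ^ c a.1.1.1 a.1.2.1 a.2))).2 (by
      intro β
      by_cases hβ : β = a.2
      · rw [hβ, Pi.single_eq_same]
      · rw [Pi.single_eq_of_ne hβ]
        exact dvd_zero _)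
    rw [Finset.sum_eq_single a.2] at h1
    · rwa [Pi.single_eq_same] at h1
    · intro β _ hβ
      rw [Pi.single_eq_of_ne hβ, zero_smul]
    · intro h
      exact absurd (Finset.mem_univ _) h
  choose z hz1 hz2 hz3 using fun a : ({i : ι // i ∈ P} × {j : ι // j ∉ P}) × L =>
    key a.1 _ (hw a)
  set cc : (({i : ι // i ∈ P} × {j : ι // j ∉ P}) × L) → (L → O) :=
    fun a => algebraMap O (L → O) (ϖ ^ c a.1.1.1 a.1.2.1 a.2) with hcc
  set N : Matrix (({i : ι // i ∈ P} × {j : ι // j ∉ P}) × L)
      (({i : ι // i ∈ P} × {j : ι // j ∉ P}) × L) (L → O) :=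
    fun b a => (if b = a then cc a else 0) - z a b with hN
  have hccT : ∀ a, cc a ∈ T := fun a => T.algebraMap_mem _
  have hsum : ∀ a, ∑ b, x b.1.1.1 b.1.2.1 b.2 * N b a = 0 := by
    intro a
    simp only [hN, mul_sub, Finset.sum_sub_distrib, mul_ite, mul_zero]
    rw [Finset.sum_ite_eq' Finset.univ a, if_pos (Finset.mem_univ _), ← hz3 a, hcc]
    simp only
    rw [mul_comm, ← Algebra.smul_def, sub_self]
  have hdet : N.det = 0 := by
    funext l
    have h1 : (Pi.evalRingHom (fun _ : L => O) l) N.det =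
        ((Pi.evalRingHom (fun _ : L => O) l).mapMatrix N).det := RingHom.map_det _ _
    have h2 : ((Pi.evalRingHom (fun _ : L => O) l).mapMatrix N).det = 0 := by
      rw [← Matrix.exists_vecMul_eq_zero_iff]
      refine ⟨fun b => x b.1.1.1 b.1.2.1 b.2 l, ?_, ?_⟩
      · intro h0
        obtain ⟨i, hi, j, hj, w, hwA, hwl⟩ := hne l
        obtain ⟨a, ha⟩ := hgen i j (hne' ⟨i, hi⟩ ⟨j, hj⟩) w hwA
        apply hwl
        rw [ha, Finset.sum_apply]
        apply Finset.sum_eq_zero
        intro α _
        have h3 := congrFun h0 (((⟨i, hi⟩, ⟨j, hj⟩), α) :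
          ({i : ι // i ∈ P} × {j : ι // j ∉ P}) × L)
        simp only [Pi.zero_apply] at h3
        rw [Pi.smul_apply, h3, smul_zero]
      · funext a
        have h3 := congrFun (hsum a) l
        rw [Finset.sum_apply] at h3
        simp only [Matrix.vecMul, dotProduct, RingHom.mapMatrix_apply, Matrix.map_apply,
          Pi.evalRingHom_apply, Pi.zero_apply]
        simpa using h3
    rw [h2] at h1
    simpa using h1
  -- products in the second algebra
  have hmul2 : ∀ p q r : {i : ι // i ∈ P} × {j : ι // j ∉ P}, ∀ y y' : L → O,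
      y ∈ A2 A p q → y' ∈ A2 A q r → y * y' ∈ A2 A p r := by
    intro p q r y y' hy hy'
    unfold A2 at hy
    induction hy using Submodule.span_induction with
    | mem y hy =>
      unfold A2 at hy'
      induction hy' using Submodule.span_induction with
      | mem y' hy' =>
        obtain ⟨a, ha, b, hb, rfl⟩ := hy
        obtain ⟨a', ha', b', hb', rfl⟩ := hy'
        refine Submodule.subset_span ⟨a' * a, hmul _ _ _ _ _ ha' ha, b * b',
          hmul _ _ _ _ _ hb hb', ?_⟩
        ring
      | zero =>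
        rw [mul_zero]
        exact Submodule.zero_mem _
      | add y1 y2 _ _ h1 h2 =>
        rw [mul_add]
        exact Submodule.add_mem _ h1 h2
      | smul r y1 _ h1 =>
        rw [mul_smul_comm]
        exact Submodule.smul_mem _ _ h1
    | zero =>
      rw [zero_mul]
      exact Submodule.zero_mem _
    | add y1 y2 _ _ h1 h2 =>
      rw [add_mul]
      exact Submodule.add_mem _ h1 h2
    | smul r y1 _ h1 =>
      rw [smul_mul_assoc]
      exact Submodule.smul_mem _ _ h1
  have hdiag2 : ∀ p : {i : ι // i ∈ P} × {j : ι // j ∉ P}, ∀ y ∈ A2 A p p, y ∈ T := by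
    intro p y hy
    unfold A2 at hy
    induction hy using Submodule.span_induction with
    | mem y hy =>
      obtain ⟨a, ha, b, hb, rfl⟩ := hy
      exact T.mul_mem ((hdiag _ _).1 ha) ((hdiag _ _).1 hb)
    | zero => exact T.zero_mem
    | add y1 y2 _ _ h1 h2 => exact T.add_mem h1 h2
    | smul r y1 _ h1 => exact T.smul_mem h1 r
  have hJ2 : ∀ p q : {i : ι // i ∈ P} × {j : ι // j ∉ P}, p ≠ q → ∀ y ∈ A2 A p q,
      ∀ y' ∈ A2 A q p, InJ π (y * y') := by
    intro p q hpq y hy y' hy'
    unfold A2 at hy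
    induction hy using Submodule.span_induction with
    | mem y hy =>
      unfold A2 at hy'
      induction hy' using Submodule.span_induction with
      | mem y' hy' =>
        obtain ⟨a, ha, b, hb, rfl⟩ := hy
        obtain ⟨a', ha', b', hb', rfl⟩ := hy'
        by_cases h1 : p.1.1 = q.1.1
        · have h2 : p.2.1 ≠ q.2.1 := by
            intro h2
            exact hpq (Prod.ext (Subtype.ext h1) (Subtype.ext h2))
          have h3 : InJ π (b * b') := hJ _ _ h2 b hb b' hb'
          have h4 : a * a' ∈ T := (hdiag _ _).1 (hmul _ _ _ _ _ ha ha')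
          have h5 : a * b * (a' * b') = (a * a') * (b * b') := by ring
          rw [h5]
          exact inJ_mul π h4 h3
        · have h3 : InJ π (a * a') := hJ _ _ (fun h => h1 h.symm) a ha a' ha'
          have h4 : b * b' ∈ T := (hdiag _ _).1 (hmul _ _ _ _ _ hb hb')
          have h5 : a * b * (a' * b') = (b * b') * (a * a') := by ring
          rw [h5]
          exact inJ_mul π h4 h3
      | zero =>
        rw [mul_zero]
        exact inJ_zero π
      | add y1 y2 _ _ h1 h2 =>
        rw [mul_add]
        exact inJ_add π h1 h2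
      | smul r y1 _ h1 =>
        rw [mul_smul_comm]
        exact inJ_smul π _ h1
    | zero =>
      rw [zero_mul]
      exact inJ_zero π
    | add y1 y2 _ _ h1 h2 =>
      rw [add_mul]
      exact inJ_add π h1 h2
    | smul r y1 _ h1 =>
      rw [smul_mul_assoc]
      exact inJ_smul π _ h1
  -- step (3)
  have hfin := h_DET (L → O) T.toSubring (INEQ_.J π) (fun y hy => hy.1)
    (fun t ht y hy => inJ_mul π ht hy) ({i : ι // i ∈ P} × {j : ι // j ∉ P})
    (fun a b => (A2 A a b).toAddSubgroup)
    (fun a b k y y' hy hy' => hmul2 a b k y y' hy hy')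
    (fun a y hy => hdiag2 a y hy) (fun a b hab y hy y' hy' => hJ2 a b hab y hy y' hy')
    (({i : ι // i ∈ P} × {j : ι // j ∉ P}) × L) (fun b => b.1) N cc
    (by
      intro b a
      simp only [hN]
      by_cases hba : b = a
      · rw [if_pos hba]
        refine (A2 A b.1 a.1).sub_mem ?_ (hz1 a b)
        rw [hba]
        refine Submodule.subset_span ⟨1, hone _, cc a, (hdiag _ _).2 (hccT a), ?_⟩
        rw [one_mul]
      · rw [if_neg hba]
        exact (A2 A b.1 a.1).sub_mem (A2 A b.1 a.1).zero_mem (hz1 a b))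
    hccT
    (by
      intro a
      simp only [hN, if_true]
      rw [sub_sub_cancel_left]
      exact inJ_neg π (hz2 a a rfl))
    (by
      intro b a hba hβ
      simp only [hN]
      rw [if_neg hba, zero_sub]
      exact inJ_neg π (hz2 a b hβ))
  rw [hdet, zero_sub] at hfin
  have h4 : InJ π (∏ a, cc a) := by
    have := inJ_neg π hfin
    rwa [neg_neg] at this
  have h5 : ∏ a, cc a = algebraMap O (L → O)
      (ϖ ^ ∑ a : ({i : ι // i ∈ P} × {j : ι // j ∉ P}) × L, c a.1.1.1 a.1.2.1 a.2) := by
    rw [hcc, ← map_prod, Finset.prod_pow_eq_pow_sum]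
  rw [h5] at h4
  obtain ⟨h6, h7⟩ := h4
  have h8 : (⟨algebraMap O (L → O)
      (ϖ ^ ∑ a : ({i : ι // i ∈ P} × {j : ι // j ∉ P}) × L, c a.1.1.1 a.1.2.1 a.2), h6⟩ : T) =
      algebraMap O T
        (ϖ ^ ∑ a : ({i : ι // i ∈ P} × {j : ι // j ∉ P}) × L, c a.1.1.1 a.1.2.1 a.2) := rfl
  rw [h8, AlgHom.commutes] at h7
  have h9 : ϖ ^ m ∣
      ϖ ^ ∑ a : ({i : ι // i ∈ P} × {j : ι // j ∉ P}) × L, c a.1.1.1 a.1.2.1 a.2 := by
    have h10 : Ideal.Quotient.mk (Ideal.span ({ϖ ^ m} : Set O))
        (ϖ ^ ∑ a : ({i : ι // i ∈ P} × {j : ι // j ∉ P}) × L, c a.1.1.1 a.1.2.1 a.2) = 0 := h7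
    rw [Ideal.Quotient.eq_zero_iff_mem, Ideal.mem_span_singleton] at h10
    exact h10
  have h11 := (pow_dvd_pow_iff hϖ.ne_zero hϖ.not_isUnit).1 h9
  refine h11.trans (le_of_eq ?_)
  rw [Fintype.sum_prod_type, Fintype.sum_prod_type]
  rw [Finset.sum_subtype P (p := fun i => i ∈ P) (fun i => Iff.rfl)
    (fun i => ∑ j ∈ Pᶜ, ∑ α, c i j α)]
  refine Finset.sum_congr rfl fun i _ => ?_
  rw [Finset.sum_subtype Pᶜ (p := fun j => j ∉ P) (fun j => by simp)
    (fun j => ∑ α, c i.1 j α)]

end CUT_

end Pool.Agent.RTL
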