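import Mathlib

/-!
# Definitions for the sum rule for Selmer groups in Ribet's lemma

Everything is over a commutative ring `O` with an element `ϖ` (in the theorem: a complete discrete
valuation ring with uniformizer `ϖ`) and a group `G`.  A representation of `G` on a free
`O`-module of rank `a` is given by a homomorphism from `G` to the `a × a` matrices over `O`.
-/

namespace Pool.Agent.RTL

universe u v

open Matrix

section Defs

variable {O : Type u} [CommRing O] {G : Type v} [Group G]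

/-- The quotient ring `O / (ϖ ^ m)`. -/
abbrev Quo (ϖ : O) (m : ℕ) : Type u := O ⧸ Ideal.span ({ϖ ^ m} : Set O)

/-- Reduction of a matrix modulo `ϖ ^ m`. -/
def red (ϖ : O) (m : ℕ) {a b : Type*} (M : Matrix a b O) : Matrix a b (Quo ϖ m) :=
  M.map (Ideal.Quotient.mk (Ideal.span ({ϖ ^ m} : Set O)))

lemma red_mul (ϖ : O) (m : ℕ) {a b c : Type*} [Fintype b] (M : Matrix a b O) (N : Matrix b c O) :
    red ϖ m (M * N) = red ϖ m M * red ϖ m N := by
  simp [red, Matrix.map_mul]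

lemma red_one (ϖ : O) (m : ℕ) {a : Type*} [DecidableEq a] :
    red ϖ m (1 : Matrix a a O) = 1 := by
  simp [red]

/-- The condition `z(g h) = τ(g) z(h) + z(g) τ'(h)`. -/
def IsCocycle (ϖ : O) (m : ℕ) {a b : ℕ} (τ : G →* Matrix (Fin a) (Fin a) O)
    (τ' : G →* Matrix (Fin b) (Fin b) O) (z : G → Matrix (Fin a) (Fin b) (Quo ϖ m)) : Prop :=
  ∀ g h, z (g * h) = red ϖ m (τ g) * z h + z g * red ϖ m (τ' h)

/-- The condition `z(g) = τ(g) X - X τ'(g)` for some `X`. -/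
def IsCoboundary (ϖ : O) (m : ℕ) {a b : ℕ} (τ : G →* Matrix (Fin a) (Fin a) O)
    (τ' : G →* Matrix (Fin b) (Fin b) O) (z : G → Matrix (Fin a) (Fin b) (Quo ϖ m)) : Prop :=
  ∃ X : Matrix (Fin a) (Fin b) (Quo ϖ m), ∀ g, z g = red ϖ m (τ g) * X - X * red ϖ m (τ' g)

theorem IsCocycle.add (ϖ : O) (m : ℕ) {a b : ℕ} (τ : G →* Matrix (Fin a) (Fin a) O)
    (τ' : G →* Matrix (Fin b) (Fin b) O) {z w : G → Matrix (Fin a) (Fin b) (Quo ϖ m)}
    (hz : IsCocycle ϖ m τ τ' z) (hw : IsCocycle ϖ m τ τ' w) : IsCocycle ϖ m τ τ' (z + w) := by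
  intro g h
  have hz' := hz g h
  have hw' := hw g h
  simp only [Pi.add_apply] at *
  rw [hz', hw', Matrix.mul_add, Matrix.add_mul]
  abel

theorem IsCocycle.zero (ϖ : O) (m : ℕ) {a b : ℕ} (τ : G →* Matrix (Fin a) (Fin a) O)
    (τ' : G →* Matrix (Fin b) (Fin b) O) :
    IsCocycle ϖ m τ τ' (0 : G → Matrix (Fin a) (Fin b) (Quo ϖ m)) := by
  intro g h
  simp

theorem IsCocycle.smul (ϖ : O) (m : ℕ) {a b : ℕ} (τ : G →* Matrix (Fin a) (Fin a) O)
    (τ' : G →* Matrix (Fin b) (Fin b) O) (c : O) {z : G → Matrix (Fin a) (Fin b) (Quo ϖ m)}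
    (hz : IsCocycle ϖ m τ τ' z) : IsCocycle ϖ m τ τ' (c • z) := by
  intro g h
  have hz' := hz g h
  simp only [Pi.smul_apply] at *
  rw [hz', smul_add, Matrix.mul_smul, Matrix.smul_mul]

theorem IsCoboundary.add (ϖ : O) (m : ℕ) {a b : ℕ} (τ : G →* Matrix (Fin a) (Fin a) O)
    (τ' : G →* Matrix (Fin b) (Fin b) O) {z w : G → Matrix (Fin a) (Fin b) (Quo ϖ m)}
    (hz : IsCoboundary ϖ m τ τ' z) (hw : IsCoboundary ϖ m τ τ' w) :
    IsCoboundary ϖ m τ τ' (z + w) := by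
  obtain ⟨X, hX⟩ := hz
  obtain ⟨Y, hY⟩ := hw
  refine ⟨X + Y, fun g => ?_⟩
  rw [Pi.add_apply, hX, hY, Matrix.mul_add, Matrix.add_mul]
  abel

theorem IsCoboundary.zero (ϖ : O) (m : ℕ) {a b : ℕ} (τ : G →* Matrix (Fin a) (Fin a) O)
    (τ' : G →* Matrix (Fin b) (Fin b) O) :
    IsCoboundary ϖ m τ τ' (0 : G → Matrix (Fin a) (Fin b) (Quo ϖ m)) :=
  ⟨0, fun g => by simp⟩

theorem IsCoboundary.smul (ϖ : O) (m : ℕ) {a b : ℕ} (τ : G →* Matrix (Fin a) (Fin a) O)
    (τ' : G →* Matrix (Fin b) (Fin b) O) (c : O) {z : G → Matrix (Fin a) (Fin b) (Quo ϖ m)}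
    (hz : IsCoboundary ϖ m τ τ' z) : IsCoboundary ϖ m τ τ' (c • z) := by
  obtain ⟨X, hX⟩ := hz
  refine ⟨c • X, fun g => ?_⟩
  rw [Pi.smul_apply, hX, smul_sub, Matrix.mul_smul, Matrix.smul_mul]

/-- The cocycles of `G` with values in `Hom(τ', τ)` modulo `ϖ ^ m`, written in the form
`z(g h) = τ(g) z(h) + z(g) τ'(h)` (so that `z(g) τ'(g)⁻¹` is an ordinary cocycle). -/
def Z1 (ϖ : O) (m : ℕ) {a b : ℕ} (τ : G →* Matrix (Fin a) (Fin a) O)
    (τ' : G →* Matrix (Fin b) (Fin b) O) :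
    Submodule O (G → Matrix (Fin a) (Fin b) (Quo ϖ m)) where
  carrier := {z | IsCocycle ϖ m τ τ' z}
  add_mem' := IsCocycle.add ϖ m τ τ'
  zero_mem' := IsCocycle.zero ϖ m τ τ'
  smul_mem' := IsCocycle.smul ϖ m τ τ'

/-- The coboundaries `z(g) = τ(g) X - X τ'(g)`. -/
def B1 (ϖ : O) (m : ℕ) {a b : ℕ} (τ : G →* Matrix (Fin a) (Fin a) O)
    (τ' : G →* Matrix (Fin b) (Fin b) O) :
    Submodule O (G → Matrix (Fin a) (Fin b) (Quo ϖ m)) where
  carrier := {z | IsCoboundary ϖ m τ τ' z}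
  add_mem' := IsCoboundary.add ϖ m τ τ'
  zero_mem' := IsCoboundary.zero ϖ m τ τ'
  smul_mem' := IsCoboundary.smul ϖ m τ τ'

/-- `H¹(G, Hom(τ', τ) / ϖ ^ m)`: cocycles modulo coboundaries. -/
abbrev H1 (ϖ : O) (m : ℕ) {a b : ℕ} (τ : G →* Matrix (Fin a) (Fin a) O)
    (τ' : G →* Matrix (Fin b) (Fin b) O) : Type (max u v) :=
  (Z1 ϖ m τ τ') ⧸ ((B1 ϖ m τ τ').submoduleOf (Z1 ϖ m τ τ'))

section Maps

variable {R : Type u} [CommRing R] [Algebra O R] {a b : ℕ}

/-- The map `(x, y) ↦ (A x + Z y, B y)`. -/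
def blockFun (A : Matrix (Fin a) (Fin a) R) (Z : Matrix (Fin a) (Fin b) R)
    (B : Matrix (Fin b) (Fin b) R) (p : (Fin a → R) × (Fin b → R)) :
    (Fin a → R) × (Fin b → R) :=
  (A *ᵥ p.1 + Z *ᵥ p.2, B *ᵥ p.2)

theorem blockFun_add (A : Matrix (Fin a) (Fin a) R) (Z : Matrix (Fin a) (Fin b) R)
    (B : Matrix (Fin b) (Fin b) R) (p q : (Fin a → R) × (Fin b → R)) :
    blockFun A Z B (p + q) = blockFun A Z B p + blockFun A Z B q := by
  unfold blockFun
  ext i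
  · simp only [Prod.fst_add, Prod.snd_add, Matrix.mulVec_add, Pi.add_apply]
    ring
  · simp only [Prod.snd_add, Matrix.mulVec_add, Pi.add_apply]

theorem blockFun_smul (A : Matrix (Fin a) (Fin a) R) (Z : Matrix (Fin a) (Fin b) R)
    (B : Matrix (Fin b) (Fin b) R) (c : O) (p : (Fin a → R) × (Fin b → R)) :
    blockFun A Z B (c • p) = (RingHom.id O) c • blockFun A Z B p := by
  unfold blockFun
  ext i
  · simp [Matrix.mulVec_smul, smul_add]
  · simp [Matrix.mulVec_smul]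

theorem mulVec_csmul (A : Matrix (Fin a) (Fin a) R) (c : O) (p : Fin a → R) :
    A *ᵥ (c • p) = (RingHom.id O) c • (A *ᵥ p) := by
  simp [Matrix.mulVec_smul]

end Maps

/-- The map `(x, y) ↦ (τ(g) x + z(g) y, τ'(g) y)`. -/
def extLin (ϖ : O) (m : ℕ) {a b : ℕ} (τ : G →* Matrix (Fin a) (Fin a) O)
    (τ' : G →* Matrix (Fin b) (Fin b) O) (z : G → Matrix (Fin a) (Fin b) (Quo ϖ m)) (g : G) :
    ((Fin a → Quo ϖ m) × (Fin b → Quo ϖ m)) →ₗ[O] ((Fin a → Quo ϖ m) × (Fin b → Quo ϖ m)) where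
  toFun := fun p => (red ϖ m (τ g) *ᵥ p.1 + z g *ᵥ p.2, red ϖ m (τ' g) *ᵥ p.2)
  map_add' := blockFun_add (red ϖ m (τ g)) (z g) (red ϖ m (τ' g))
  map_smul' := blockFun_smul (red ϖ m (τ g)) (z g) (red ϖ m (τ' g))

theorem extLin_one (ϖ : O) (m : ℕ) {a b : ℕ} (τ : G →* Matrix (Fin a) (Fin a) O)
    (τ' : G →* Matrix (Fin b) (Fin b) O) (z : Z1 ϖ m τ τ') :
    extLin ϖ m τ τ' z.1 1 = 1 := by
  have h1 : z.1 1 = 0 := by
    have h := z.2 1 1
    simp only [mul_one, map_one, red_one, Matrix.one_mul, Matrix.mul_one] at h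
    simpa using h
  refine LinearMap.ext fun p => ?_
  ext i <;> simp [extLin, h1, red_one]

theorem extLin_mul (ϖ : O) (m : ℕ) {a b : ℕ} (τ : G →* Matrix (Fin a) (Fin a) O)
    (τ' : G →* Matrix (Fin b) (Fin b) O) (z : Z1 ϖ m τ τ') (g h : G) :
    extLin ϖ m τ τ' z.1 (g * h) = extLin ϖ m τ τ' z.1 g * extLin ϖ m τ τ' z.1 h := by
  refine LinearMap.ext fun p => ?_
  have h1 : z.1 (g * h) = red ϖ m (τ g) * z.1 h + z.1 g * red ϖ m (τ' h) := z.2 g h
  refine Prod.ext ?_ ?_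
  · change red ϖ m (τ (g * h)) *ᵥ p.1 + z.1 (g * h) *ᵥ p.2 =
      red ϖ m (τ g) *ᵥ (red ϖ m (τ h) *ᵥ p.1 + z.1 h *ᵥ p.2) +
        z.1 g *ᵥ (red ϖ m (τ' h) *ᵥ p.2)
    rw [h1, map_mul, red_mul, Matrix.mulVec_add, Matrix.add_mulVec, Matrix.mulVec_mulVec,
      Matrix.mulVec_mulVec, Matrix.mulVec_mulVec]
    abel
  · change red ϖ m (τ' (g * h)) *ᵥ p.2 = red ϖ m (τ' g) *ᵥ (red ϖ m (τ' h) *ᵥ p.2)
    rw [map_mul, red_mul, Matrix.mulVec_mulVec]

/-- The extension of `τ' mod ϖ ^ m` by `τ mod ϖ ^ m` belonging to a cocycle `z`: the group acts on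
the pairs by `g (x, y) = (τ(g) x + z(g) y, τ'(g) y)`. -/
def extRep (ϖ : O) (m : ℕ) {a b : ℕ} (τ : G →* Matrix (Fin a) (Fin a) O)
    (τ' : G →* Matrix (Fin b) (Fin b) O) (z : Z1 ϖ m τ τ') :
    Representation O G ((Fin a → Quo ϖ m) × (Fin b → Quo ϖ m)) where
  toFun := extLin ϖ m τ τ' z.1
  map_one' := extLin_one ϖ m τ τ' z
  map_mul' := extLin_mul ϖ m τ τ' z

/-- The map `x ↦ σ(g) x` modulo `ϖ ^ r`. -/
def latLin (ϖ : O) (r : ℕ) {a : ℕ} (σ : G →* Matrix (Fin a) (Fin a) O) (g : G) :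
    (Fin a → Quo ϖ r) →ₗ[O] (Fin a → Quo ϖ r) where
  toFun := fun p => red ϖ r (σ g) *ᵥ p
  map_add' := Matrix.mulVec_add (red ϖ r (σ g))
  map_smul' := mulVec_csmul (red ϖ r (σ g))

theorem latLin_one (ϖ : O) (r : ℕ) {a : ℕ} (σ : G →* Matrix (Fin a) (Fin a) O) :
    latLin ϖ r σ 1 = 1 := by
  refine LinearMap.ext fun p => ?_
  ext i
  simp [latLin, red_one]

theorem latLin_mul (ϖ : O) (r : ℕ) {a : ℕ} (σ : G →* Matrix (Fin a) (Fin a) O) (g h : G) :
    latLin ϖ r σ (g * h) = latLin ϖ r σ g * latLin ϖ r σ h := by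
  refine LinearMap.ext fun p => ?_
  change red ϖ r (σ (g * h)) *ᵥ p = red ϖ r (σ g) *ᵥ (red ϖ r (σ h) *ᵥ p)
  rw [map_mul, red_mul, Matrix.mulVec_mulVec]

/-- The representation `σ mod ϖ ^ r`. -/
def latRep (ϖ : O) (r : ℕ) {a : ℕ} (σ : G →* Matrix (Fin a) (Fin a) O) :
    Representation O G (Fin a → Quo ϖ r) where
  toFun := latLin ϖ r σ
  map_one' := latLin_one ϖ r σ
  map_mul' := latLin_mul ϖ r σ

end Defs

/-- A class of `O`-linear representations of `G` (a predicate on representations). -/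
abbrev RepClass (O : Type u) [CommRing O] (G : Type v) [Group G] :=
  ∀ (M : Type u) [AddCommGroup M] [Module O M], Representation O G M → Prop

/-- The class is closed under subobjects, quotients and products of two objects. -/
structure RepClass.Closed {O : Type u} [CommRing O] {G : Type v} [Group G]
    (C : RepClass O G) : Prop where
  sub : ∀ (M M' : Type u) [AddCommGroup M] [Module O M] [AddCommGroup M'] [Module O M']
    (ρ : Representation O G M) (ρ' : Representation O G M') (f : M →ₗ[O] M'),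
    Function.Injective f → (∀ g x, f (ρ g x) = ρ' g (f x)) → C M' ρ' → C M ρ
  quot : ∀ (M M' : Type u) [AddCommGroup M] [Module O M] [AddCommGroup M'] [Module O M']
    (ρ : Representation O G M) (ρ' : Representation O G M') (f : M →ₗ[O] M'),
    Function.Surjective f → (∀ g x, f (ρ g x) = ρ' g (f x)) → C M ρ → C M' ρ'
  prod : ∀ (M M' : Type u) [AddCommGroup M] [Module O M] [AddCommGroup M'] [Module O M']
    (ρ : Representation O G M) (ρ' : Representation O G M'),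
    C M ρ → C M' ρ' → C (M × M') (ρ.prod ρ')

section Hyp

variable {O : Type u} [CommRing O] {G : Type v} [Group G]

/-- `τ mod ϖ` is absolutely irreducible, in Burnside's form: its values span all matrices
modulo `ϖ`. -/
def ResAbsIrr (ϖ : O) {a : ℕ} (τ : G →* Matrix (Fin a) (Fin a) O) : Prop :=
  ∀ M : Matrix (Fin a) (Fin a) O, ∃ c : G →₀ O,
    ∀ s t, ϖ ∣ (c.sum (fun g x => x • τ g) - M) s t

/-- There is no nonzero intertwiner from `τ' mod ϖ` to `τ mod ϖ`. -/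
def ResDisjoint (ϖ : O) {a b : ℕ} (τ : G →* Matrix (Fin a) (Fin a) O)
    (τ' : G →* Matrix (Fin b) (Fin b) O) : Prop :=
  ∀ X : Matrix (Fin a) (Fin b) O, (∀ g s t, ϖ ∣ (τ g * X - X * τ' g) s t) → ∀ s t, ϖ ∣ X s t

/-- The forms `σ l` are jointly congruent to the sum of the `τ i` with total depth `m`: every
polynomial identity over `O` which holds for the trace functions of all forms holds modulo
`ϖ ^ m` for the sum of the trace functions of the `τ i`.  Equivalently: let `T` be the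
`O`-subalgebra of the product of copies of `O` (one for each form) generated by the vectors
`(tr σ_l(g))_l`; then there is a homomorphism of `O`-algebras from `T` to `O / ϖ ^ m` which sends
this vector to `∑ i, tr τ_i(g)`.  For one form: `tr σ(g) ≡ ∑ i, tr τ_i(g)` modulo `ϖ ^ m`. -/
def TotalDepth (ϖ : O) (m : ℕ) {L ι : Type} [Fintype ι] {N : ℕ} {n : ι → ℕ}
    (σ : L → G →* Matrix (Fin N) (Fin N) O)
    (τ : (i : ι) → G →* Matrix (Fin (n i)) (Fin (n i)) O) : Prop :=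
  ∀ P : MvPolynomial G O,
    (∀ l, MvPolynomial.eval (fun g => (σ l g).trace) P = 0) →
      ϖ ^ m ∣ MvPolynomial.eval (fun g => ∑ i, (τ i g).trace) P

/-- `σ` has no nonzero homomorphism to a representation which lifts `τ mod ϖ` (for instance,
`σ` is irreducible over the fraction field and has larger rank than `τ`). -/
def NoQuotient (ϖ : O) {N a : ℕ} (σ : G →* Matrix (Fin N) (Fin N) O)
    (τ : G →* Matrix (Fin a) (Fin a) O) : Prop :=
  ∀ (φ : Matrix (Fin a) (Fin N) O) (ψ : G →* Matrix (Fin a) (Fin a) O),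
    (∀ g, φ * σ g = ψ g * φ) → (∀ g s t, ϖ ∣ (ψ g - τ g) s t) → φ = 0

end Hyp

end Pool.Agent.RTL
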