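import Pool.Agent.RTL.Cut

/-! # Assembly of the main theorem from the targets -/

set_option autoImplicit false

namespace Pool.Agent.RTL

universe u v w

open Matrix

namespace MAIN_

/-- conjugation of an algebra homomorphism to matrices -/
noncomputable def conjHom {O C : Type u} [CommRing O] [CommRing C] [Algebra O C] {R : Type w}
    [Ring R] [Algebra O R]
    {S : Type} [Fintype S] [DecidableEq S] (U V : Matrix S S C) (hUV : U * V = 1) (hVU : V * U = 1)
    (f : R →ₐ[O] Matrix S S C) : R →ₐ[O] Matrix S S C where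
  toFun a := V * f a * U
  map_one' := by simp [hVU]
  map_mul' a b := by
    rw [map_mul]
    calc V * (f a * f b) * U = V * f a * (1 : Matrix S S C) * (f b * U) := by
          simp only [Matrix.mul_assoc, Matrix.one_mul]
      _ = V * f a * U * (V * f b * U) := by
          rw [← hUV]
          simp only [Matrix.mul_assoc]
  map_zero' := by simp
  map_add' a b := by rw [map_add, Matrix.mul_add, Matrix.add_mul]
  commutes' r := by
    rw [AlgHom.commutes, Algebra.algebraMap_eq_smul_one, Matrix.mul_smul, Matrix.smul_mul,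
      Matrix.mul_one, hVU]

lemma conjHom_apply {O C : Type u} [CommRing O] [CommRing C] [Algebra O C] {R : Type w}
    [Ring R] [Algebra O R]
    {S : Type} [Fintype S] [DecidableEq S] (U V : Matrix S S C) (hUV : U * V = 1) (hVU : V * U = 1)
    (f : R →ₐ[O] Matrix S S C) (a : R) : conjHom U V hUV hVU f a = V * f a * U := rfl

/-- all forms together -/
def bigHom {O : Type u} [CommRing O] {G : Type v} [Group G] {L S : Type} [Fintype S]
    [DecidableEq S] {N : ℕ} (e : Fin N ≃ S) (σ : L → G →* Matrix (Fin N) (Fin N) O) :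
    G →* Matrix S S (L → O) where
  toFun g := Matrix.of fun p q l => σ l g (e.symm p) (e.symm q)
  map_one' := by
    ext p q l
    by_cases h : p = q
    · subst h
      rw [Matrix.of_apply, map_one, Matrix.one_apply_eq, Matrix.one_apply_eq]
      rfl
    · have : e.symm p ≠ e.symm q := fun h' => h (e.symm.injective h')
      simp [Matrix.one_apply_ne this, Matrix.one_apply_ne h]
  map_mul' g h := by
    ext p q l
    simp only [map_mul, Matrix.of_apply, Matrix.mul_apply, Finset.sum_apply, Pi.mul_apply]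
    exact (Equiv.sum_comp e.symm (fun x => σ l g (e.symm p) x * σ l h x (e.symm q))).symm

lemma bigHom_apply {O : Type u} [CommRing O] {G : Type v} [Group G] {L S : Type} [Fintype S]
    [DecidableEq S] {N : ℕ} (e : Fin N ≃ S) (σ : L → G →* Matrix (Fin N) (Fin N) O) (g : G)
    (p q : S) (l : L) : bigHom e σ g p q l = σ l g (e.symm p) (e.symm q) := rfl

/-- the reductions of the constituents -/
def tauHom {O : Type u} [CommRing O] (ϖ : O) (m : ℕ) {G : Type v} [Group G] {ι : Type}
    {n : ι → ℕ} (τ : (i : ι) → G →* Matrix (Fin (n i)) (Fin (n i)) O) :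
    G →* ((i : ι) → Matrix (Fin (n i)) (Fin (n i)) (Quo ϖ m)) where
  toFun g i := red ϖ m (τ i g)
  map_one' := by
    funext i
    simp [red_one]
  map_mul' g h := by
    funext i
    simp [red_mul]

end MAIN_

open MAIN_

theorem p_CUT (h_RES : T_RES.{u, v}) (h_FAC : T_FAC.{u, max u v}) (h_PI : T_PI.{u, v})
    (h_STR : T_STR.{u, max u v}) (h_GMA : T_GMA.{u, max u v})
    (h_DET : T_DET.{u}) (h_SNF : T_SNF.{u}) (h_DUAL : T_DUAL.{u}) (h_COC : T_COC.{u, v})
    (h_CLS : T_CLS.{u, v}) (h_LAT : T_LAT.{u, v}) : T_CUT.{u, v} := by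
  intro O _ _ _ ϖ hϖ hadic G _ C hC L ι _ _ _ _ n hn N hN σ τ hσ hirr hdis hres m hm hdepth
  have hϖ0 : ϖ ≠ 0 := hϖ.ne_zero
  have hcard : Fintype.card (Fin N) = Fintype.card (Idx n) := by
    simp [hN]
  let e : Fin N ≃ Idx n := Fintype.equivOfCardEq hcard
  let Sg0 : MonoidAlgebra O G →ₐ[O] Matrix (Idx n) (Idx n) (L → O) :=
    MonoidAlgebra.lift O _ G (bigHom e σ)
  let Ta : MonoidAlgebra O G →ₐ[O] ((i : ι) → Matrix (Fin (n i)) (Fin (n i)) (Quo ϖ m)) :=
    MonoidAlgebra.lift O _ G (tauHom ϖ m τ)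
  have hSg0 : ∀ g, Sg0 (MonoidAlgebra.of O G g) = bigHom e σ g := fun g =>
    MonoidAlgebra.lift_of _ _
  have hTa : ∀ g i, Ta (MonoidAlgebra.of O G g) i = red ϖ m (τ i g) := fun g i => by
    have : Ta (MonoidAlgebra.of O G g) = tauHom ϖ m τ g := MonoidAlgebra.lift_of _ _
    rw [this]
    rfl
  -- surjectivity
  have hsurj : Function.Surjective Ta := by
    intro b
    choose b' hb' using fun i s t => Ideal.Quotient.mk_surjective (b i s t)
    obtain ⟨c, hc⟩ := h_RES O ϖ hϖ G ι n hn τ hirr hdis m (fun i => Matrix.of (b' i))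
    refine ⟨MonoidAlgebra.ofCoeff c, ?_⟩
    have h1 : Ta (MonoidAlgebra.ofCoeff c) = c.sum fun g x => x • tauHom ϖ m τ g :=
      MonoidAlgebra.lift_apply _ _
    rw [h1]
    funext i
    ext s t
    have h2 := hc i s t
    rw [Matrix.sub_apply, ← Ideal.mem_span_singleton, ← Ideal.Quotient.eq] at h2
    rw [Matrix.of_apply, hb'] at h2
    rw [← h2]
    simp only [Finsupp.sum, Finset.sum_apply, Matrix.sum_apply, Pi.smul_apply, Matrix.smul_apply,
      map_sum, smul_eq_mul, map_mul]
    refine Finset.sum_congr rfl fun g _ => ?_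
    rw [Algebra.smul_def]
    rfl
  -- the Hecke algebra
  obtain ⟨T, π, hπ1, hπ2⟩ := h_PI O ϖ m G L (fun g l => (σ l g).trace)
    (fun g => ∑ i, (τ i g).trace) hdepth hres
  have htr0 : ∀ g, (bigHom e σ g).trace = fun l => (σ l g).trace := by
    intro g
    funext l
    simp only [Matrix.trace, Matrix.diag_apply, Finset.sum_apply, bigHom_apply]
    exact Equiv.sum_comp e.symm (fun x => σ l g x x)
  have hTr0 : ∀ a, ∃ h : (Sg0 a).trace ∈ T,
      π ⟨(Sg0 a).trace, h⟩ = ∑ i, (Ta a i).trace := by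
    intro a
    induction a using MonoidAlgebra.induction_linear with
    | zero =>
      refine ⟨by simp, ?_⟩
      have : (⟨(Sg0 0).trace, by simp⟩ : T) = 0 := by
        ext1
        simp
      rw [this]
      simp
    | add a b ha hb =>
      obtain ⟨h1, h1'⟩ := ha
      obtain ⟨h2, h2'⟩ := hb
      have h3 : (Sg0 (a + b)).trace = (Sg0 a).trace + (Sg0 b).trace := by
        rw [map_add, Matrix.trace_add]
      have h4 : (Sg0 (a + b)).trace ∈ T := by
        rw [h3]
        exact T.add_mem h1 h2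
      refine ⟨h4, ?_⟩
      have : (⟨(Sg0 (a + b)).trace, h4⟩ : T) = ⟨(Sg0 a).trace, h1⟩ + ⟨(Sg0 b).trace, h2⟩ := by
        ext1
        exact h3
      rw [this, map_add, h1', h2', ← Finset.sum_add_distrib]
      refine Finset.sum_congr rfl fun i _ => ?_
      rw [map_add, Pi.add_apply, Matrix.trace_add]
    | single g x =>
      obtain ⟨h1, h1'⟩ := hπ1 g
      have e1 : Sg0 (MonoidAlgebra.single g x) = x • bigHom e σ g :=
        MonoidAlgebra.lift_single _ _ _
      have e2 : Ta (MonoidAlgebra.single g x) = x • tauHom ϖ m τ g :=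
        MonoidAlgebra.lift_single _ _ _
      have h3 : (Sg0 (MonoidAlgebra.single g x)).trace = x • fun l => (σ l g).trace := by
        rw [e1, Matrix.trace_smul, htr0]
      have h4 : (Sg0 (MonoidAlgebra.single g x)).trace ∈ T := by
        rw [h3]
        exact T.smul_mem h1 x
      refine ⟨h4, ?_⟩
      have : (⟨(Sg0 (MonoidAlgebra.single g x)).trace, h4⟩ : T) =
          x • ⟨fun l => (σ l g).trace, h1⟩ := by
        ext1
        exact h3
      rw [this, map_smul, h1', e2]
      have h5 : ∀ i, ((x • tauHom ϖ m τ g) i).trace =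
          x • Ideal.Quotient.mk (Ideal.span {ϖ ^ m}) ((τ i g).trace) := by
        intro i
        rw [Pi.smul_apply, Matrix.trace_smul]
        congr 1
        simp [Matrix.trace, tauHom, red]
      simp only [h5]
      rw [← Finset.smul_sum, map_sum]
  have hker0 : ∀ a, Sg0 a = 0 → Ta a = 0 :=
    h_FAC O ϖ m L ι n _ Sg0 Ta T π hsurj hTr0
  have hresid0 : ∀ (a : MonoidAlgebra O G) (l : L),
      ∃ y : O, Ideal.Quotient.mk _ y = ∑ i, (Ta a i).trace ∧ ϖ ∣ (Sg0 a).trace l - y := by
    intro a l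
    obtain ⟨h1, h2⟩ := hTr0 a
    obtain ⟨y, hy1, hy2⟩ := hπ2 ⟨_, h1⟩ l
    exact ⟨y, by rw [hy1, h2], hy2⟩
  obtain ⟨U, V, hUV, hVU, hunit⟩ := h_STR O ϖ hϖ hadic m hm L ι n hn _ Sg0 Ta hsurj hker0
    hresid0
  let Sg : MonoidAlgebra O G →ₐ[O] Matrix (Idx n) (Idx n) (L → O) := conjHom U V hUV hVU Sg0
  have hSg : ∀ a, Sg a = V * Sg0 a * U := fun a => rfl
  have hker : ∀ a, Sg a = 0 → Ta a = 0 := by
    intro a ha
    apply hker0
    have : Sg0 a = U * Sg a * V := by
      rw [hSg]
      calc Sg0 a = (U * V) * Sg0 a * (U * V) := by rw [hUV, Matrix.one_mul, Matrix.mul_one]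
        _ = U * (V * Sg0 a * U) * V := by simp only [Matrix.mul_assoc]
    rw [this, ha, Matrix.mul_zero, Matrix.zero_mul]
  have htrace : ∀ a, (Sg a).trace = (Sg0 a).trace := by
    intro a
    rw [hSg, Matrix.trace_mul_comm, ← Matrix.mul_assoc, hUV, Matrix.one_mul]
  have hTr : ∀ a, ∃ h : (Sg a).trace ∈ T,
      π ⟨(Sg a).trace, h⟩ = ∑ i, (Ta a i).trace := by
    intro a
    obtain ⟨h1, h2⟩ := hTr0 a
    have h3 : (Sg a).trace ∈ T := by
      rw [htrace]
      exact h1
    refine ⟨h3, ?_⟩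
    rw [← h2]
    congr 1
    ext1
    exact htrace a
  obtain ⟨A, hmul, hdiag, hoff, hent, hentd, hspan⟩ := h_GMA O ϖ m L ι n hn _ Sg Ta T π hker hTr
    hunit
  let θ : G →* Matrix (Idx n) (Idx n) (L → O) :=
    (Sg : MonoidAlgebra O G →* Matrix (Idx n) (Idx n) (L → O)).comp (MonoidAlgebra.of O G)
  have hθ : ∀ g, θ g = Sg (MonoidAlgebra.of O G g) := fun g => rfl
  -- the matrices for one form
  let Ul : L → Matrix (Fin N) (Idx n) O := fun l => (U.map (fun c => c l)).submatrix e id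
  let Vl : L → Matrix (Idx n) (Fin N) O := fun l => (V.map (fun c => c l)).submatrix id e
  have hUVl : ∀ l, Ul l * Vl l = 1 := by
    intro l
    ext p q
    have h1 : (U * V) (e p) (e q) l = (1 : Matrix (Idx n) (Idx n) (L → O)) (e p) (e q) l := by
      rw [hUV]
    rw [Matrix.mul_apply, Finset.sum_apply] at h1
    rw [Matrix.mul_apply]
    calc ∑ x, Ul l p x * Vl l x q = ∑ x, (U (e p) x * V x (e q)) l := rfl
      _ = _ := by
        rw [h1]
        by_cases hpq : p = q
        · subst hpq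
          rw [Matrix.one_apply_eq, Matrix.one_apply_eq]
          rfl
        · have : e p ≠ e q := fun h => hpq (e.injective h)
          rw [Matrix.one_apply_ne this, Matrix.one_apply_ne hpq]
          rfl
  have hVUl : ∀ l, Vl l * Ul l = 1 := by
    intro l
    ext p q
    have h1 : (V * U) p q l = (1 : Matrix (Idx n) (Idx n) (L → O)) p q l := by
      rw [hVU]
    rw [Matrix.mul_apply, Finset.sum_apply] at h1
    rw [Matrix.mul_apply]
    calc ∑ x, Vl l p x * Ul l x q = ∑ x, (V p (e x) * U (e x) q) l := rfl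
      _ = ∑ x, (V p x * U x q) l := Equiv.sum_comp e (fun x => (V p x * U x q) l)
      _ = _ := by
        rw [h1]
        by_cases hpq : p = q
        · subst hpq
          rw [Matrix.one_apply_eq, Matrix.one_apply_eq]
          rfl
        · rw [Matrix.one_apply_ne hpq, Matrix.one_apply_ne hpq]
          rfl
  have hθl : ∀ l g, (θ g).map (fun c => c l) = Vl l * σ l g * Ul l := by
    intro l g
    ext p q
    rw [hθ, hSg, hSg0]
    simp only [Matrix.map_apply, Matrix.mul_apply, Finset.sum_apply, Pi.mul_apply,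
      bigHom_apply]
    rw [← Equiv.sum_comp e]
    refine Finset.sum_congr rfl fun x _ => ?_
    have h2 : (∑ j, V p j l * σ l g (e.symm j) (e.symm (e x))) =
        ∑ j, Vl l p j * σ l g j x := by
      rw [← Equiv.sum_comp e]
      refine Finset.sum_congr rfl fun y _ => ?_
      rw [Equiv.symm_apply_apply, Equiv.symm_apply_apply]
      rfl
    rw [h2]
    rfl
  have hbig : ∀ r, C _ (bigRep ϖ r θ) := fun r =>
    h_LAT O ϖ r G C hC L (Idx n) N σ (fun l => hσ l r) θ Ul Vl hUVl hVUl hθl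
  -- nonvanishing
  have hθent : ∀ g i s j t, θ g ⟨i, s⟩ ⟨j, t⟩ ∈ A i j := fun g i s j t => hent _ i s j t
  have hθd : ∀ g i s t, ∃ h : θ g ⟨i, s⟩ ⟨i, t⟩ ∈ T, π ⟨_, h⟩ = red ϖ m (τ i g) s t := by
    intro g i s t
    obtain ⟨h1, h2⟩ := hentd (MonoidAlgebra.of O G g) i s t
    refine ⟨h1, ?_⟩
    rw [← hTa g i]
    exact h2
  have hnz : ∀ P : Finset ι, P.Nonempty → (∀ l, NoQuotientOn ϖ P (σ l) τ) →
      ∀ l, ∃ i ∈ P, ∃ j, j ∉ P ∧ ∃ x ∈ A i j, x l ≠ 0 := by
    intro P hP hnoq
    refine CUT_.nz ϖ m hm n hn τ θ T π A hπ2 hθent hθd P hP ?_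
    intro l φ ψ h1 h2
    have h3 : φ * Vl l = 0 := by
      refine hnoq l (φ * Vl l) ψ ?_ h2
      intro g
      calc φ * Vl l * σ l g = φ * (Vl l * σ l g) * (Ul l * Vl l) := by
            rw [hUVl, Matrix.mul_one, Matrix.mul_assoc]
        _ = φ * (Vl l * σ l g * Ul l) * Vl l := by simp only [Matrix.mul_assoc]
        _ = ψ g * φ * Vl l := by rw [← hθl, h1]
        _ = ψ g * (φ * Vl l) := by rw [Matrix.mul_assoc]
    calc φ = φ * (Vl l * Ul l) := by rw [hVUl, Matrix.mul_one]
      _ = (φ * Vl l) * Ul l := by rw [Matrix.mul_assoc]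
      _ = 0 := by rw [h3, Matrix.zero_mul]
  -- adapted bases
  have hWle : ∀ i j, Wp π A i j ≤ A i j := by
    intro i j
    refine Submodule.span_le.2 ?_
    rintro w (⟨k, -, -, x, hx, y, hy, rfl⟩ | ⟨t, -, x, hx, rfl⟩)
    · exact hmul _ _ _ _ _ hx hy
    · exact hmul _ _ _ _ _ ((hdiag i _).2 t.2) hx
  have hWpow : ∀ i j, ∀ w ∈ A i j, ϖ ^ m • w ∈ Wp π A i j := by
    intro i j w hw
    refine Submodule.subset_span (Or.inr ⟨algebraMap O T (ϖ ^ m), ?_, w, hw, ?_⟩)
    · rw [AlgHom.commutes]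
      exact Ideal.Quotient.eq_zero_iff_mem.2 (Ideal.mem_span_singleton_self _)
    · rw [Algebra.smul_def]
      rfl
  choose x c hx1 hx2 hx3 hx4 using fun i j =>
    h_SNF O ϖ hϖ m L (A i j) (Wp π A i j) (hWle i j) (hWpow i j)
  refine ⟨c, ?_, ?_⟩
  · intro i j hij
    obtain ⟨Ψ, hΨ1, hΨ2⟩ := h_DUAL O ϖ hϖ0 m L (A i j) (Wp π A i j) (x i j) (c i j) (hx1 i j)
      (hx2 i j) (hx3 i j) (hx4 i j)
    obtain ⟨Φ, hΦ1, hΦ2⟩ := h_COC O ϖ m G L ι n hn τ Sg Ta hTa T π A hmul hdiag hoff hent hentd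
      i j hij (hspan i j hij) _ Ψ hΨ1 hΨ2
    let Φ' : ((α : L) → Quo ϖ (c i j α)) →ₗ[O]
        (G → Matrix (Fin (n i)) (Fin (n j)) (Quo ϖ m)) :=
      { toFun := fun y g => Matrix.of fun s t =>
          Ψ y ⟨Sg (MonoidAlgebra.of O G g) ⟨i, s⟩ ⟨j, t⟩, hent _ i s j t⟩
        map_add' := by
          intro y y'
          funext g
          ext s t
          simp only [map_add, LinearMap.add_apply, Matrix.of_apply, Pi.add_apply,
            Matrix.add_apply]
        map_smul' := by
          intro r y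
          funext g
          ext s t
          simp only [map_smul, LinearMap.smul_apply, Matrix.of_apply, Pi.smul_apply,
            Matrix.smul_apply, RingHom.id_apply] }
    refine ⟨Φ', fun y => ?_⟩
    obtain ⟨z, hz1, hz2⟩ := hΦ2 y
    have hz3 : z.1 = Φ' y := by
      funext g
      ext s t
      exact hz2 g s t
    refine ⟨?_, z, hz3, h_CLS O ϖ m G C hC L ι n τ θ hbig T π A hmul hdiag hoff hθent hθd i j
      hij (Ψ y) (hΨ2 y) z hz2⟩
    intro hB
    have hz4 : (Submodule.Quotient.mk z : H1 ϖ m (τ i) (τ j)) = 0 := by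
      rw [Submodule.Quotient.mk_eq_zero]
      change z.1 ∈ B1 ϖ m (τ i) (τ j)
      rw [hz3]
      exact hB
    rw [hz4] at hz1
    exact hΦ1 (hz1.trans (map_zero Φ).symm)
  · intro P hP hnoq
    exact CUT_.ineq h_DET ϖ hϖ m T π A hmul hdiag hoff P (hnz P hP hnoq) x c
      (fun i j _ => hx3 i j) (fun i j _ => hx4 i j)

end Pool.Agent.RTL
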