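import Pool.Agent.RTL.Targets

set_option autoImplicit false

/-!
# RTL: INEQ, the length inequality
-/

namespace Pool.Agent.RTL

universe u

open Matrix

namespace INEQ_

/-- membership in the kernel of `π` -/
def InJ {O : Type u} [CommRing O] {ϖ : O} {m : ℕ} {L : Type} {T : Subalgebra O (L → O)}
    (π : T →ₐ[O] Quo ϖ m) (x : L → O) : Prop := ∃ h : x ∈ T, π ⟨x, h⟩ = 0

variable {O : Type u} [CommRing O] {ϖ : O} {m : ℕ} {L : Type} {T : Subalgebra O (L → O)}
  (π : T →ₐ[O] Quo ϖ m)

lemma inJ_zero : InJ π 0 := ⟨T.zero_mem, by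
  have : (⟨0, T.zero_mem⟩ : T) = 0 := rfl
  rw [this, map_zero]⟩

lemma inJ_add {x y : L → O} (hx : InJ π x) (hy : InJ π y) : InJ π (x + y) := by
  obtain ⟨h1, h2⟩ := hx
  obtain ⟨h3, h4⟩ := hy
  refine ⟨T.add_mem h1 h3, ?_⟩
  have : (⟨x + y, T.add_mem h1 h3⟩ : T) = ⟨x, h1⟩ + ⟨y, h3⟩ := rfl
  rw [this, map_add, h2, h4, add_zero]

lemma inJ_neg {x : L → O} (hx : InJ π x) : InJ π (-x) := by
  obtain ⟨h1, h2⟩ := hx
  refine ⟨T.neg_mem h1, ?_⟩
  have : (⟨-x, T.neg_mem h1⟩ : T) = -⟨x, h1⟩ := rfl
  rw [this, map_neg, h2, neg_zero]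

lemma inJ_mul {t x : L → O} (ht : t ∈ T) (hx : InJ π x) : InJ π (t * x) := by
  obtain ⟨h1, h2⟩ := hx
  refine ⟨T.mul_mem ht h1, ?_⟩
  have : (⟨t * x, T.mul_mem ht h1⟩ : T) = ⟨t, ht⟩ * ⟨x, h1⟩ := rfl
  rw [this, map_mul, h2, mul_zero]

lemma inJ_smul (a : O) {x : L → O} (hx : InJ π x) : InJ π (a • x) := by
  obtain ⟨h1, h2⟩ := hx
  refine ⟨T.smul_mem h1 a, ?_⟩
  have : (⟨a • x, T.smul_mem h1 a⟩ : T) = a • ⟨x, h1⟩ := rfl
  rw [this, map_smul, h2, smul_zero]

/-- the kernel of `π` as an additive subgroup -/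
def J : AddSubgroup (L → O) where
  carrier := {x | InJ π x}
  zero_mem' := inJ_zero π
  add_mem' := fun hx hy => inJ_add π hx hy
  neg_mem' := fun hx => inJ_neg π hx

end INEQ_

open INEQ_ in
theorem p_INEQ (h_DET : T_DET.{u}) : T_INEQ.{u} := by
  classical
  intro O _ _ ϖ hϖ m L ι _ _ _ T π A hmul hdiag hJ i hne x c hx hgen hWp
  -- step (1)
  have key : ∀ j, j ≠ i → ∀ w ∈ Wp π A i j, ∃ z : ({j : ι // j ≠ i} × L) → (L → O),
      (∀ b, z b ∈ A b.1.1 j) ∧ (∀ b, b.1.1 = j → InJ π (z b)) ∧
        w = ∑ b, x b.1.1 b.2 * z b := by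
    intro j hj w hw
    unfold Wp at hw
    induction hw using Submodule.span_induction with
    | mem w hw =>
      rcases hw with ⟨k, hki, hkj, x', hx', y, hy, rfl⟩ | ⟨t, ht, x', hx', rfl⟩
      · obtain ⟨a, ha⟩ := hgen k hki x' hx'
        refine ⟨fun b => if b.1.1 = k then a b.2 • y else 0, ?_, ?_, ?_⟩
        · intro b
          by_cases hb : b.1.1 = k
          · simp only [hb, if_true]
            exact (A k j).smul_mem _ hy
          · simp only [hb, if_false]
            exact (A b.1.1 j).zero_mem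
        · intro b hb
          have hb' : b.1.1 ≠ k := fun h => hkj (h.symm.trans hb)
          simp only [hb', if_false]
          exact inJ_zero π
        · rw [Fintype.sum_prod_type, Finset.sum_eq_single (⟨k, hki⟩ : {j : ι // j ≠ i})]
          · simp only [if_true]
            rw [ha, Finset.sum_mul]
            refine Finset.sum_congr rfl fun α _ => ?_
            rw [smul_mul_assoc, mul_smul_comm]
          · intro b _ hb
            have hb' : b.1 ≠ k := fun h => hb (Subtype.ext h)
            apply Finset.sum_eq_zero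
            intro α _
            simp only [hb', if_false, mul_zero]
          · intro h
            exact absurd (Finset.mem_univ _) h
      · obtain ⟨a, ha⟩ := hgen j hj x' hx'
        have htJ : InJ π (t : L → O) := ⟨t.2, ht⟩
        refine ⟨fun b => if b.1.1 = j then a b.2 • (t : L → O) else 0, ?_, ?_, ?_⟩
        · intro b
          by_cases hb : b.1.1 = j
          · simp only [hb, if_true]
            exact (A j j).smul_mem _ ((hdiag j _).2 t.2)
          · simp only [hb, if_false]
            exact (A b.1.1 j).zero_mem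
        · intro b hb
          simp only [hb, if_true]
          exact inJ_smul π _ htJ
        · rw [Fintype.sum_prod_type, Finset.sum_eq_single (⟨j, hj⟩ : {j : ι // j ≠ i})]
          · simp only [if_true]
            rw [ha, Finset.mul_sum]
            refine Finset.sum_congr rfl fun α _ => ?_
            rw [mul_smul_comm, mul_smul_comm, mul_comm]
          · intro b _ hb
            have hb' : b.1 ≠ j := fun h => hb (Subtype.ext h)
            apply Finset.sum_eq_zero
            intro α _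
            simp only [hb', if_false, mul_zero]
          · intro h
            exact absurd (Finset.mem_univ _) h
    | zero =>
      exact ⟨fun _ => 0, fun b => (A b.1.1 j).zero_mem, fun _ _ => inJ_zero π, by simp⟩
    | add w1 w2 _ _ h1 h2 =>
      obtain ⟨z1, a1, b1, c1⟩ := h1
      obtain ⟨z2, a2, b2, c2⟩ := h2
      refine ⟨fun b => z1 b + z2 b, fun b => (A b.1.1 j).add_mem (a1 b) (a2 b),
        fun b hb => inJ_add π (b1 b hb) (b2 b hb), ?_⟩
      rw [c1, c2, ← Finset.sum_add_distrib]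
      exact Finset.sum_congr rfl fun b _ => (mul_add _ _ _).symm
    | smul r w _ h1 =>
      obtain ⟨z1, a1, b1, c1⟩ := h1
      refine ⟨fun b => r • z1 b, fun b => (A b.1.1 j).smul_mem _ (a1 b),
        fun b hb => inJ_smul π _ (b1 b hb), ?_⟩
      rw [c1, Finset.smul_sum]
      exact Finset.sum_congr rfl fun b _ => (mul_smul_comm _ _ _).symm
  -- step (2)
  have hw : ∀ a : {j : ι // j ≠ i} × L, ϖ ^ c a.1.1 a.2 • x a.1.1 a.2 ∈ Wp π A i a.1.1 := by
    intro a
    have h1 := (hWp a.1.1 a.1.2 (Pi.single a.2 (ϖ ^ c a.1.1 a.2))).2 (by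
      intro β
      by_cases hβ : β = a.2
      · rw [hβ, Pi.single_eq_same]
      · rw [Pi.single_eq_of_ne hβ]
        exact dvd_zero _)
    rw [Finset.sum_eq_single a.2] at h1
    · rwa [Pi.single_eq_same] at h1
    · intro β _ hβ
      rw [Pi.single_eq_of_ne hβ, zero_smul]
    · intro h
      exact absurd (Finset.mem_univ _) h
  choose z hz1 hz2 hz3 using fun a : {j : ι // j ≠ i} × L => key a.1.1 a.1.2 _ (hw a)
  set cc : ({j : ι // j ≠ i} × L) → (L → O) :=
    fun a => algebraMap O (L → O) (ϖ ^ c a.1.1 a.2) with hcc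
  set N : Matrix ({j : ι // j ≠ i} × L) ({j : ι // j ≠ i} × L) (L → O) :=
    fun b a => (if b = a then cc a else 0) - z a b with hN
  have hccT : ∀ a, cc a ∈ T := fun a => T.algebraMap_mem _
  have hsum : ∀ a, ∑ b, x b.1.1 b.2 * N b a = 0 := by
    intro a
    simp only [hN, mul_sub, Finset.sum_sub_distrib, mul_ite, mul_zero]
    rw [Finset.sum_ite_eq' Finset.univ a, if_pos (Finset.mem_univ _), ← hz3 a, hcc]
    simp only
    rw [mul_comm, ← Algebra.smul_def, sub_self]
  have hdet : N.det = 0 := by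
    funext l
    have h1 : (Pi.evalRingHom (fun _ : L => O) l) N.det =
        ((Pi.evalRingHom (fun _ : L => O) l).mapMatrix N).det := RingHom.map_det _ _
    have h2 : ((Pi.evalRingHom (fun _ : L => O) l).mapMatrix N).det = 0 := by
      rw [← Matrix.exists_vecMul_eq_zero_iff]
      refine ⟨fun b => x b.1.1 b.2 l, ?_, ?_⟩
      · intro h0
        obtain ⟨j, hj, w, hwA, hwl⟩ := hne l
        obtain ⟨a, ha⟩ := hgen j hj w hwA
        apply hwl
        rw [ha, Finset.sum_apply]
        apply Finset.sum_eq_zero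
        intro α _
        have h3 := congrFun h0 (⟨⟨j, hj⟩, α⟩ : {j : ι // j ≠ i} × L)
        simp only [Pi.zero_apply] at h3
        rw [Pi.smul_apply, h3, smul_zero]
      · funext a
        have h3 := congrFun (hsum a) l
        rw [Finset.sum_apply] at h3
        simp only [Matrix.vecMul, dotProduct, RingHom.mapMatrix_apply, Matrix.map_apply,
          Pi.evalRingHom_apply, Pi.zero_apply]
        simpa using h3
    rw [h2] at h1
    simpa using h1
  -- step (3)
  have hfin := h_DET (L → O) T.toSubring (INEQ_.J π) (fun y hy => hy.1)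
    (fun t ht y hy => inJ_mul π ht hy) ι (fun a b => (A a b).toAddSubgroup)
    (fun a b k y y' hy hy' => hmul a b k y y' hy hy')
    (fun a y hy => (hdiag a y).1 hy) (fun a b hab y hy y' hy' => hJ a b hab y hy y' hy')
    ({j : ι // j ≠ i} × L) (fun b => b.1.1) N cc
    (by
      intro b a
      simp only [hN]
      by_cases hba : b = a
      · rw [if_pos hba]
        refine (A b.1.1 a.1.1).sub_mem ?_ (hz1 a b)
        rw [hba]
        exact (hdiag a.1.1 _).2 (hccT a)
      · rw [if_neg hba]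
        exact (A b.1.1 a.1.1).sub_mem (A b.1.1 a.1.1).zero_mem (hz1 a b))
    hccT
    (by
      intro a
      simp only [hN, if_true]
      rw [sub_sub_cancel_left]
      exact inJ_neg π (hz2 a a rfl))
    (by
      intro b a hba hβ
      simp only [hN]
      rw [if_neg hba, zero_sub]
      exact inJ_neg π (hz2 a b hβ))
  rw [hdet, zero_sub] at hfin
  have h4 : InJ π (∏ a, cc a) := by
    have := inJ_neg π hfin
    rwa [neg_neg] at this
  have h5 : ∏ a, cc a = algebraMap O (L → O) (ϖ ^ ∑ a : {j : ι // j ≠ i} × L, c a.1.1 a.2) := by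
    rw [hcc, ← map_prod, Finset.prod_pow_eq_pow_sum]
  rw [h5] at h4
  obtain ⟨h6, h7⟩ := h4
  have h8 : (⟨algebraMap O (L → O) (ϖ ^ ∑ a : {j : ι // j ≠ i} × L, c a.1.1 a.2), h6⟩ : T) =
      algebraMap O T (ϖ ^ ∑ a : {j : ι // j ≠ i} × L, c a.1.1 a.2) := rfl
  rw [h8, AlgHom.commutes] at h7
  have h9 : ϖ ^ m ∣ ϖ ^ ∑ a : {j : ι // j ≠ i} × L, c a.1.1 a.2 := by
    have h10 : Ideal.Quotient.mk (Ideal.span ({ϖ ^ m} : Set O))
        (ϖ ^ ∑ a : {j : ι // j ≠ i} × L, c a.1.1 a.2) = 0 := h7
    rw [Ideal.Quotient.eq_zero_iff_mem, Ideal.mem_span_singleton] at h10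
    exact h10
  have h11 := (pow_dvd_pow_iff hϖ.ne_zero hϖ.not_isUnit).1 h9
  refine h11.trans (le_of_eq ?_)
  rw [Fintype.sum_prod_type]
  rw [Finset.sum_subtype (Finset.univ.erase i) (p := fun j => j ≠ i)
    (fun j => by simp) (fun j => ∑ α, c j α)]

end Pool.Agent.RTL
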