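import Pool.Agent.RTL.Targets

set_option autoImplicit false

/-!
# Target NZ of the project RTL
-/

namespace Pool.Agent.RTL

open Matrix

universe u v

namespace NZ_

/-- A sum over `Idx n` all of whose terms with first component different from `i` vanish. -/
theorem sum_idx {O : Type u} [AddCommMonoid O] {ι : Type} [Fintype ι] [DecidableEq ι]
    (n : ι → ℕ) (i : ι) (f : Idx n → O) (hf : ∀ p : Idx n, p.1 ≠ i → f p = 0) :
    ∑ p, f p = ∑ t : Fin (n i), f ⟨i, t⟩ := by
  rw [Fintype.sum_sigma]
  rw [Finset.sum_eq_single i]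
  · intro k _ hk
    exact Finset.sum_eq_zero (fun t _ => hf ⟨k, t⟩ hk)
  · intro h
    exact absurd (Finset.mem_univ i) h

end NZ_

theorem p_NZ : T_NZ.{u, v} := by
  intro O _ _ ϖ m hm G _ L ι _ _ n hn τ θ T π A hTπ hent hdiag i hNQ l
  by_contra hcon
  push Not at hcon
  have hz : ∀ (g : G) (s : Fin (n i)) (p : Idx n), p.1 ≠ i → θ g ⟨i, s⟩ p l = 0 := by
    rintro g s ⟨j, t⟩ hp
    exact hcon j hp _ (hent g i s j t)
  let ψ : G →* Matrix (Fin (n i)) (Fin (n i)) O :=
    { toFun := fun g => Matrix.of fun s t => θ g ⟨i, s⟩ ⟨i, t⟩ l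
      map_one' := by
        ext s t
        rw [map_one, Matrix.of_apply]
        by_cases hst : s = t
        · subst hst
          simp
        · have h1 : (⟨i, s⟩ : Idx n) ≠ ⟨i, t⟩ := by
            intro h
            exact hst (by simpa using h)
          rw [Matrix.one_apply_ne h1, Matrix.one_apply_ne hst]
          rfl
      map_mul' := by
        intro g h
        ext s t
        rw [map_mul, Matrix.of_apply, Matrix.mul_apply, Matrix.mul_apply, Finset.sum_apply]
        simp only [Pi.mul_apply, Matrix.of_apply]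
        exact NZ_.sum_idx n i (fun p => θ g ⟨i, s⟩ p l * θ h p ⟨i, t⟩ l) (fun p hp => by
          simp only [hz g s p hp, zero_mul]) }
  have hψ : ∀ g s t, ψ g s t = θ g ⟨i, s⟩ ⟨i, t⟩ l := fun g s t => rfl
  let φ : Matrix (Fin (n i)) (Idx n) O := Matrix.of fun s p => if p = ⟨i, s⟩ then 1 else 0
  have hφ : ∀ s p, φ s p = if p = ⟨i, s⟩ then 1 else 0 := fun s p => rfl
  have h0 : φ = 0 := by
    apply hNQ l φ ψ
    · intro g
      ext s q
      rw [Matrix.mul_apply, Matrix.mul_apply]
      have e1 : ∑ p, φ s p * (θ g).map (fun c => c l) p q = θ g ⟨i, s⟩ q l := by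
        rw [Finset.sum_eq_single (⟨i, s⟩ : Idx n)]
        · simp [hφ]
        · intro p _ hp
          rw [hφ, if_neg hp, zero_mul]
        · intro h
          exact absurd (Finset.mem_univ _) h
      rw [e1]
      obtain ⟨j, t⟩ := q
      by_cases hj : j = i
      · subst hj
        rw [Finset.sum_eq_single t]
        · simp [hφ, hψ]
        · intro t' _ ht'
          have h1 : (⟨j, t⟩ : Idx n) ≠ ⟨j, t'⟩ := by
            intro h
            exact ht' (by simpa using h.symm)
          rw [hφ, if_neg h1, mul_zero]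
        · intro h
          exact absurd (Finset.mem_univ _) h
      · rw [hz g s ⟨j, t⟩ hj]
        symm
        apply Finset.sum_eq_zero
        intro t' _
        have h1 : (⟨j, t⟩ : Idx n) ≠ ⟨i, t'⟩ := by
          intro h
          exact hj (congrArg Sigma.fst h)
        rw [hφ, if_neg h1, mul_zero]
    · intro g s t
      obtain ⟨hT, hπ⟩ := hdiag g i s t
      obtain ⟨y, hy1, hy2⟩ := hTπ ⟨_, hT⟩ l
      rw [hπ] at hy1
      have h2 : ϖ ^ m ∣ y - τ i g s t := by
        have h3 : Ideal.Quotient.mk (Ideal.span ({ϖ ^ m} : Set O)) y =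
            Ideal.Quotient.mk (Ideal.span ({ϖ ^ m} : Set O)) (τ i g s t) := by
          rw [hy1]
          rfl
        rw [Ideal.Quotient.eq, Ideal.mem_span_singleton] at h3
        exact h3
      have h3 : ϖ ∣ y - τ i g s t := dvd_trans (dvd_pow_self ϖ hm.ne') h2
      have h4 : (ψ g - τ i g) s t = (θ g ⟨i, s⟩ ⟨i, t⟩ l - y) + (y - τ i g s t) := by
        rw [Matrix.sub_apply, hψ]
        ring
      rw [h4]
      exact dvd_add hy2 h3
  have h1 := congrFun (congrFun h0 ⟨0, hn i⟩) ⟨i, ⟨0, hn i⟩⟩
  rw [hφ, if_pos rfl] at h1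
  exact one_ne_zero h1

end Pool.Agent.RTL
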