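import Pool.Agent.RTL.Targets

set_option autoImplicit false

/-!
# Job RTL-RES1
-/

namespace Pool.Agent.RTL

open Matrix

universe u w

namespace RES1_

variable {k : Type u} [Field k] {R : Type w} [Ring R] [Algebra k R] {a b : ℕ}

/-- If the kernel of `h` is contained in the kernel of `f`, there is a nonzero intertwiner. -/
theorem ker_not_le (ha : 0 < a) (hb : 0 < b) (f : R →ₐ[k] Matrix (Fin a) (Fin a) k)
    (h : R →ₐ[k] Matrix (Fin b) (Fin b) k) (hs : Function.Surjective h)
    (hX : ∀ X : Matrix (Fin a) (Fin b) k, (∀ r, f r * X = X * h r) → X = 0) :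
    ∃ r, h r = 0 ∧ f r ≠ 0 := by
  by_contra hcon
  push Not at hcon
  have heq : ∀ r r', h r = h r' → f r = f r' := by
    intro r r' hr
    have h1 : f (r - r') = 0 := hcon _ (by rw [map_sub, hr, sub_self])
    rw [map_sub] at h1
    exact sub_eq_zero.1 h1
  choose E hE using fun s : Fin b => hs (Matrix.single s (⟨0, hb⟩ : Fin b) (1 : k))
  choose F hF using fun s : Fin b => hs (Matrix.single (⟨0, hb⟩ : Fin b) s (1 : k))
  have hzero : ∀ v : Fin a → k, ∀ s, f (E s) *ᵥ v = 0 := by
    intro v
    have hX0 := hX (Matrix.of fun i s => (f (E s) *ᵥ v) i) ?_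
    · intro s
      funext i
      exact congrFun (congrFun hX0 i) s
    · intro r
      ext i t
      have h1 : h (r * E t) = h (∑ s, h r s t • E s) := by
        rw [map_mul, hE, map_sum]
        ext p q
        simp only [map_smul, hE, Matrix.sum_apply, Matrix.smul_apply, Matrix.mul_apply,
          Matrix.single_apply, smul_eq_mul, mul_ite, mul_one, mul_zero]
        rw [Finset.sum_eq_single t, Finset.sum_eq_single p]
        · simp
        · intro c _ hc
          simp [hc]
        · intro hc
          exact absurd (Finset.mem_univ p) hc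
        · intro c _ hc
          rw [if_neg]
          rintro ⟨h1, -⟩
          exact hc h1.symm
        · intro hc
          exact absurd (Finset.mem_univ t) hc
      have h2 := heq _ _ h1
      have h3 : (f r * Matrix.of fun i s => (f (E s) *ᵥ v) i) i t = (f (r * E t) *ᵥ v) i := by
        rw [map_mul, ← Matrix.mulVec_mulVec]
        rfl
      rw [h3, h2, map_sum, Matrix.sum_mulVec, Finset.sum_apply, Matrix.mul_apply]
      refine Finset.sum_congr rfl fun s _ => ?_
      rw [map_smul, Matrix.smul_mulVec, Pi.smul_apply, smul_eq_mul, Matrix.of_apply, mul_comm]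
  have hzero' : ∀ s, f (E s) = 0 := by
    intro s
    ext i j
    have h1 := congrFun (hzero (Pi.single j 1) s) i
    simpa using h1
  have h1 : h (∑ s, E s * F s) = h 1 := by
    rw [map_sum, map_one]
    ext p q
    simp only [map_mul, hE, hF, Matrix.single_mul_single_same, mul_one, Matrix.sum_apply,
      Matrix.single_apply, Matrix.one_apply]
    rw [Finset.sum_eq_single p]
    · simp
    · intro c _ hc
      simp [hc]
    · intro hc
      exact absurd (Finset.mem_univ p) hc
  have h2 := heq _ _ h1
  rw [map_sum, map_one] at h2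
  have h3 : (0 : Matrix (Fin a) (Fin a) k) = 1 := by
    rw [← h2]
    symm
    refine Finset.sum_eq_zero fun s _ => ?_
    rw [map_mul, hzero', zero_mul]
  have h4 := congrFun (congrFun h3 ⟨0, ha⟩) ⟨0, ha⟩
  simp at h4

/-- Separation of two constituents. -/
theorem sep (ha : 0 < a) (hb : 0 < b) (f : R →ₐ[k] Matrix (Fin a) (Fin a) k)
    (h : R →ₐ[k] Matrix (Fin b) (Fin b) k) (hf : Function.Surjective f)
    (hs : Function.Surjective h)
    (hX : ∀ X : Matrix (Fin a) (Fin b) k, (∀ r, f r * X = X * h r) → X = 0) :
    ∃ r, f r = 1 ∧ h r = 0 := by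
  obtain ⟨r, hr, hr'⟩ := ker_not_le ha hb f h hs hX
  obtain ⟨p, q, hpq⟩ : ∃ p q, f r p q ≠ 0 := by
    by_contra hcon
    push Not at hcon
    exact hr' (by ext p q; exact hcon p q)
  choose U hU using fun s : Fin a => hf (Matrix.single s p ((f r p q)⁻¹))
  choose W hW using fun s : Fin a => hf (Matrix.single q s (1 : k))
  refine ⟨∑ s, U s * r * W s, ?_, ?_⟩
  · rw [map_sum]
    ext x y
    simp only [map_mul, hU, hW, Matrix.sum_apply]
    have h1 : ∀ s, (Matrix.single s p ((f r p q)⁻¹) * f r * Matrix.single q s (1 : k)) x y =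
        if s = x ∧ s = y then 1 else 0 := by
      intro s
      rw [Matrix.single_mul_mul_single]
      rw [Matrix.single_apply]
      split_ifs
      · field_simp
      · rfl
    simp only [h1, Matrix.one_apply]
    rw [Finset.sum_eq_single x]
    · simp
    · intro c _ hc
      simp [hc]
    · intro hc
      exact absurd (Finset.mem_univ x) hc
  · rw [map_sum]
    refine Finset.sum_eq_zero fun s _ => ?_
    rw [map_mul, map_mul, hr, mul_zero, zero_mul]

end RES1_

open RES1_ in
theorem p_RES1 : T_RES1.{u, w} := by
  intro k _ R _ _ ι _ _ n hn f hf hX b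
  have hsep : ∀ i (S : Finset ι), i ∉ S → ∃ e, f i e = 1 ∧ ∀ j ∈ S, f j e = 0 := by
    intro i S
    induction S using Finset.induction_on with
    | empty => exact fun _ => ⟨1, map_one _, by simp⟩
    | insert j S hj ih =>
      intro hi
      rw [Finset.mem_insert, not_or] at hi
      obtain ⟨e, he, he'⟩ := ih hi.2
      obtain ⟨r, hr, hr'⟩ := sep (hn i) (hn j) (f i) (f j) (hf i) (hf j) (hX i j hi.1)
      refine ⟨e * r, by rw [map_mul, he, hr, one_mul], fun l hl => ?_⟩
      rcases Finset.mem_insert.1 hl with rfl | hl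
      · rw [map_mul, hr', mul_zero]
      · rw [map_mul, he' l hl, zero_mul]
  choose e he he' using fun i => hsep i (Finset.univ.erase i) (Finset.notMem_erase _ _)
  choose a ha using fun i => hf i (b i)
  refine ⟨∑ i, e i * a i, fun j => ?_⟩
  rw [map_sum, Finset.sum_eq_single j]
  · rw [map_mul, he, ha, one_mul]
  · intro i _ hij
    rw [map_mul, he' i j (Finset.mem_erase.2 ⟨hij.symm, Finset.mem_univ _⟩), zero_mul]
  · intro hc
    exact absurd (Finset.mem_univ j) hc

end Pool.Agent.RTL
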