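import Pool.Agent.RTL.All

set_option autoImplicit false

/-!
# The form of the main theorem used in the hand-in
-/

namespace Pool.Agent.RTL

universe u v

open Matrix

/-- A class of `O`-modules with an action of `G` by `O`-linear maps. -/
abbrev ActClass (O : Type u) [CommRing O] (G : Type v) :=
  ∀ (M : Type u) [AddCommGroup M] [Module O M], (G → M →ₗ[O] M) → Prop

/-- The class is closed under subobjects, quotients and products of two objects. -/
structure ActClass.Closed {O : Type u} [CommRing O] {G : Type v} (C : ActClass O G) : Prop where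
  sub : ∀ (M M' : Type u) [AddCommGroup M] [Module O M] [AddCommGroup M'] [Module O M']
    (ρ : G → M →ₗ[O] M) (ρ' : G → M' →ₗ[O] M') (f : M →ₗ[O] M'),
    Function.Injective f → (∀ g x, f (ρ g x) = ρ' g (f x)) → C M' ρ' → C M ρ
  quot : ∀ (M M' : Type u) [AddCommGroup M] [Module O M] [AddCommGroup M'] [Module O M']
    (ρ : G → M →ₗ[O] M) (ρ' : G → M' →ₗ[O] M') (f : M →ₗ[O] M'),
    Function.Surjective f → (∀ g x, f (ρ g x) = ρ' g (f x)) → C M ρ → C M' ρ'
  prod : ∀ (M M' : Type u) [AddCommGroup M] [Module O M] [AddCommGroup M'] [Module O M']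
    (ρ : G → M →ₗ[O] M) (ρ' : G → M' →ₗ[O] M'),
    C M ρ → C M' ρ' → C (M × M') (fun g => (ρ g).prodMap (ρ' g))

/-- The `O`-linear map on column vectors given by a square matrix over `O / ϖ ^ m`. -/
def act {O : Type u} [CommRing O] {ϖ : O} {m : ℕ} {s : Type} [Fintype s]
    (A : Matrix s s (Quo ϖ m)) : (s → Quo ϖ m) →ₗ[O] (s → Quo ϖ m) :=
  A.mulVecLin.restrictScalars O

/-- The action of `G` on `(O / ϖ ^ m) ^ (a + b)` by the block matrices
`(τ(g), z(g); 0, τ'(g))`, i.e. the extension of `τ' mod ϖ ^ m` by `τ mod ϖ ^ m` given by `z`. -/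
def extAct {O : Type u} [CommRing O] {G : Type v} [Group G] (ϖ : O) (m : ℕ) {a b : ℕ}
    (τ : G →* Matrix (Fin a) (Fin a) O) (τ' : G →* Matrix (Fin b) (Fin b) O)
    (z : G → Matrix (Fin a) (Fin b) (Quo ϖ m)) (g : G) :
    (Fin a ⊕ Fin b → Quo ϖ m) →ₗ[O] (Fin a ⊕ Fin b → Quo ϖ m) :=
  act (Matrix.fromBlocks (red ϖ m (τ g)) (z g) 0 (red ϖ m (τ' g)))

namespace STMT_

/-- the class of representations belonging to a class of actions -/
def toRep {O : Type u} [CommRing O] {G : Type v} [Group G] (C : ActClass O G) : RepClass O G :=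
  fun M _ _ ρ => C M (fun g => ρ g)

theorem toRep_closed {O : Type u} [CommRing O] {G : Type v} [Group G] (C : ActClass O G)
    (hC : C.Closed) : (toRep C).Closed where
  sub M M' _ _ _ _ ρ ρ' f hf he h := hC.sub M M' (fun g => ρ g) (fun g => ρ' g) f hf he h
  quot M M' _ _ _ _ ρ ρ' f hf he h := hC.quot M M' (fun g => ρ g) (fun g => ρ' g) f hf he h
  prod M M' _ _ _ _ ρ ρ' h h' := hC.prod M M' (fun g => ρ g) (fun g => ρ' g) h h'

/-- splitting of a vector indexed by a sum -/
def splitMap {O : Type u} [CommRing O] (R : Type u) [CommRing R] [Algebra O R] (a b : ℕ) :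
    (Fin a ⊕ Fin b → R) →ₗ[O] ((Fin a → R) × (Fin b → R)) where
  toFun v := (fun i => v (Sum.inl i), fun j => v (Sum.inr j))
  map_add' _ _ := rfl
  map_smul' _ _ := rfl

theorem splitMap_injective {O : Type u} [CommRing O] (R : Type u) [CommRing R] [Algebra O R]
    (a b : ℕ) : Function.Injective (splitMap (O := O) R a b) := by
  intro v w h
  funext k
  rcases k with i | j
  · exact congrFun (congrArg Prod.fst h) i
  · exact congrFun (congrArg Prod.snd h) j

theorem ext_mem {O : Type u} [CommRing O] {G : Type v} [Group G] (C : ActClass O G)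
    (hC : C.Closed) (ϖ : O) (m : ℕ) {a b : ℕ} (τ : G →* Matrix (Fin a) (Fin a) O)
    (τ' : G →* Matrix (Fin b) (Fin b) O) (z : Z1 ϖ m τ τ')
    (h : toRep C _ (extRep ϖ m τ τ' z)) : C _ (extAct ϖ m τ τ' z.1) := by
  refine hC.sub _ _ (extAct ϖ m τ τ' z.1) (fun g => extRep ϖ m τ τ' z g)
    (splitMap (Quo ϖ m) a b) (splitMap_injective _ a b) ?_ h
  intro g x
  refine Prod.ext ?_ ?_
  · funext i
    change (Matrix.fromBlocks (red ϖ m (τ g)) (z.1 g) 0 (red ϖ m (τ' g)) *ᵥ x) (Sum.inl i) =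
      (red ϖ m (τ g) *ᵥ (fun i => x (Sum.inl i)) + z.1 g *ᵥ (fun j => x (Sum.inr j))) i
    simp only [Matrix.mulVec, dotProduct, Fintype.sum_sum_type, Matrix.fromBlocks_apply₁₁,
      Matrix.fromBlocks_apply₁₂, Pi.add_apply]
  · funext j
    change (Matrix.fromBlocks (red ϖ m (τ g)) (z.1 g) 0 (red ϖ m (τ' g)) *ᵥ x) (Sum.inr j) =
      (red ϖ m (τ' g) *ᵥ (fun j => x (Sum.inr j))) j
    simp only [Matrix.mulVec, dotProduct, Fintype.sum_sum_type, Matrix.fromBlocks_apply₂₁,
      Matrix.fromBlocks_apply₂₂, Matrix.zero_apply, zero_mul, Finset.sum_const_zero, zero_add]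

end STMT_

end Pool.Agent.RTL
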