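import Pool.Agent.RTL.Defs

/-!
# Targets of the project RTL (MP_78858f_nt)

Sum rule for Selmer groups in a multi-constituent Ribet lemma.  Every target is a closed
proposition with a complete paper proof in its docstring.  `L` is the (finite) set of forms,
`ι` the (finite) set of constituents, `C = L → O` the product ring, `Idx n = Σ i, Fin (n i)`.
-/

namespace Pool.Agent.RTL

universe u v w

open Matrix

/-- index set of the basis adapted to the constituents -/
abbrev Idx {ι : Type} (n : ι → ℕ) : Type := Σ i, Fin (n i)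

/-- The `O`-span of the products `x y`, `x ∈ A i k`, `y ∈ A k j`, `k ≠ i, j`, and of the products
`t x`, `t ∈ T`, `π t = 0`, `x ∈ A i j`. -/
def Wp {O : Type u} [CommRing O] {ϖ : O} {m : ℕ} {L ι : Type}
    {T : Subalgebra O (L → O)} (π : T →ₐ[O] Quo ϖ m)
    (A : ι → ι → Submodule O (L → O)) (i j : ι) : Submodule O (L → O) :=
  Submodule.span O ({w | ∃ k, k ≠ i ∧ k ≠ j ∧ ∃ x ∈ A i k, ∃ y ∈ A k j, w = x * y} ∪
    {w | ∃ t : T, π t = 0 ∧ ∃ x ∈ A i j, w = (t : L → O) * x})

/-- The representation of `G` on `(S → L → O) / ϖ ^ r` given by matrices over `L → O`. -/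
def bigRep {O : Type u} [CommRing O] {G : Type v} [Group G] (ϖ : O) (r : ℕ) {S L : Type}
    [Fintype S] [DecidableEq S] (θ : G →* Matrix S S (L → O)) :
    Representation O G (S → L → Quo ϖ r) where
  toFun g :=
    { toFun := fun p s l => ∑ t, Ideal.Quotient.mk (Ideal.span ({ϖ ^ r} : Set O)) (θ g s t l) *
        p t l
      map_add' := by
        intro p q
        funext s l
        simp only [Pi.add_apply, mul_add, Finset.sum_add_distrib]
      map_smul' := by
        intro c p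
        funext s l
        simp only [Pi.smul_apply, RingHom.id_apply, Finset.smul_sum, mul_smul_comm] }
  map_one' := by
    refine LinearMap.ext fun p => ?_
    funext s l
    simp only [map_one, LinearMap.coe_mk, AddHom.coe_mk, Module.End.one_apply]
    rw [Finset.sum_eq_single s]
    · simp
    · intro t _ ht
      simp [Matrix.one_apply_ne ht.symm]
    · intro h
      exact absurd (Finset.mem_univ s) h
  map_mul' := by
    intro g h
    refine LinearMap.ext fun p => ?_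
    funext s l
    simp only [map_mul, LinearMap.coe_mk, AddHom.coe_mk, Module.End.mul_apply]
    simp only [Matrix.mul_apply, Finset.sum_apply, Pi.mul_apply, map_sum, map_mul,
      Finset.sum_mul, Finset.mul_sum]
    rw [Finset.sum_comm]
    simp only [mul_assoc]

/-! ### 1. Residual surjectivity -/

/-- RES1 (density theorem in matrix form).  Proof.
(a) For `i ≠ j` there is `a` with `f i a = 1`, `f j a = 0`.  Suppose not.  The set
`D = {f i a | f j a = 0}` is a two-sided ideal of the full matrix ring (`f i` is onto) which does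
not contain `1`; a matrix ring over a field is simple (`n i > 0`), so `D = 0`
(direct: if `f i a = M` has `M p q ≠ 0` then `1 = ∑ s, single s p (M p q)⁻¹ * M * single q s 1`).
So `f j a = 0` implies `f i a = 0`, and there is a well defined map `θ` with `θ (f j a) = f i a`,
a homomorphism of `k`-algebras (choose preimages under the surjection `f j`; or use
`RingHom.liftOfSurjective` and friends).  As `1 = ∑ s, θ (single s s 1)`, and
`single s s 1 = single s 0 1 * single 0 0 1 * single 0 s 1`, `θ (single 0 0 1) ≠ 0` (`0` stands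
for the first index, `n j > 0`).  Choose a vector `v` with `θ (single 0 0 1) *ᵥ v ≠ 0` and let `X`
be the matrix whose column `s` is `θ (single s 0 1) *ᵥ v`.  Then for every matrix `b`:
column `s` of `X b` is `∑ t, b t s • θ (single t 0 1) v = θ (b * single s 0 1) v =
θ b (column s of X)`.  With `b = f j a` we get `X * f j a = f i a * X` for all `a`, but `X ≠ 0`:
contradiction with the hypothesis.
(b) For each `i` the product over `j ≠ i` (in any order) of the elements of (a) is an `e i` with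
`f i (e i) = 1` and `f j (e i) = 0` for `j ≠ i`.
(c) Given `b` choose `a i` with `f i (a i) = b i` and take `∑ i, e i * a i`.  About 90 lines. -/
def T_RES1 : Prop := ∀ (k : Type u) [Field k] (R : Type w) [Ring R] [Algebra k R]
    (ι : Type) [Fintype ι] [DecidableEq ι] (n : ι → ℕ), (∀ i, 0 < n i) →
    ∀ f : (i : ι) → R →ₐ[k] Matrix (Fin (n i)) (Fin (n i)) k,
    (∀ i, Function.Surjective (f i)) →
    (∀ i j, i ≠ j → ∀ X : Matrix (Fin (n i)) (Fin (n j)) k,
      (∀ a, f i a * X = X * f j a) → X = 0) →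
    ∀ b : (i : ι) → Matrix (Fin (n i)) (Fin (n i)) k, ∃ a, ∀ i, f i a = b i

/-- RES.  Proof from RES1.  Let `k = O / (ϖ)` (a field: `ϖ` is irreducible in a principal ideal
domain), `R = MonoidAlgebra k G`, `f i = MonoidAlgebra.lift` of `g ↦ τ i g mod ϖ`.  `f i` is onto by
`ResAbsIrr`, the disjointness hypothesis of RES1 follows from `ResDisjoint` (lift `X` to `O`
entrywise; `a` runs through the elements `g`).  RES1 gives the claim for `m = 1` (lift the
coefficients).  `m = 0`: take `c = 0`.  Step from `m` to `m + 1` (`m ≥ 1`): if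
`c.sum (x • τ i g) - b i = ϖ ^ m • D i`, choose `c'` for `- D i` with `m = 1` and take
`c + ϖ ^ m • c'`.  About 80 lines. -/
def T_RES : Prop := ∀ (O : Type u) [CommRing O] [IsDomain O] [IsDiscreteValuationRing O] (ϖ : O),
    Irreducible ϖ → ∀ (G : Type v) [Group G] (ι : Type) [Fintype ι] [DecidableEq ι] (n : ι → ℕ),
    (∀ i, 0 < n i) → ∀ τ : (i : ι) → G →* Matrix (Fin (n i)) (Fin (n i)) O,
    (∀ i, ResAbsIrr ϖ (τ i)) → (∀ i j, i ≠ j → ResDisjoint ϖ (τ i) (τ j)) →
    ∀ (m : ℕ) (b : (i : ι) → Matrix (Fin (n i)) (Fin (n i)) O), ∃ c : G →₀ O,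
      ∀ i s t, ϖ ^ m ∣ (c.sum (fun g x => x • τ i g) - b i) s t

/-! ### 2. The trace form -/

/-- FAC.  Proof: let `Sg a = 0`.  For `i, s, t` choose `a'` with
`Ta a' = Pi.single i (single t s 1)`.  Then `Sg (a * a') = 0`, so
`0 = π ⟨(Sg (a a')).trace, _⟩ = ∑ i', (Ta a i' * Ta a' i').trace = Ta a i s t`.  About 25 lines. -/
def T_FAC : Prop := ∀ (O : Type u) [CommRing O] (ϖ : O) (m : ℕ) (L ι : Type)
    [Fintype ι] [DecidableEq ι] (n : ι → ℕ) (R : Type w) [Ring R] [Algebra O R]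
    (Sg : R →ₐ[O] Matrix (Idx n) (Idx n) (L → O))
    (Ta : R →ₐ[O] ((i : ι) → Matrix (Fin (n i)) (Fin (n i)) (Quo ϖ m)))
    (T : Subalgebra O (L → O)) (π : T →ₐ[O] Quo ϖ m), Function.Surjective Ta →
    (∀ a, ∃ h : (Sg a).trace ∈ T, π ⟨(Sg a).trace, h⟩ = ∑ i, (Ta a i).trace) →
    ∀ a, Sg a = 0 → Ta a = 0

/-- PI.  The Hecke algebra and the homomorphism `π`.  Let `t g l = (σ l g).trace` and
`q g = ∑ i, (τ i g).trace`.  Proof: `T` = range of `MvPolynomial.aeval t : MvPolynomial G O →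
(L → O)`.  If `aeval t P = 0` then `eval (fun g => t g l) P = 0` for all `l`, so the hypothesis
gives `ϖ ^ m ∣ eval q P`; hence `P ↦ mk (eval q P)` factors through `T` (for instance
`AlgHom.liftOfSurjective`, `Ideal.Quotient.liftₐ`, or define `π` by a choice of `P`).  `π (t g)` is
`mk (q g)` by `P = X g`.  Last claim: for `c = aeval t P` take `y = eval q P`; then
`c l - y = eval (fun g => t g l) P - eval q P`, which is divisible by `ϖ` because the arguments
are congruent modulo `ϖ` (induction on `P`, or map to `O / (ϖ)`).  About 60 lines. -/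
def T_PI : Prop := ∀ (O : Type u) [CommRing O] (ϖ : O) (m : ℕ) (G : Type v) [Group G]
    (L : Type) (t : G → L → O) (q : G → O),
    (∀ P : MvPolynomial G O, (∀ l, MvPolynomial.eval (fun g => t g l) P = 0) →
      ϖ ^ m ∣ MvPolynomial.eval q P) →
    (∀ l g, ϖ ∣ t g l - q g) →
    ∃ (T : Subalgebra O (L → O)) (π : T →ₐ[O] Quo ϖ m),
      (∀ g, ∃ h : t g ∈ T, π ⟨t g, h⟩ = Ideal.Quotient.mk _ (q g)) ∧
      (∀ (c : T) (l : L), ∃ y : O, Ideal.Quotient.mk _ y = π c ∧ ϖ ∣ (c : L → O) l - y)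

/-! ### 3. Idempotents -/

/-- ADIC.  Finite modules over a complete Noetherian ring are complete.  Proof: by
`AdicCompletion` (the map `M → AdicCompletion I M` is bijective: `AdicCompletion.of_bijective_iff`,
`AdicCompletion.ofTensorProduct_bijective_of_finite_of_isNoetherian` and
`AdicCompletion I O ≃ O`), or directly: `IsHausdorff` by the Krull intersection theorem
(`I` lies in the Jacobson radical, `IsAdicComplete.le_jacobson_bot`), `IsPrecomplete`: for a
surjection `p : (Fin k → O) → M` lift a compatible sequence `x n` step by step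
(`x (n+1) - x n ∈ I ^ n M`, write it as the image of an element of `I ^ n (Fin k → O)`), take the
limit in `Fin k → O`. -/
def T_ADIC : Prop := ∀ (O : Type u) [CommRing O] [IsNoetherianRing O] (I : Ideal O)
    [IsAdicComplete I O] (M : Type u) [AddCommGroup M] [Module O M] [Module.Finite O M],
    IsAdicComplete I M

/-- IDC (lifting one idempotent, commutative case).  Let `p = algebraMap O Q ϖ`.  Proof.
(1) `Q` is Noetherian, and `Q / (p)` is Artinian (a finite algebra over the field `O / (ϖ)`).  So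
for some `N ≥ 1` the ideals generated by `x ^ N` and `x ^ (2 N)` in `Q / (p)` agree
(descending chain), so this ideal is idempotent and finitely generated, hence generated by an
idempotent (`Ideal.isIdempotentElem_iff_of_fg`).  Lifting: there are `e0, r, r', s, s'` in `Q`
with `e0 = x ^ N * r + p * s`, `x ^ N = e0 * r' + p * s'` and `e0 * e0 - e0 ∈ (p)`.
(2) `Q` is `(p)`-adically complete (third hypothesis, applied to the `O`-module `Q`), so it is a
Henselian pair (`IsAdicComplete.henselianRing`); `X ^ 2 - X` has the root `e0` modulo `(p)`, with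
derivative `2 e0 - 1`, a unit modulo `(p)` because `(2 e0 - 1) ^ 2 = 1 + 4 (e0 ^ 2 - e0)`.  So
there is `e` with `e * e = e` and `e - e0 ∈ (p)` (or iterate `e ↦ 3 e ^ 2 - 2 e ^ 3` by hand).
(3) `F = φ x` and `E = φ e` are commuting idempotents (images of elements of the commutative `Q`)
and `F ^ N = F`.  `E ∈ F * B' + φ p * B'` and `F ∈ E * B' + φ p * B'` with `B' = φ(Q)`
commutative.  So `E (1 - F)` is an idempotent in `φ p * B'`, and `(φ p) ^ m = 0`: it is `0`;
in the same way `F (1 - E) = 0`.  So `E = E F = F`.  (If `m = 0` then `B = 0`.)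
About 90 lines. -/
def T_IDC : Prop := ∀ (O : Type u) [CommRing O] [IsDomain O] [IsDiscreteValuationRing O] (ϖ : O),
    Irreducible ϖ → ∀ (Q : Type u) [CommRing Q] [Algebra O Q] [Module.Finite O Q],
    IsAdicComplete (Ideal.span ({ϖ} : Set O)) Q →
    ∀ (B : Type u) [Ring B] (φ : Q →+* B) (m : ℕ), φ (algebraMap O Q (ϖ ^ m)) = 0 →
    ∀ x : Q, φ x * φ x = φ x → ∃ e : Q, e * e = e ∧ φ e = φ x

/-- IDEM (lifting one idempotent, general case).  Proof from T_ADIC and T_IDC: let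
`Q = Algebra.adjoin O {x}`; it is commutative (`Algebra.adjoinCommRingOfComm`) and a finite
`O`-module (`O` is Noetherian, `Q` is a submodule of `R`).  (Or use the quotient of `O[X]` by the
kernel of `aeval x`.)  Apply IDC to `Q` and `φ` restricted to `Q`.  About 40 lines. -/
def T_IDEM : Prop := ∀ (O : Type u) [CommRing O] [IsDomain O] [IsDiscreteValuationRing O] (ϖ : O),
    Irreducible ϖ → IsAdicComplete (Ideal.span ({ϖ} : Set O)) O →
    ∀ (R : Type u) [Ring R] [Algebra O R] [Module.Finite O R]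
    (B : Type u) [Ring B] (φ : R →+* B) (m : ℕ), φ (algebraMap O R (ϖ ^ m)) = 0 →
    ∀ x : R, φ x * φ x = φ x → ∃ e ∈ Algebra.adjoin O ({x} : Set R), e * e = e ∧ φ e = φ x

/-- ORTH (lifting orthogonal idempotents).  Proof: induction over finsets `F` of `P` (for instance
over `Finset.induction_on` with the statement: there is `ε : P → R` with `φ (ε p) = E p`,
`ε p * ε p = ε p` and `ε p * ε q = 0` for `p ≠ q` in `F`).  Step: given `ε` on `F` and `p ∉ F`, let
`f = 1 - ∑ q ∈ F, ε q`, an idempotent, `φ f = 1 - ∑ q ∈ F, E q`, `f * ε q = 0 = ε q * f` for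
`q ∈ F`.  Choose `x` with `φ x = E p`, let `x' = f * x * f`; `φ x' = E p` by orthogonality.  Choose
an idempotent `e ∈ Algebra.adjoin O {x'}` with `φ e = E p`.  `f` commutes with `x'`
(`f * x' = x' = x' * f`), hence with `e`.  Put `ε p = f * e`: an idempotent,
`φ (f * e) = (1 - ∑ E q) * E p = E p`, and orthogonal to the `ε q`.  About 60 lines. -/
def T_ORTH : Prop := ∀ (O : Type u) [CommRing O] (R : Type u) [Ring R] [Algebra O R]
    (B : Type u) [Ring B] (φ : R →+* B),
    (∀ x : R, φ x * φ x = φ x → ∃ e ∈ Algebra.adjoin O ({x} : Set R), e * e = e ∧ φ e = φ x) →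
    ∀ (P : Type) [Fintype P] [DecidableEq P] (E : P → B),
    (∀ p q, E p * E q = if p = q then E p else 0) → (∀ p, ∃ x, φ x = E p) →
    ∃ ε : P → R, (∀ p q, ε p * ε q = if p = q then ε p else 0) ∧ ∀ p, φ (ε p) = E p

/-- RANK (as many nonzero orthogonal idempotents as the size).  Proof.  `M p` = range of `ε p` on
`P → O`, a submodule of a free module over a principal ideal domain, so free, and nonzero.
(1) vectors `v p ∈ M p`, `v p ≠ 0`, are linearly independent (apply `ε p` to a relation), so over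
the fraction field they are a basis; hence `∑ p, ε p = 1` (the idempotent `f = 1 - ∑ ε p` kills
all `v p`; if `f w ≠ 0` for a vector `w` then `f w` together with the `v p` would be
`card P + 1` independent vectors, as `ε p * f = 0`, `f * f w = f w`).
(2) each `M p` has rank one: two independent vectors in `M p` together with `v q`, `q ≠ p`, would be
`card P + 1` independent vectors.  So `M p` has a generator `u p`.
(3) `P → O` is the sum of the `M p` by (1), so the `u p` are a basis.  `U` = matrix with columns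
`u p`, `V` its inverse.  `ε p *ᵥ u q = if p = q then u q else 0` gives `ε p * U = U * single p p 1`.
About 80 lines. -/
def T_RANK : Prop := ∀ (O : Type u) [CommRing O] [IsDomain O] [IsPrincipalIdealRing O]
    (P : Type) [Fintype P] [DecidableEq P] (ε : P → Matrix P P O),
    (∀ p q, ε p * ε q = if p = q then ε p else 0) → (∀ p, ε p ≠ 0) →
    ∃ U V : Matrix P P O, U * V = 1 ∧ V * U = 1 ∧ ∀ p, V * ε p * U = Matrix.single p p 1

/-- INV.  Proof: let `P = ∏ l, (X - C (γ l))`; its constant coefficient `y = ∏ l, (- γ l)` is a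
unit and `P = C y + X * Q`.  At `γ l`: `0 = y + γ l * Q(γ l)`.  Take `h = - C y⁻¹ * Q`.
About 20 lines. -/
def T_INV : Prop := ∀ (O : Type u) [CommRing O] (L : Type) [Fintype L] (γ : L → O),
    (∀ l, IsUnit (γ l)) → ∃ h : Polynomial O, ∀ l, h.eval (γ l) * γ l = 1

/-- UNITS (matrix units).  `0` denotes the first index `⟨0, hn i⟩` of a block.  Proof (T_INV as
hypothesis).  Write `S' a = V * Sg a * U` (an algebra homomorphism, `S' a = 0` implies
`Ta a = 0`, the trace of `S' a` is that of `Sg a`).  For `p = (i, s)` choose `b p` with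
`Ta (b p) = Pi.single i (single s 0 1)`, `d p` with `Ta (d p) = Pi.single i (single 0 s 1)`,
`b (i, 0) = e (i, 0)`.  Replace `b p` by `e p * b p * e (i, 0)` and `d p` by
`e (i, 0) * d p * e p`: same `Ta`, and `S' (b p) = single p (i, 0) (β p)`,
`S' (d p) = single (i, 0) p (δ p)`, `β (i, 0) = 1`.  The trace of `S' (b p * d p)` is
`β p * δ p`, and by `hres` it is congruent to `∑ trace = 1` modulo `ϖ` in every coordinate `l`
(`m > 0`), so `γ p = δ p * β p` is a unit in every coordinate (`ϖ` is in the maximal ideal of the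
local ring `O`), and `β p` is a unit of `L → O`.
Let `D = diagonal β`, `U' = U * D`, `V' = D⁻¹ * V`.  With `S'' a = V' * Sg a * U'`:
`S'' (b p) = single p (i, 0) (β p⁻¹ β p β (i,0)) = single p (i, 0) 1`,
`S'' (d p) = single (i, 0) p (δ p β p) = single (i, 0) p (γ p)`,
`S'' (d p * b p) = single (i, 0) (i, 0) (γ p)`.
Choose `h` by INV for `γ p` and let `a' = aeval (d p * b p) h * e (i, 0)`; then
`S'' a' = single (i, 0) (i, 0) (γ p)⁻¹` (monomials: `(single γ) ^ k * single 1 = single (γ ^ k)`),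
so `d' p = a' * d p` has `S'' (d' p) = single (i, 0) p 1`, and
`Ta (d' p) = h(1) • Pi.single i (single 0 s 1)` (since `Ta (d p * b p)` is the idempotent
`Pi.single i (single 0 0 1)`).  As `S'' (d' p * b p) = single (i,0) (i,0) 1 = S'' (e (i, 0))`, the
kernel condition gives `Ta (d' p * b p) = Ta (e (i, 0))`, that is
`h(1) • Pi.single i (single 0 0 1) = Pi.single i (single 0 0 1)`.  Hence
`Ta (d' p) = h(1) • Ta (e (i,0)) * Ta (d p) = Ta (d p)`.
Finally `a = b (i, s) * d' (i, t)` works for `single (i, s) (i, t) 1`.  About 150 lines. -/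
def T_UNITS : Prop := ∀ (O : Type u) [CommRing O] [IsDomain O] [IsDiscreteValuationRing O] (ϖ : O),
    Irreducible ϖ → ∀ (m : ℕ), 0 < m → ∀ (L ι : Type)
    [Fintype L] [Fintype ι] [DecidableEq ι] (n : ι → ℕ), (∀ i, 0 < n i) →
    ∀ (R : Type w) [Ring R] [Algebra O R]
    (Sg : R →ₐ[O] Matrix (Idx n) (Idx n) (L → O))
    (Ta : R →ₐ[O] ((i : ι) → Matrix (Fin (n i)) (Fin (n i)) (Quo ϖ m))),
    Function.Surjective Ta → (∀ a, Sg a = 0 → Ta a = 0) →
    (∀ (a : R) (l : L), ∃ y : O, Ideal.Quotient.mk _ y = ∑ i, (Ta a i).trace ∧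
      ϖ ∣ (Sg a).trace l - y) →
    ∀ (e : Idx n → R), (∀ p, Ta (e p) = Pi.single p.1 (Matrix.single p.2 p.2 1)) →
    ∀ (U V : Matrix (Idx n) (Idx n) (L → O)), U * V = 1 → V * U = 1 →
    (∀ p, V * Sg (e p) * U = Matrix.single p p 1) →
    ∃ U' V' : Matrix (Idx n) (Idx n) (L → O), U' * V' = 1 ∧ V' * U' = 1 ∧
      ∀ i s t, ∃ a, V' * Sg a * U' = Matrix.single ⟨i, s⟩ ⟨i, t⟩ 1 ∧
        Ta a = Pi.single i (Matrix.single s t 1)

/-- STR (structure theorem; idempotents, ranks and units together).  Proof from IDEM, ORTH, RANK,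
UNITS.  Let `R0 = Sg.range`, a subalgebra of the matrix ring, a finite `O`-module (`O` Noetherian,
`L` and `Idx n` finite).  By the kernel condition there is a ring homomorphism
`φ : R0 →+* B` (`B` = the product of the matrix rings over `Quo ϖ m`) with `φ (Sg a) = Ta a`
(`AlgHom.liftOfSurjective`-like; or `Ideal.Quotient.lift` with `R ⧸ ker ≃ range`).  `ϖ ^ m`
goes to `0` in `B`.  ORTH with `E p = Pi.single p.1 (single p.2 p.2 1)` gives orthogonal
idempotents `ε p = Sg (e p)`, `Ta (e p) = E p`.  For each `l` the component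
`ε p` at `l` (apply `Pi.evalRingHom` to the entries) is nonzero because its trace is congruent to
`1` modulo `ϖ` (hypothesis on the traces, `m > 0`).  RANK for each `l` with index set `Idx n`; put
the matrices `U l`, `V l` together to matrices over `L → O`.  Then UNITS.  About 90 lines. -/
def T_STR : Prop := ∀ (O : Type u) [CommRing O] [IsDomain O] [IsDiscreteValuationRing O] (ϖ : O),
    Irreducible ϖ → IsAdicComplete (Ideal.span ({ϖ} : Set O)) O →
    ∀ (m : ℕ), 0 < m → ∀ (L ι : Type)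
    [Fintype L] [Fintype ι] [DecidableEq ι] (n : ι → ℕ), (∀ i, 0 < n i) →
    ∀ (R : Type w) [Ring R] [Algebra O R]
    (Sg : R →ₐ[O] Matrix (Idx n) (Idx n) (L → O))
    (Ta : R →ₐ[O] ((i : ι) → Matrix (Fin (n i)) (Fin (n i)) (Quo ϖ m))),
    Function.Surjective Ta → (∀ a, Sg a = 0 → Ta a = 0) →
    (∀ (a : R) (l : L), ∃ y : O, Ideal.Quotient.mk _ y = ∑ i, (Ta a i).trace ∧
      ϖ ∣ (Sg a).trace l - y) →
    ∃ U V : Matrix (Idx n) (Idx n) (L → O), U * V = 1 ∧ V * U = 1 ∧
      ∀ i s t, ∃ a, V * Sg a * U = Matrix.single ⟨i, s⟩ ⟨i, t⟩ 1 ∧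
        Ta a = Pi.single i (Matrix.single s t 1)

/-! ### 4. The generalized matrix algebra -/

/-- GMA.  Proof.  For `i j` let `r i j` be the set of the `c` such that for all `s, t` there is `a`
with `Sg a = single (i,s) (j,t) c`, an `O`-submodule of `L → O`.  By the units it is enough to have
this for one pair `(s, t)` (multiply by units on both sides), and `n i > 0`.
(R1) entries: `Sg a (i,s) (j,t) ∈ r i j`: `x * a * y` with
`Sg x = single (i,s') (i,s) 1`, `Sg y = single (j,t) (j,t') 1` has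
`Sg = single (i,s') (j,t') (Sg a (i,s) (j,t))`.
(R2) `1 ∈ r i i`; `r i j * r j k ⊆ r i k` (product of the two elements).
(R3) if `Sg a = single (i,s) (j,t) c` then `a` and `a' = x * a * y` (`Sg x = single (i,s)(i,s) 1`,
`Sg y = single (j,t)(j,t) 1`) have the same `Sg`, so the same `Ta` (kernel condition), and
`Ta a' = Pi.single i (single s s 1) * Ta a * Pi.single j (single t t 1)`.  So if `i ≠ j` then
`Ta a = 0`; if `i = j` then `Ta a = Pi.single i (single s t y)` for some `y`; multiplying by the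
unit `(t, s)`: `Sg = single (i,s)(i,s) c` has trace `c`, so `c ∈ T` and
`π c = y` by the trace hypothesis.  So `r i i ⊆ T` and `π c = Ta a i s t` for
`c = Sg a (i,s) (i,t)` for every `a` (apply this to the element of (R1) with `s' = s, t' = t`, whose
`Ta` is `Pi.single i (single s t (Ta a i s t))`).
(R4) `c ∈ r i j`, `d ∈ r j i`, `i ≠ j`: `c d ∈ r i i` and the element `a a'` has `Ta = 0`, so
`π (c d) = 0`.
Now let `A i j` be the `O`-span of the products `t * c`, `t ∈ T`, `c ∈ r i j`.  The claims follow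
by bilinearity (`Submodule.span_induction`); `x ∈ A i i ↔ x ∈ T` since `r i i ⊆ T` and
`1 ∈ r i i`.  About 150 lines. -/
def T_GMA : Prop := ∀ (O : Type u) [CommRing O] (ϖ : O) (m : ℕ) (L ι : Type)
    [Fintype ι] [DecidableEq ι] (n : ι → ℕ), (∀ i, 0 < n i) →
    ∀ (R : Type w) [Ring R] [Algebra O R]
    (Sg : R →ₐ[O] Matrix (Idx n) (Idx n) (L → O))
    (Ta : R →ₐ[O] ((i : ι) → Matrix (Fin (n i)) (Fin (n i)) (Quo ϖ m)))
    (T : Subalgebra O (L → O)) (π : T →ₐ[O] Quo ϖ m), (∀ a, Sg a = 0 → Ta a = 0) →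
    (∀ a, ∃ h : (Sg a).trace ∈ T, π ⟨(Sg a).trace, h⟩ = ∑ i, (Ta a i).trace) →
    (∀ i s t, ∃ a, Sg a = Matrix.single ⟨i, s⟩ ⟨i, t⟩ 1 ∧
        Ta a = Pi.single i (Matrix.single s t 1)) →
    ∃ A : ι → ι → Submodule O (L → O),
      (∀ i j k x y, x ∈ A i j → y ∈ A j k → x * y ∈ A i k) ∧
      (∀ i x, x ∈ A i i ↔ x ∈ T) ∧
      (∀ i j, i ≠ j → ∀ x ∈ A i j, ∀ y ∈ A j i, ∃ h : x * y ∈ T, π ⟨x * y, h⟩ = 0) ∧
      (∀ a i s j t, Sg a ⟨i, s⟩ ⟨j, t⟩ ∈ A i j) ∧
      (∀ a i s t, ∃ h : Sg a ⟨i, s⟩ ⟨i, t⟩ ∈ T, π ⟨_, h⟩ = Ta a i s t) ∧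
      (∀ i j, i ≠ j → ∀ (s : Fin (n i)) (t : Fin (n j)), A i j ≤
        Submodule.span O {w | ∃ x ∈ T, ∃ a, Ta a = 0 ∧ w = x * Sg a ⟨i, s⟩ ⟨j, t⟩})

/-- NZ.  Proof: suppose that for some `l` all `x ∈ A i j`, `j ≠ i`, have `x l = 0`.  Let
`φ s p = if p = ⟨i, s⟩ then 1 else 0` and `ψ g s t = θ g (i,s) (i,t) l`.  Then `ψ` is a monoid
homomorphism (`θ (g h) (i,s) (i,t) = ∑ p, θ g (i,s) p * θ h p (i,t)` and in the coordinate `l` the
terms with `p.1 ≠ i` vanish), `φ * θ_l g = ψ g * φ` in the same way, and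
`ψ g s t ≡ τ i g s t` modulo `ϖ` by the hypotheses (`π (θ g (i,s)(i,t))` is the class of
`τ i g s t` modulo `ϖ ^ m`, `m > 0`, and the coordinate `l` of an element of `T` is congruent to
its `π` modulo `ϖ`).  So `φ = 0`, but `n i > 0`.  About 60 lines. -/
def T_NZ : Prop := ∀ (O : Type u) [CommRing O] [IsDomain O] (ϖ : O) (m : ℕ), 0 < m →
    ∀ (G : Type v) [Group G] (L ι : Type) [Fintype ι] [DecidableEq ι] (n : ι → ℕ),
    (∀ i, 0 < n i) → ∀ (τ : (i : ι) → G →* Matrix (Fin (n i)) (Fin (n i)) O)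
    (θ : G →* Matrix (Idx n) (Idx n) (L → O))
    (T : Subalgebra O (L → O)) (π : T →ₐ[O] Quo ϖ m) (A : ι → ι → Submodule O (L → O)),
    (∀ (c : T) (l : L), ∃ y : O, Ideal.Quotient.mk _ y = π c ∧ ϖ ∣ (c : L → O) l - y) →
    (∀ g i s j t, θ g ⟨i, s⟩ ⟨j, t⟩ ∈ A i j) →
    (∀ g i s t, ∃ h : θ g ⟨i, s⟩ ⟨i, t⟩ ∈ T, π ⟨_, h⟩ = red ϖ m (τ i g) s t) →
    ∀ i : ι,
    (∀ (l : L) (φ : Matrix (Fin (n i)) (Idx n) O)
      (ψ : G →* Matrix (Fin (n i)) (Fin (n i)) O),
      (∀ g, φ * (θ g).map (fun c => c l) = ψ g * φ) → (∀ g s t, ϖ ∣ (ψ g - τ i g) s t) →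
      φ = 0) →
    ∀ l, ∃ j, j ≠ i ∧ ∃ x ∈ A i j, x l ≠ 0

/-! ### 5. The determinant and the length inequality -/

/-- DET (determinants in a generalized matrix algebra).  Proof.
`det N = ∑ σ, sign σ ∏ a, N (σ a) a`.
For `σ = 1` the product is `∏ c a` modulo `J` (`J` is an ideal of `T`, `c a ∈ T`,
`N a a ∈ T`).  For `σ ≠ 1` the product is in `J`:
(cycle) let `σ` be a cycle, `a0` in its support, `K ≥ 2` its length,
`z t = N (σ ^ (t+1) a0) (σ ^ t a0) ∈ A (β (σ ^ (t+1) a0)) (β (σ ^ t a0))`.  The product of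
`z 1, ..., z (K-1)` (in this order from right to left; the ring is commutative) is in
`A (β a0) (β (σ a0))`, because `σ ^ K a0 = a0` (induction).  If `β (σ a0) ≠ β a0` then
`z 0 ∈ A (β (σ a0)) (β a0)` and the whole product is in `J` by the fifth hypothesis.  If
`β (σ a0) = β a0` then `z 0 ∈ J` (last hypothesis, `σ a0 ≠ a0`) and the rest is in
`A (β a0) (β a0) ⊆ T`: the product is in `J`.
(general) use `Equiv.Perm.cycle_induction_on` with the statement
`∏ a ∈ σ.support, N (σ a) a ∈ T`, and `∈ J` if `σ ≠ 1`; for disjoint `σ, τ` the support of `σ τ` is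
the disjoint union and the product splits.  The remaining factors `N a a`, `a` fixed, are in `T`.
About 130 lines. -/
def T_DET : Prop := ∀ (C : Type u) [CommRing C] (T : Subring C) (J : AddSubgroup C),
    (∀ x ∈ J, x ∈ T) → (∀ t ∈ T, ∀ x ∈ J, t * x ∈ J) →
    ∀ (ι : Type) (A : ι → ι → AddSubgroup C),
    (∀ i j k x y, x ∈ A i j → y ∈ A j k → x * y ∈ A i k) →
    (∀ i, ∀ x ∈ A i i, x ∈ T) →
    (∀ i j, i ≠ j → ∀ x ∈ A i j, ∀ y ∈ A j i, x * y ∈ J) →
    ∀ (S : Type) [Fintype S] [DecidableEq S] (β : S → ι) (N : Matrix S S C) (c : S → C),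
    (∀ b a, N b a ∈ A (β b) (β a)) → (∀ a, c a ∈ T) → (∀ a, N a a - c a ∈ J) →
    (∀ b a, b ≠ a → β b = β a → N b a ∈ J) →
    N.det - ∏ a, c a ∈ J

/-- SNF (adapted bases).  Proof: `W` is a submodule of a free module of rank `card L` over a
principal ideal domain, so it has a basis indexed by `Fin k`, `k ≤ card L`.  Apply
`Submodule.smithNormalForm` to `W'` inside `W` (`W'.submoduleOf W`): a basis `b` of `W` and
`a i` with the `a i • b (f i)` a basis of `W'`.  Because `ϖ ^ m • W ≤ W'`, the rank of `W'` is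
`k`, `f` is a bijection, and every `a i` divides `ϖ ^ m`, so it is a unit times `ϖ ^ c`, `c ≤ m`.
Embed `Fin k` into `L`; outside of the image put `x = 0` and `c = 0`.  About 100 lines. -/
def T_SNF : Prop := ∀ (O : Type u) [CommRing O] [IsDomain O] [IsDiscreteValuationRing O] (ϖ : O),
    Irreducible ϖ → ∀ (m : ℕ) (L : Type) [Fintype L] (W W' : Submodule O (L → O)),
    W' ≤ W → (∀ w ∈ W, ϖ ^ m • w ∈ W') →
    ∃ (x : L → (L → O)) (c : L → ℕ), (∀ α, x α ∈ W) ∧ (∀ α, c α ≤ m) ∧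
      (∀ w ∈ W, ∃ a : L → O, w = ∑ α, a α • x α) ∧
      (∀ a : L → O, ∑ α, a α • x α ∈ W' ↔ ∀ α, ϖ ^ c α ∣ a α)

/-- INEQ (the length inequality).  Proof (T_DET as hypothesis).  Index set
`S = {j // j ≠ i} × L`, `β (j, α) = j`.
(1) every `w ∈ Wp π A i j` (`j ≠ i`) is a sum `∑ b : S, x b.1 b.2 * z b` with `z b ∈ A b.1 j`, and
`z b ∈ T`, `π (z b) = 0` if `b.1 = j`: the set of such `w` is an `O`-submodule and contains the
generators: for `x' * y`, `x' ∈ A i k`, `y ∈ A k j`, write `x' = ∑ α, a α • x k α` and take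
`z (k, α) = a α • y`, the others `0`; for `t * x'`, `π t = 0`, write `x' = ∑ α, a α • x j α` and take
`z (j, α) = a α • t` (in `A j j` by the second hypothesis on `A`).
(2) `ϖ ^ c j α • x j α ∈ Wp` by the last hypothesis with `a = Pi.single α (ϖ ^ c)`; choose
`z b a` as in (1), `a = (j, α)`.  Let `N b a = (if b = a then ϖ ^ c a else 0) - z b a`.  Then
`∑ b, x b * N b a = 0` for all `a`.  For every `l` the vector `(x b l)_b` is not zero (otherwise
all elements of all `A i j`, `j ≠ i`, vanish at `l`), so `det (N at l) = 0` (`O` is a domain: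
`Matrix.exists_vecMul_eq_zero_iff`), so `det N = 0`.
(3) DET with `J = {x | x ∈ T, π x = 0}` gives `∏ a, ϖ ^ c a ∈ J`, so `ϖ ^ (∑ c)` is `0` in
`Quo ϖ m`, `ϖ ^ m ∣ ϖ ^ (∑ c)`, `m ≤ ∑ c`.  About 130 lines. -/
def T_INEQ : Prop := ∀ (O : Type u) [CommRing O] [IsDomain O] (ϖ : O),
    Irreducible ϖ → ∀ (m : ℕ) (L ι : Type) [Fintype L] [Fintype ι] [DecidableEq ι]
    (T : Subalgebra O (L → O)) (π : T →ₐ[O] Quo ϖ m) (A : ι → ι → Submodule O (L → O)),
    (∀ i j k x y, x ∈ A i j → y ∈ A j k → x * y ∈ A i k) →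
    (∀ i x, x ∈ A i i ↔ x ∈ T) →
    (∀ i j, i ≠ j → ∀ x ∈ A i j, ∀ y ∈ A j i, ∃ h : x * y ∈ T, π ⟨x * y, h⟩ = 0) →
    ∀ i : ι, (∀ l, ∃ j, j ≠ i ∧ ∃ x ∈ A i j, x l ≠ 0) →
    ∀ (x : ι → L → (L → O)) (c : ι → L → ℕ),
    (∀ j, j ≠ i → ∀ α, x j α ∈ A i j) →
    (∀ j, j ≠ i → ∀ w ∈ A i j, ∃ a : L → O, w = ∑ α, a α • x j α) →
    (∀ j, j ≠ i → ∀ a : L → O, ∑ α, a α • x j α ∈ Wp π A i j ↔ ∀ α, ϖ ^ c j α ∣ a α) →
    m ≤ ∑ j ∈ Finset.univ.erase i, ∑ α, c j α

/-- DUAL (functionals).  Proof: for `s` in the product and `w = ∑ α, a α • x α` put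
`Ψ s w = ∑ α, [ϖ ^ (m - c α) * a α * s' α]` in `Quo ϖ m`, `s' α` a lift of `s α`.  Well defined in
`s'` because `ϖ ^ (m - c α) * ϖ ^ c α = ϖ ^ m`, and in `a`: if two families give the same `w`, the
difference `a` has `∑ a α • x α = 0 ∈ W'`, so `ϖ ^ c α ∣ a α`.  The same computation gives
`Ψ s w = 0` for `w ∈ W'`.  Injective: `Ψ s (x α) = [ϖ ^ (m - c α) * s' α]`; if it is `0` then
`ϖ ^ c α ∣ s' α` (`O` is a domain, `ϖ ≠ 0`).  (Convenient: the linear map
`Quo ϖ (c α) → Quo ϖ m`, multiplication by `ϖ ^ (m - c α)`, by `Submodule.mapQ` or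
`Submodule.liftQ`, and the coordinate maps `W → Quo ϖ (c α)`.)  About 80 lines. -/
def T_DUAL : Prop := ∀ (O : Type u) [CommRing O] [IsDomain O] (ϖ : O), ϖ ≠ 0 →
    ∀ (m : ℕ) (L : Type) [Fintype L] (W W' : Submodule O (L → O))
    (x : L → (L → O)) (c : L → ℕ), (∀ α, x α ∈ W) → (∀ α, c α ≤ m) →
      (∀ w ∈ W, ∃ a : L → O, w = ∑ α, a α • x α) →
      (∀ a : L → O, ∑ α, a α • x α ∈ W' ↔ ∀ α, ϖ ^ c α ∣ a α) →
    ∃ Ψ : ((α : L) → Quo ϖ (c α)) →ₗ[O] (W →ₗ[O] Quo ϖ m), Function.Injective Ψ ∧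
      ∀ s (w : W), (w : L → O) ∈ W' → Ψ s w = 0

/-! ### 6. Extensions -/

/-- COC (cocycles).  Here `θ g = Sg (g)`.  For a functional `f` on `A i j` which kills
`Wp π A i j` let `z g s t = f (θ g (i,s) (j,t))`.  Note first: `f (t x) = π t * f x` for `t ∈ T`,
`x ∈ A i j`: choose `a ∈ O` with class `π t`; `π (t - a) = 0`, so `(t - a) x ∈ Wp` and
`f (t x) = f (a x) = a f x`.
`Z` is linear in `f` (clear), and a cocycle: `θ (g h) (i,s) (j,t) = ∑ p, θ g (i,s) p * θ h p (j,t)`;
the terms with `p.1 = k ≠ i, j` are in `Wp`; for `p.1 = i` use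
`π (θ g (i,s) (i,p)) = red (τ i g) s p`, for `p.1 = j` use
`π (θ h (j,p) (j,t)) = red (τ j h) p t` (commutativity).
Coboundary: let `z g = red (τ i g) X - X red (τ j g)` for all `g`.  By linearity, for every
`a : MonoidAlgebra O G`: `f (Sg a (i,s) (j,t)) = (Ta a i * X - X * Ta a j) s t`.  So `f` is `0` on
the entries `Sg a (i,s) (j,t)` with `Ta a = 0`, and by `f (t x) = π t f x` and the last hypothesis
it is `0` (`n i, n j > 0`).  About 120 lines. -/
def T_COC : Prop := ∀ (O : Type u) [CommRing O] (ϖ : O) (m : ℕ) (G : Type v) [Group G]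
    (L ι : Type) [Fintype ι] [DecidableEq ι] (n : ι → ℕ), (∀ i, 0 < n i) →
    ∀ (τ : (i : ι) → G →* Matrix (Fin (n i)) (Fin (n i)) O)
    (Sg : MonoidAlgebra O G →ₐ[O] Matrix (Idx n) (Idx n) (L → O))
    (Ta : MonoidAlgebra O G →ₐ[O] ((i : ι) → Matrix (Fin (n i)) (Fin (n i)) (Quo ϖ m))),
    (∀ g i, Ta (MonoidAlgebra.of O G g) i = red ϖ m (τ i g)) →
    ∀ (T : Subalgebra O (L → O)) (π : T →ₐ[O] Quo ϖ m) (A : ι → ι → Submodule O (L → O)),
    (∀ i j k x y, x ∈ A i j → y ∈ A j k → x * y ∈ A i k) →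
    (∀ i x, x ∈ A i i ↔ x ∈ T) →
    (∀ i j, i ≠ j → ∀ x ∈ A i j, ∀ y ∈ A j i, ∃ h : x * y ∈ T, π ⟨x * y, h⟩ = 0) →
    ∀ (hent : ∀ a i s j t, Sg a ⟨i, s⟩ ⟨j, t⟩ ∈ A i j),
    (∀ a i s t, ∃ h : Sg a ⟨i, s⟩ ⟨i, t⟩ ∈ T, π ⟨_, h⟩ = Ta a i s t) →
    ∀ i j, i ≠ j → (∀ (s : Fin (n i)) (t : Fin (n j)), A i j ≤
        Submodule.span O {w | ∃ x ∈ T, ∃ a, Ta a = 0 ∧ w = x * Sg a ⟨i, s⟩ ⟨j, t⟩}) →
    ∀ (V : Type u) [AddCommGroup V] [Module O V] (Ψ : V →ₗ[O] (A i j →ₗ[O] Quo ϖ m)),
    Function.Injective Ψ → (∀ s (w : A i j), (w : L → O) ∈ Wp π A i j → Ψ s w = 0) →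
    ∃ Φ : V →ₗ[O] H1 ϖ m (τ i) (τ j), Function.Injective Φ ∧
      ∀ x, ∃ z : Z1 ϖ m (τ i) (τ j), Φ x = Submodule.Quotient.mk z ∧
        ∀ g s t, z.1 g s t = Ψ x ⟨Sg (MonoidAlgebra.of O G g) ⟨i, s⟩ ⟨j, t⟩, hent _ i s j t⟩

/-- CLS (the extensions are in the class).  Proof.  As in COC, `f (t x) = π t * f x` for `t ∈ T`.
Let `M k` (`k = j` or `k = i`) be the `O`-submodule of `Idx n → L → O` of the vectors `x` with
`x (k', s) ∈ A k' k` for all `k', s`; it is stable under the action of `G` by the matrices `θ g`.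
Define `F : M j × M i → (Fin (n i) → Quo) × (Fin (n j) → Quo)` by
`F (x, y) = (fun s => f (x (i,s)) + π (y (i,s)), fun t => π (x (j,t)))`.
It is equivariant for `extRep z`: the `(i,s)` component of `θ g x` is
`∑ p, θ g (i,s) p * x p`; the terms with `p.1 = i` give `red (τ i g) s p * f (x (i,p))`, those with
`p.1 = j` give `f (θ g (i,s) (j,p) * x (j,p)) = z g s p * π (x (j,p))` (`x (j,p) ∈ A j j = T`),
the others are in `Wp`; the `(j,t)` component: `p.1 = j` gives `red (τ j g) t p * π (x (j,p))`, the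
others are in `A j k * A k j`, so `π = 0`; and `θ g y`: the `(i,s)` component gives
`red (τ i g) s p * π (y (i,p))`, the others have `π = 0`.
`F` is surjective: take `x (j,t)` = constants in `O`, `y (i,s)` = constants, all other
components `0`.
`F` kills `ϖ ^ m • (M j × M i)`.  Let `W = (Idx n → L → O) × (Idx n → L → O)`, a finite module over
the Noetherian ring `O`, `M = M j × M i ≤ W`.  By Artin-Rees (`Ideal.exists_pow_inf_eq_pow_smul`)
there is `r` with `M ⊓ ϖ ^ r W ≤ ϖ ^ m M`.  `W / ϖ ^ r W` is the product of two copies of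
`bigRep ϖ r θ` (in `C` by closure); `M / (M ⊓ ϖ ^ r W)` embeds in it (closure under `sub`),
and the target of `F` is a quotient of `M / (M ⊓ ϖ ^ r W)` (closure under `quot`).
For instance: let `M'` be the range of the map `M → (Idx n → L → Quo ϖ r) ^ 2`, a
subrepresentation; `F` factors through `M'`.  About 200 lines. -/
def T_CLS : Prop := ∀ (O : Type u) [CommRing O] [IsNoetherianRing O] (ϖ : O) (m : ℕ)
    (G : Type v) [Group G] (C : RepClass O G), C.Closed →
    ∀ (L ι : Type) [Fintype L] [Fintype ι] [DecidableEq ι] (n : ι → ℕ)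
    (τ : (i : ι) → G →* Matrix (Fin (n i)) (Fin (n i)) O)
    (θ : G →* Matrix (Idx n) (Idx n) (L → O)), (∀ r, C _ (bigRep ϖ r θ)) →
    ∀ (T : Subalgebra O (L → O)) (π : T →ₐ[O] Quo ϖ m) (A : ι → ι → Submodule O (L → O)),
    (∀ i j k x y, x ∈ A i j → y ∈ A j k → x * y ∈ A i k) →
    (∀ i x, x ∈ A i i ↔ x ∈ T) →
    (∀ i j, i ≠ j → ∀ x ∈ A i j, ∀ y ∈ A j i, ∃ h : x * y ∈ T, π ⟨x * y, h⟩ = 0) →
    ∀ (hent : ∀ g i s j t, θ g ⟨i, s⟩ ⟨j, t⟩ ∈ A i j),
    (∀ g i s t, ∃ h : θ g ⟨i, s⟩ ⟨i, t⟩ ∈ T, π ⟨_, h⟩ = red ϖ m (τ i g) s t) →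
    ∀ i j, i ≠ j → ∀ f : A i j →ₗ[O] Quo ϖ m,
    (∀ w : A i j, (w : L → O) ∈ Wp π A i j → f w = 0) →
    ∀ z : Z1 ϖ m (τ i) (τ j),
    (∀ g s t, z.1 g s t = f ⟨θ g ⟨i, s⟩ ⟨j, t⟩, hent g i s j t⟩) →
    C _ (extRep ϖ m (τ i) (τ j) z)

/-- LAT (the lattice of all forms is in the class).  Proof: first `C` contains every finite
product `L → (Fin N → Quo ϖ r)` with the componentwise action of the `latRep ϖ r (σ l)`:
generalize to a finset `F` of `L` and use induction (the empty product is the zero module, a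
subobject of `latRep ϖ r (σ l0)`, `L` is nonempty; the step uses `prod` and an isomorphism, i.e.
`sub` or `quot`).  Then `p ↦ (l ↦ U l *ᵥ (q ↦ p q l))` is an isomorphism from
`bigRep ϖ r θ` to this product (`red` of `U l`, `V l` are inverse to each other), equivariant
because `U l * θ_l g = U l * V l * σ l g * U l = σ l g * U l`.  About 100 lines. -/
def T_LAT : Prop := ∀ (O : Type u) [CommRing O] (ϖ : O) (r : ℕ)
    (G : Type v) [Group G] (C : RepClass O G), C.Closed →
    ∀ (L S : Type) [Fintype L] [Nonempty L] [Fintype S] [DecidableEq S] (N : ℕ)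
    (σ : L → G →* Matrix (Fin N) (Fin N) O), (∀ l, C _ (latRep ϖ r (σ l))) →
    ∀ (θ : G →* Matrix S S (L → O)) (U : L → Matrix (Fin N) S O) (V : L → Matrix S (Fin N) O),
    (∀ l, U l * V l = 1) → (∀ l, V l * U l = 1) →
    (∀ l g, (θ g).map (fun c => c l) = V l * σ l g * U l) →
    C _ (bigRep ϖ r θ)

/-! ### 7. The theorem -/

/-- MAIN, from all the targets above. -/
def T_MAIN : Prop := ∀ (O : Type u) [CommRing O] [IsDomain O] [IsDiscreteValuationRing O] (ϖ : O),
    Irreducible ϖ → IsAdicComplete (Ideal.span ({ϖ} : Set O)) O →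
    ∀ (G : Type v) [Group G] (C : RepClass O G), C.Closed →
    ∀ (L ι : Type) [Fintype L] [Nonempty L] [Fintype ι] [DecidableEq ι] (n : ι → ℕ),
    (∀ i, 0 < n i) → ∀ (N : ℕ), N = ∑ i, n i →
    ∀ (σ : L → G →* Matrix (Fin N) (Fin N) O)
    (τ : (i : ι) → G →* Matrix (Fin (n i)) (Fin (n i)) O),
    (∀ l r, C _ (latRep ϖ r (σ l))) →
    (∀ i, ResAbsIrr ϖ (τ i)) → (∀ i j, i ≠ j → ResDisjoint ϖ (τ i) (τ j)) →
    (∀ l g, ϖ ∣ (σ l g).trace - ∑ i, (τ i g).trace) →
    ∀ m : ℕ, 0 < m → TotalDepth ϖ m σ τ →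
    ∀ i : ι, (∀ l, NoQuotient ϖ (σ l) (τ i)) →
    ∃ c : ι → L → ℕ, m ≤ ∑ j ∈ Finset.univ.erase i, ∑ α, c j α ∧
      ∀ j, j ≠ i → ∃ Φ : ((α : L) → Quo ϖ (c j α)) →ₗ[O] H1 ϖ m (τ i) (τ j),
        Function.Injective Φ ∧ ∀ x, ∃ z : Z1 ϖ m (τ i) (τ j),
          Φ x = Submodule.Quotient.mk z ∧ C _ (extRep ϖ m (τ i) (τ j) z)

end Pool.Agent.RTL
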